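import Pool.Agent.P.MP_85b516_nt.Stmt

/-! Borel's lemma, independence of the series `Yv`, and transfer of non-degeneracy. -/

open PowerSeries Finset Module

namespace Pool.Agent.P.MP_85b516_nt

namespace PAI

open Classical in
theorem borel_aux {ι : Type} [Fintype ι] (f T : ι → ℂ⟦X⟧) (h1 : ∀ i, th (f i) = T i * f i)
    (h2 : ∀ i, constantCoeff (f i) = 1) (h3 : ∀ i, PB (T i))
    (h4 : ∀ i i', i ≠ i' → ∀ A B : ℂ⟦X⟧, PB A → PB B → A ≠ 0 → B ≠ 0 →
      A * th B - B * th A ≠ A * B * (T i - T i')) (n : ℕ) :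
    ∀ a : ι → ℂ⟦X⟧, (∀ i, PB (a i)) → (univ.filter fun i => a i ≠ 0).card ≤ n →
      ∑ i, a i * f i = 0 → ∀ i, a i = 0 := by
  induction n with
  | zero =>
    intro a _ hc _ i
    by_contra h
    have : i ∈ univ.filter fun i => a i ≠ 0 := mem_filter.2 ⟨mem_univ _, h⟩
    rw [card_eq_zero.1 (Nat.le_zero.1 hc)] at this
    exact notMem_empty _ this
  | succ n ih =>
    intro a ha hc hs k
    by_contra hk
    have hd : ∑ i, (th (a i) + a i * T i) * f i = 0 := by
      have := congrArg th hs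
      rw [th_sum, th_zero] at this
      rw [← this]
      refine sum_congr rfl fun i _ => ?_
      rw [th_mul, h1]
      ring
    have key := ih (fun i => a k * (th (a i) + a i * T i) - a i * (th (a k) + a k * T k))
      (fun i => ((ha k).mul ((ha i).th.add ((ha i).mul (h3 i)))).sub
        ((ha i).mul ((ha k).th.add ((ha k).mul (h3 k))))) ?_ ?_
    · have h5 : ∀ i, i ≠ k → a i = 0 := by
        intro i hi
        by_contra h
        refine h4 k i hi.symm (a k) (a i) (ha k) (ha i) hk h ?_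
        linear_combination key i
      rw [sum_eq_single k (fun i _ hi => by rw [h5 i hi, zero_mul])
        (fun h => absurd (mem_univ k) h)] at hs
      have h6 : f k ≠ 0 := fun h => by simpa [h] using h2 k
      exact mul_ne_zero hk h6 hs
    · have hk' : k ∈ univ.filter fun i => a i ≠ 0 := mem_filter.2 ⟨mem_univ _, hk⟩
      refine (card_le_card (t := (univ.filter fun i => a i ≠ 0).erase k) fun i hi => ?_).trans ?_
      · have h := (mem_filter.1 hi).2
        refine mem_erase.2 ⟨?_, mem_filter.2 ⟨mem_univ _, fun e => h ?_⟩⟩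
        · rintro rfl
          exact h (sub_self _)
        · rw [e, th_zero]
          ring
      · rw [card_erase_of_mem hk']
        omega
    · have : ∑ i, (a k * (th (a i) + a i * T i) - a i * (th (a k) + a k * T k)) * f i =
          a k * ∑ i, (th (a i) + a i * T i) * f i -
            (th (a k) + a k * T k) * ∑ i, a i * f i := by
        rw [mul_sum, mul_sum, ← sum_sub_distrib]
        exact sum_congr rfl fun i _ => by ring
      rw [this, hd, hs, mul_zero, mul_zero, sub_zero]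

theorem pb_prim {T : ℂ⟦X⟧} (h : PB T) : PB (prim T) := by
  obtain ⟨C, k, h⟩ := h
  refine ⟨C, k, fun n => le_trans ?_ (h n)⟩
  rw [prim, coeff_mk, norm_div, Complex.norm_natCast]
  rcases Nat.eq_zero_or_pos n with rfl | hn
  · simp
  · exact div_le_self (norm_nonneg _) (by exact_mod_cast hn)

theorem th_prim {T : ℂ⟦X⟧} (h : coeff 0 T = 0) : th (prim T) = T := by
  ext n
  rw [coeff_th, prim, coeff_mk]
  rcases Nat.eq_zero_or_pos n with rfl | hn
  · simp [h]
  · exact mul_div_cancel₀ _ (by exact_mod_cast hn.ne')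

theorem th_pow {f T : ℂ⟦X⟧} (h : th f = T * f) (n : ℕ) : th (f ^ n) = ((n : ℂ) • T) * f ^ n := by
  induction n with
  | zero => simp [th_one]
  | succ n ih =>
    rw [pow_succ, th_mul, ih, h, Nat.cast_succ, add_smul, one_smul]
    ring

theorem th_prod {ι : Type*} (s : Finset ι) {f T : ι → ℂ⟦X⟧} (h : ∀ i, th (f i) = T i * f i) :
    th (∏ i ∈ s, f i) = (∑ i ∈ s, T i) * ∏ i ∈ s, f i := by
  classical
  induction s using Finset.induction_on with
  | empty => simp [th_one]
  | insert i s hi ih =>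
    rw [prod_insert hi, sum_insert hi, th_mul, ih, h]
    ring

end PAI

open PAI

theorem s_borel : S_Borel := by
  intro ι _ f T h1 h2 h3 h4
  rw [Fintype.linearIndependent_iff]
  intro g hg i
  have := borel_aux f T h1 h2 h3 h4 _ (fun i => g i • (1 : ℂ⟦X⟧)) (fun i => PB.one.smul _) le_rfl
    (by simpa using hg) i
  simpa using this

theorem s_key (hj : S_Jen) (hl : S_Low) (h2 : S_Two) (h4 : S_Four) (hy : S_Yv) : S_Key := by
  intro d hd V _ j ω e M hj1 hM hω hne A B hA hB hA0 hB0 heq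
  have hn : ∀ v, ‖ω v‖ = 1 := fun v => Complex.norm_eq_one_of_pow_eq_one (hω v) (by omega)
  have hT : PB (∑ v, e v • Tv d (j v) (ω v)) :=
    PB.sum _ fun v _ => ((hy d (j v) (ω v) (by omega) (hj1 v)).2.2 (hn v)).smul _
  have h0 : coeff 0 (∑ v, e v • Tv d (j v) (ω v)) = 0 := by
    rw [map_sum]
    refine sum_eq_zero fun v _ => ?_
    rw [map_smul, Tv, coeff_mk]
    simp [Gc, sg]
  refine hl d hd _ (pb_prim hT) (by simp [prim]) (h2 d hd V j ω e M hj1 hM hω hne)
    ⟨∑ v, ‖e v‖, h4 d hd V j ω e hj1 hn⟩ (hj A B _ hA hB (pb_prim hT) hA0 hB0 ?_)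
  rw [th_prim h0]
  exact heq

theorem s_ai (hb : S_Borel) (hk : S_Key) (hy : S_Yv) : S_AI := by
  classical
  intro d hd V _ j ω M hj1 hM hω φ D hD
  have hn : ∀ v, ‖ω v‖ = 1 := fun v => Complex.norm_eq_one_of_pow_eq_one (hω v) (by omega)
  have hY := fun v => hy d (j v) (ω v) (by omega) (hj1 v)
  set τ : (V →₀ ℕ) → ℂ⟦X⟧ := fun m => ∑ v, (m v : ℂ) • Tv d (j v) (ω v) with hτ
  set Y : (V →₀ ℕ) → ℂ⟦X⟧ := fun m => ∏ v, Yv d (j v) (ω v) ^ m v with hYd
  have e1 : ∀ m, th (Y m) = τ m * Y m := fun m => th_prod _ fun v => th_pow (hY v).1 _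
  have e2 : ∀ m, constantCoeff (Y m) = 1 := fun m => by
    simp only [hYd, map_prod, map_pow]
    exact prod_eq_one fun v _ => by rw [(hY v).2.1, one_pow]
  set F : ℂ⟦X⟧ → ℂ⟦X⟧ := fun t => if h : ∃ m, τ m = t then Y h.choose else 0 with hF
  have e3 : ∀ m, th (F (τ m)) = τ m * F (τ m) ∧ constantCoeff (F (τ m)) = 1 := fun m => by
    have h : ∃ m', τ m' = τ m := ⟨m, rfl⟩
    simp only [hF, dif_pos h]
    exact ⟨by rw [e1, h.choose_spec], e2 _⟩
  have e4 : ∀ m, Y m = F (τ m) := fun m => ode_unique (e1 m) (e3 m).1 (e2 m) (e3 m).2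
  have hli : LinearIndependent ℂ fun t : D.support.image τ => F t := by
    refine hb _ _ (fun t => (t : ℂ⟦X⟧)) ?_ ?_ ?_ ?_
    · rintro ⟨t, ht⟩
      obtain ⟨m, -, rfl⟩ := mem_image.1 ht
      exact (e3 m).1
    · rintro ⟨t, ht⟩
      obtain ⟨m, -, rfl⟩ := mem_image.1 ht
      exact (e3 m).2
    · rintro ⟨t, ht⟩
      obtain ⟨m, -, rfl⟩ := mem_image.1 ht
      exact PB.sum _ fun v _ => ((hY v).2.2 (hn v)).smul _
    · rintro ⟨t, ht⟩ ⟨t', ht'⟩ hne
      obtain ⟨m, -, rfl⟩ := mem_image.1 ht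
      obtain ⟨m', -, rfl⟩ := mem_image.1 ht'
      have e5 : τ m - τ m' = ∑ v, ((m v : ℂ) - m' v) • Tv d (j v) (ω v) := by
        simp only [hτ, sub_smul, sum_sub_distrib]
      have e6 : τ m - τ m' ≠ 0 := fun h => hne (Subtype.ext (sub_eq_zero.1 h))
      simp only [e5]
      exact hk d hd V j ω _ M hj1 hM hω (e5 ▸ e6)
  have hmap : ∀ m ∈ D.support, τ m ∈ D.support.image τ := fun m hm => mem_image_of_mem τ hm
  have hz := Fintype.linearIndependent_iff.1 hli
    (fun t => ∑ m ∈ D.support with τ m = t, D.coeff m) (by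
      rw [sum_coe_sort (D.support.image τ)
        (fun t => (∑ m ∈ D.support with τ m = t, D.coeff m) • F t), ← hD,
        MvPolynomial.aeval_def, MvPolynomial.eval₂_eq', ← sum_fiberwise_of_maps_to hmap]
      refine sum_congr rfl fun t _ => ?_
      rw [sum_smul]
      refine sum_congr rfl fun m hm => ?_
      rw [← (mem_filter.1 hm).2, ← e4, Algebra.smul_def])
  rw [MvPolynomial.eval_eq', ← sum_fiberwise_of_maps_to hmap]
  refine sum_eq_zero fun t ht => ?_
  have e7 : ∀ m ∈ D.support.filter fun m => τ m = t,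
      D.coeff m * ∏ v, Complex.exp (φ (Tv d (j v) (ω v))) ^ m v =
        D.coeff m * Complex.exp (φ t) := by
    intro m hm
    rw [← (mem_filter.1 hm).2, hτ, map_sum, Complex.exp_sum]
    congr 1
    exact prod_congr rfl fun v _ => by rw [map_smul, smul_eq_mul, Complex.exp_nat_mul]
  rw [sum_congr rfl e7, ← sum_mul, hz ⟨t, ht⟩, zero_mul]

theorem s_mat : S_Mat := by
  classical
  intro V R E _ _ _ y t ρ κ h1 h2 δ hr he
  set G : Matrix (R ⊕ E) V (MvPolynomial V ℂ) := Matrix.of (Sum.elim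
    (fun r v => (ρ r v : MvPolynomial V ℂ))
    (fun e v => MvPolynomial.C (κ e v) * MvPolynomial.X v)) with hG
  have hinj : LinearMap.ker (Matrix.toLin' (G.map (MvPolynomial.eval t))) = ⊥ := by
    rw [LinearMap.ker_eq_bot']
    intro u hu
    refine h2 u (fun r => ?_) (fun e => ?_)
    · simpa [hG, Matrix.mulVec, dotProduct] using congrFun hu (Sum.inl r)
    · simpa [hG, Matrix.mulVec, dotProduct] using congrFun hu (Sum.inr e)
  obtain ⟨g, hg⟩ := LinearMap.exists_leftInverse_of_injective _ hinj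
  have hB : LinearMap.toMatrix' g * G.map (MvPolynomial.eval t) = 1 := by
    have := congrArg LinearMap.toMatrix' hg
    rwa [LinearMap.toMatrix'_comp, LinearMap.toMatrix'_toLin', LinearMap.toMatrix'_id] at this
  set B : Matrix V (R ⊕ E) (MvPolynomial V ℂ) := (LinearMap.toMatrix' g).map MvPolynomial.C with hB'
  obtain ⟨N, hN⟩ : ∃ N, N = B * G := ⟨_, rfl⟩
  have hdet : MvPolynomial.eval t N.det = 1 := by
    rw [RingHom.map_det, RingHom.mapMatrix_apply, hN, Matrix.map_mul, hB', Matrix.map_map]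
    have : (LinearMap.toMatrix' g).map (MvPolynomial.eval t ∘ MvPolynomial.C) =
        LinearMap.toMatrix' g := by
      ext a b
      simp
    rw [this, hB, Matrix.det_one]
  have hy : MvPolynomial.aeval y N.det ≠ 0 := fun h => one_ne_zero (hdet.symm.trans (h1 _ h))
  set ψ : MvPolynomial V ℂ →+* FractionRing ℂ⟦X⟧ :=
    (algebraMap ℂ⟦X⟧ (FractionRing ℂ⟦X⟧)).comp (MvPolynomial.aeval y).toRingHom with hψ
  have hψ0 : (N.map ψ).det ≠ 0 := by
    rw [← RingHom.mapMatrix_apply, ← RingHom.map_det]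
    exact (map_ne_zero_iff _ (IsFractionRing.injective ℂ⟦X⟧ _)).2 hy
  refine Matrix.eq_zero_of_mulVec_eq_zero hψ0 ?_
  have hGδ : (G.map ψ).mulVec δ = 0 := by
    funext x
    rcases x with r | e
    · simpa [hG, Matrix.mulVec, dotProduct] using hr r
    · have := he e
      simp only [Algebra.smul_def] at this
      simpa [hG, hψ, Matrix.mulVec, dotProduct] using this
  rw [hN, Matrix.map_mul, ← Matrix.mulVec_mulVec, hGδ, Matrix.mulVec_zero]

end Pool.Agent.P.MP_85b516_nt
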