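import Pool.Agent.P.MP_85b516_nt.Stmt

/-! Assembly of Theorem FM from the packages. -/

open PowerSeries Finset Module

namespace Pool.Agent.P.MP_85b516_nt

noncomputable section

namespace PAsm

lemma th_pow {f T : ℂ⟦X⟧} (h : th f = T * f) (n : ℕ) : th (f ^ n) = ((n : ℂ) • T) * f ^ n := by
  induction n with
  | zero => simp [th_one]
  | succ n ih =>
    rw [pow_succ, th_mul, ih, h]
    push_cast
    rw [add_smul, one_smul]
    ring

lemma th_prod {V : Type*} (s : Finset V) {f T : V → ℂ⟦X⟧} (h : ∀ v, th (f v) = T v * f v) :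
    th (∏ v ∈ s, f v) = (∑ v ∈ s, T v) * ∏ v ∈ s, f v := by
  classical
  induction s using Finset.induction_on with
  | empty => simp [th_one]
  | insert v s hv ih =>
    rw [Finset.prod_insert hv, Finset.sum_insert hv, th_mul, ih, h]
    ring

lemma mul_rel {V : Type*} [Fintype V] {y T : V → ℂ⟦X⟧} (h : ∀ v, th (y v) = T v * y v)
    (h0 : ∀ v, constantCoeff (y v) = 1) (ρ : V → ℤ) (hρ : ∑ v, (ρ v : ℂ) • T v = 0) :
    ∏ v, y v ^ (ρ v).toNat = ∏ v, y v ^ (-ρ v).toNat := by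
  have e1 := th_prod Finset.univ (fun v => th_pow (h v) (ρ v).toNat)
  have e2 := th_prod Finset.univ (fun v => th_pow (h v) (-ρ v).toNat)
  have e : ∑ v, (((ρ v).toNat : ℕ) : ℂ) • T v = ∑ v, (((-ρ v).toNat : ℕ) : ℂ) • T v := by
    rw [← sub_eq_zero, ← Finset.sum_sub_distrib, ← hρ]
    refine Finset.sum_congr rfl fun v _ => ?_
    rw [← sub_smul]
    congr 1
    have := Int.toNat_sub_toNat_neg (ρ v)
    exact_mod_cast this
  rw [e] at e1
  exact ode_unique e1 e2 (by simp [map_prod, h0]) (by simp [map_prod, h0])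

lemma Gc_mul (d j : ℕ) (x w : ℂ) (N : ℕ) : Gc d j (x * w) N = x ^ N * Gc d j w N := by
  unfold Gc
  split_ifs
  · rw [mul_pow]; ring
  · simp

lemma dft {a : ℕ} {ξ : ℂ} (hξ : IsPrimitiveRoot ξ a) (g g' : Fin a) :
    ∑ s ∈ range a, ((ξ ^ (g' : ℕ))⁻¹) ^ s * (ξ ^ (g : ℕ)) ^ s = if g = g' then (a : ℂ) else 0 := by
  have ha : a ≠ 0 := by have := g.2; omega
  have h0 : ξ ≠ 0 := hξ.ne_zero ha
  simp_rw [← mul_pow]
  split_ifs with h
  · subst h
    simp [h0]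
  · have hx : (ξ ^ (g' : ℕ))⁻¹ * ξ ^ (g : ℕ) ≠ 1 := by
      intro hx
      have : ξ ^ (g : ℕ) = ξ ^ (g' : ℕ) := by
        field_simp at hx
        exact hx
      exact h (Fin.ext (hξ.pow_inj g.2 g'.2 this))
    have hp : ((ξ ^ (g' : ℕ))⁻¹ * ξ ^ (g : ℕ)) ^ a = 1 := by
      rw [mul_pow, inv_pow, ← pow_mul, ← pow_mul, mul_comm _ a, mul_comm _ a, pow_mul, pow_mul,
        hξ.pow_eq_one]
      simp
    rw [geom_sum_eq hx, hp]
    simp

/-- Every family of vectors of `W` is realised by a linear functional. -/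
lemma realise {Xt : Type} {a : ℕ} {ξ : ℂ} (hξ : IsPrimitiveRoot ξ a) (ha : 1 ≤ a) (d : ℕ)
    (j : Xt → ℕ) (z : Xt → ℂ) (W : Submodule ℂ (Xt → ℂ))
    (hW : ∀ s : ℕ, W ≤ Submodule.span ℂ
      {w | ∃ N : ℕ, N ≡ s [MOD a] ∧ w = fun v => Gc d (j v) (z v) N})
    (θ : Fin a → Xt → ℂ) (hθ : ∀ g, θ g ∈ W) :
    ∃ φ : ℂ⟦X⟧ →ₗ[ℂ] ℂ, ∀ (g : Fin a) v, φ (Tv d (j v) (ξ ^ (g : ℕ) * z v)) = θ g v := by
  have h1 : ∀ s : ℕ, ∀ w ∈ W, ∃ φ : ℂ⟦X⟧ →ₗ[ℂ] ℂ, ∀ (g : Fin a) v,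
      φ (Tv d (j v) (ξ ^ (g : ℕ) * z v)) = (ξ ^ (g : ℕ)) ^ s * w v := by
    intro s w hw
    have hw' := hW s hw
    clear hw
    induction hw' using Submodule.span_induction with
    | mem w hw =>
      obtain ⟨N, hN, rfl⟩ := hw
      refine ⟨coeff N, fun g v => ?_⟩
      have : (ξ ^ (g : ℕ)) ^ N = (ξ ^ (g : ℕ)) ^ s := by
        have hx : (ξ ^ (g : ℕ)) ^ a = 1 := by
          rw [← pow_mul, mul_comm, pow_mul, hξ.pow_eq_one, one_pow]
        rw [pow_eq_pow_mod N hx, pow_eq_pow_mod s hx, hN]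
      simp [Tv, Gc_mul, this]
    | zero => exact ⟨0, by simp⟩
    | add w w' _ _ ih ih' =>
      obtain ⟨φ, h⟩ := ih
      obtain ⟨φ', h'⟩ := ih'
      exact ⟨φ + φ', fun g v => by simp [h, h', mul_add]⟩
    | smul c w _ ih =>
      obtain ⟨φ, h⟩ := ih
      exact ⟨c • φ, fun g v => by simp [h]; ring⟩
  choose φ hφ using fun (g' : Fin a) (s : ℕ) => h1 s (θ g') (hθ g')
  refine ⟨∑ g' : Fin a, ∑ s ∈ range a, ((a : ℂ)⁻¹ * ((ξ ^ (g' : ℕ))⁻¹) ^ s) • φ g' s,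
    fun g v => ?_⟩
  have ha' : (a : ℂ) ≠ 0 := by exact_mod_cast (by omega : a ≠ 0)
  simp only [LinearMap.coe_sum, Finset.sum_apply, LinearMap.smul_apply, hφ, smul_eq_mul]
  have : ∀ g' : Fin a, ∑ s ∈ range a, (a : ℂ)⁻¹ * ((ξ ^ (g' : ℕ))⁻¹) ^ s *
      ((ξ ^ (g : ℕ)) ^ s * θ g' v) = if g = g' then θ g' v else 0 := by
    intro g'
    have e : ∑ s ∈ range a, (a : ℂ)⁻¹ * ((ξ ^ (g' : ℕ))⁻¹) ^ s * ((ξ ^ (g : ℕ)) ^ s * θ g' v) =
        (a : ℂ)⁻¹ * θ g' v * ∑ s ∈ range a, ((ξ ^ (g' : ℕ))⁻¹) ^ s * (ξ ^ (g : ℕ)) ^ s := by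
      rw [Finset.mul_sum]
      exact Finset.sum_congr rfl fun s _ => by ring
    rw [e, dft hξ]
    split_ifs
    · field_simp
    · simp
  simp only [this]
  simp

/-- The algebraic relation for one residue class. -/
lemma alg (hCC : S_CC) (hMem : S_Mem) (hSpan : S_Span) (hRel : S_Rel) (hAI : S_AI)
    (hMat : S_Mat) (hKah : S_Kah) (hYv : S_Yv) (hLin : S_Lin) (d a b : ℕ) (hd : 2 ≤ d)
    (ha : 1 ≤ a) (B : Subring ℤ⟦X⟧)
    (hB : ∀ j M s : ℕ, 1 ≤ j → 1 ≤ M → Hs (pd d) a b j M s ∈ B) :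
    ∃ Q : Polynomial ℤ⟦X⟧, Q ≠ 0 ∧ (∀ i, Q.coeff i ∈ B) ∧ Q.eval (PP ℤ d) = 0 := by
  classical
  obtain ⟨l, hl, hp, θ, hθ, hinj⟩ := hCC a ha
  have hpr : ∀ p ∈ l, p.Prime := fun p h => (hp p h).1
  have hnd : ∀ p ∈ l, ¬ p ∣ a := fun p h => (hp p h).2
  obtain ⟨⟨R, _, ρ0, hρ0⟩, hjW, hj1, hjc, hz, v0, hv0, hv0'⟩ := hRel d l hpr
  set ξ : ℂ := Complex.exp (2 * Real.pi * Complex.I / a) with hξdef
  have hξ : IsPrimitiveRoot ξ a := Complex.isPrimitiveRoot_exp a (by omega)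
  have hξ0 : ξ ≠ 0 := Complex.exp_ne_zero _
  have hprod : 1 ≤ l.prod := List.one_le_prod_of_one_le fun p h => (hpr p h).one_le
  have hM : 1 ≤ a * l.prod := Nat.mul_pos ha hprod
  have hξM : ∀ n : ℕ, (ξ ^ n) ^ (a * l.prod) = 1 := fun n => by
    rw [← pow_mul, show n * (a * l.prod) = a * (n * l.prod) by ring, pow_mul, hξ.pow_eq_one,
      one_pow]
  have hzM : ∀ v, zv l v ^ (a * l.prod) = 1 := fun v => by
    rw [mul_comm, pow_mul, hz, one_pow]
  let j : Fin a × Vx l → ℕ := fun x => jv d l x.2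
  let ω : Fin a × Vx l → ℂ := fun x => ξ ^ (x.1 : ℕ) * zv l x.2
  have hω : ∀ x, ω x ^ (a * l.prod) = 1 := fun x => by
    simp only [ω, mul_pow, hξM, hzM, one_mul]
  let y : Fin a × Vx l → ℂ⟦X⟧ := fun x => Yv d (j x) (ω x)
  let ρ : Fin a × R → Fin a × Vx l → ℤ := fun r x => if r.1 = x.1 then ρ0 r.2 x.2 else 0
  let κ : Vx l → Fin a × Vx l → ℂ := fun e x =>
    if x.2 = e then (ξ ^ (x.1 : ℕ)) ^ (jv d l e * ((a - 1) * b)) else 0
  have hy := fun x : Fin a × Vx l => hYv d (j x) (ω x) (by omega) (hj1 x.2)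
  -- the functional
  let β : Fin a → ℂ := fun g => Complex.log ((ξ ^ (g : ℕ)) ^ ((a - 1) * b))
  obtain ⟨φ, hφ⟩ := realise hξ ha d (jv d l) (zv l) (WW l)
    (fun s => hSpan d l hd hl hpr a s ha hnd)
    (fun g => θ g - β g • fun v => (jv d l v : ℂ))
    (fun g => (WW l).sub_mem (hθ g) ((WW l).smul_mem _ hjW))
  have hND : NonDeg y ρ κ := by
    refine hMat _ _ _ y (fun x => Complex.exp (φ (Tv d (j x) (ω x)))) ρ κ
      (hAI d hd _ j ω (a * l.prod) (fun x => hj1 x.2) hM hω φ) ?_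
    intro δ h1 h2
    have hu : (fun (g : Fin a) (v : Vx l) => δ (g, v)) = 0 := by
      refine hinj _ (fun g => (hρ0 _).2 fun r => ?_) fun e => ?_
      · have := h1 (g, r)
        rw [Fintype.sum_prod_type, Finset.sum_eq_single g] at this
        · simpa [ρ] using this
        · intro g' _ hg'
          simp [ρ, hg'.symm]
        · simp
      · have := h2 e
        rw [Fintype.sum_prod_type] at this
        rw [← this]
        refine Finset.sum_congr rfl fun g _ => ?_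
        rw [Finset.sum_eq_single e]
        · have hb : (ξ ^ (g : ℕ)) ^ (jv d l e * ((a - 1) * b)) =
              Complex.exp (β g * (jv d l e : ℂ)) := by
            rw [mul_comm (β g), Complex.exp_nat_mul, Complex.exp_log (by positivity),
              ← pow_mul, ← pow_mul, ← pow_mul]
            congr 1
            ring
          simp only [κ, j, ω, if_true, hφ, hb, ← Complex.exp_add, Pi.sub_apply, Pi.smul_apply,
            smul_eq_mul]
          congr 2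
          ring
        · intro v _ hv
          simp [κ, hv]
        · simp
    funext x
    exact congrFun (congrFun hu x.1) x.2
  refine hKah B (PP ℤ d) _ _ _ y ρ κ (a * l.prod) hM ⟨(⟨0, ha⟩, v0), ?_⟩ (fun x => ?_)
    (fun r => ?_) (fun e x => ?_) (fun e => ?_) hND
  · ext n
    simp [y, j, ω, Yv, PP, hv0, hv0']
  · intro h0
    have := (hy x).2.1
    rw [show Yv d (j x) (ω x) = y x from rfl, h0] at this
    simp at this
  · refine mul_rel (fun x => (hy x).1) (fun x => (hy x).2.1) _ ?_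
    ext N
    have := (hρ0 _).1 (hMem d l (by omega) hl hpr N) r.2
    rw [map_sum, Fintype.sum_prod_type, Finset.sum_eq_single r.1]
    · simp only [ρ, if_true, map_smul, Tv, coeff_mk, j, ω, Gc_mul, smul_eq_mul, map_zero]
      rw [← mul_zero ((ξ ^ (r.1 : ℕ)) ^ N), ← this, Finset.mul_sum]
      exact Finset.sum_congr rfl fun v _ => by ring
    · intro g _ hg
      simp [ρ, hg.symm]
    · simp
  · simp only [κ]
    split_ifs
    · right
      rw [← pow_mul ξ]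
      exact hξM _
    · left; rfl
  · refine ⟨zv l e, fun s => (a : ℤ⟦X⟧) * Hs (pd d) a b (jv d l e) (a * l.prod) s, hzM e,
      fun s => B.mul_mem (natCast_mem B a) (hB _ _ _ (hj1 e) hM), ?_⟩
    rw [← hLin d a b (jv d l e) (a * l.prod) ξ (zv l e) ha (hj1 e) hM (hjc a hnd e) hξ (hzM e),
      Fintype.sum_prod_type]
    refine Finset.sum_congr rfl fun g _ => ?_
    rw [Finset.sum_eq_single e]
    · simp [κ, y, j, ω]
    · intro v _ hv
      simp [κ, hv]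
    · simp

end PAsm

theorem s_main (hTr : S_Tr) (hRed : S_Red) (hPer : S_Per) (hCC : S_CC) (hMem : S_Mem)
    (hSpan : S_Span) (hRel : S_Rel) (hAI : S_AI) (hMat : S_Mat) (hKah : S_Kah) (hYv : S_Yv)
    (hLin : S_Lin) : S_Main := by
  intro d a hd ha
  have key : ∀ b0 : ℕ, ∃ g : ℕ, 1 ≤ g ∧ ∀ m b h : ℕ, b % a = b0 % a → 1 ≤ h →
      (∀ n, pd d (a * (n + h) + b) ≡ pd d (a * n + b) [MOD m]) → m ∣ g := by
    intro b0
    let H : ℕ → Prop := fun m => ∃ b h : ℕ, b % a = b0 % a ∧ 1 ≤ h ∧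
      ∀ n, pd d (a * (n + h) + b) ≡ pd d (a * n + b) [MOD m]
    let B : Subring ℤ⟦X⟧ := ⨅ m : {m // H m}, RatRing m.1
    have hB : ∀ j M s : ℕ, 1 ≤ j → 1 ≤ M → Hs (pd d) a b0 j M s ∈ B := by
      intro j M s hj hM
      refine Subring.mem_iInf.2 fun m => ?_
      obtain ⟨b, h, hb, hh, hc⟩ := m.2
      have := hPer (pd d) a b m h j M s ha hh hj hM hc
      have e : Hs (pd d) a b j M s = Hs (pd d) a b0 j M s := by simp only [Hs, hb]
      rw [e] at this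
      exact this
    obtain ⟨Q, hQ0, hQB, hQ⟩ :=
      PAsm.alg hCC hMem hSpan hRel hAI hMat hKah hYv hLin d a b0 hd ha B hB
    obtain ⟨i, hi⟩ : ∃ i, Q.coeff i ≠ 0 := by
      by_contra h
      push Not at h
      exact hQ0 (Polynomial.ext h)
    obtain ⟨n, hn⟩ : ∃ n, coeff n (Q.coeff i) ≠ 0 := by
      by_contra h
      push Not at h
      exact hi (PowerSeries.ext h)
    refine ⟨(coeff n (Q.coeff i)).natAbs, Int.natAbs_pos.2 hn, fun m b h hb hh hc => ?_⟩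
    have hT : ∀ l : ℕ, l.Prime → ¬ IsAlgebraic (Polynomial (ZMod l))
        (PowerSeries.map (Int.castRingHom (ZMod l)) (PP ℤ d)) := by
      intro l hl
      have e : PowerSeries.map (Int.castRingHom (ZMod l)) (PP ℤ d) = PP (ZMod l) d := by
        ext k
        simp [PP]
      rw [e]
      exact hTr d l hd hl
    have := hRed (PP ℤ d) hT Q hQ i n hn m fun i' =>
      Subring.mem_iInf.1 (hQB i') ⟨m, b, h, hb, hh, hc⟩
    exact Int.natCast_dvd.1 this
  choose g hg1 hg using key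
  refine ⟨∏ b0 ∈ range a, g b0, Finset.one_le_prod' fun b0 _ => hg1 b0, fun m b h hh hc => ?_⟩
  exact (hg (b % a) m b h (by simp) hh hc).trans
    (Finset.dvd_prod_of_mem _ (Finset.mem_range.2 (Nat.mod_lt _ ha)))

end

end Pool.Agent.P.MP_85b516_nt
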