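import Pool.Agent.P.MP_85b516_nt.Stmt

/-! Supply of primes and generic non-degeneracy. -/

open Finset Module

namespace Pool.Agent.P.MP_85b516_nt

namespace PCC

open scoped Classical in
theorem sum_range_le (q : ℕ → ℕ) (hq : ∀ i, 2 ^ i < q i) (u : Finset ℕ) :
    ∑ n ∈ u.filter (fun n => ∃ i, q i = n), 1 / (n : ℝ) ≤ 2 := by
  have h1 : u.filter (fun n => ∃ i, q i = n) ⊆ (range (u.sup id + 1)).image q := by
    intro n hn
    obtain ⟨hn, i, rfl⟩ := mem_filter.1 hn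
    refine mem_image.2 ⟨i, mem_range.2 ?_, rfl⟩
    have h2 : q i ≤ u.sup id := le_sup (f := id) hn
    have h3 := hq i
    have h4 : i < 2 ^ i := Nat.lt_two_pow_self
    omega
  calc _ ≤ ∑ n ∈ (range (u.sup id + 1)).image q, 1 / (n : ℝ) :=
        sum_le_sum_of_subset_of_nonneg h1 fun _ _ _ => by positivity
    _ ≤ ∑ i ∈ range (u.sup id + 1), 1 / (q i : ℝ) :=
        sum_image_le_of_nonneg fun _ _ => by positivity
    _ ≤ ∑ i ∈ range (u.sup id + 1), (1 / (2 : ℝ)) ^ i := by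
        refine sum_le_sum fun i _ => ?_
        rw [one_div_pow]
        refine one_div_le_one_div_of_le (by positivity) ?_
        exact_mod_cast (hq i).le
    _ ≤ 2 := sum_geometric_two_le _

theorem star_of {Z : Type} [Fintype Z] {c : Z → ℂ} (h0 : ∀ x, c x ≠ 0) (h1 : ∑ x, c x = 0)
    (h2 : ∀ z, ∃ (y : Z) (m k : ℕ), y ≠ z ∧ 0 < m ∧ (k : ℂ) * c y = m * c z) : Star c := by
  classical
  refine ⟨h0, h1, fun z => ?_⟩
  obtain ⟨y, m, k, hy, hm, e⟩ := h2 z
  refine ⟨fun x => if x = z then 0 else if x = y then m + k else m, by simp, fun x hx => ?_, ?_⟩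
  · simp only [if_neg hx]
    split_ifs <;> omega
  · have : ∀ x, c x * ((if x = z then 0 else if x = y then m + k else m : ℕ) : ℂ) =
        m * c x - (if x = z then m * c x else 0) + if x = y then k * c x else 0 := fun x => by
      by_cases hz : x = z
      · have : x ≠ y := fun h => hy (h ▸ hz)
        simp [hz, hy.symm]
      · by_cases hx : x = y
        · subst hx
          simp only [if_neg hz, if_true]
          push_cast
          ring
        · simp only [if_neg hz, if_neg hx]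
          ring
    simp only [this, sum_add_distrib, sum_sub_distrib, ← mul_sum, h1, sum_ite_eq', mem_univ,
      if_true, e]
    ring

theorem sum_cz (p : ℕ) : ∑ x, cz p x = 0 := by
  simp [cz, czI, Fintype.sum_sum_type, Fin.sum_univ_three]

theorem star_cz {p : ℕ} (hp : 0 < p) : Star (cz p) := by
  refine star_of ?_ (sum_cz p) ?_
  · rintro (x | x)
    · simp [cz, czI]
    · fin_cases x <;> simp [cz, czI, hp.ne']
  · rintro (x | x)
    · exact ⟨Sum.inr 2, 1, 1, by simp, one_pos, by simp [cz, czI]⟩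
    · fin_cases x
      · exact ⟨Sum.inr 1, p, 1, by simp, hp, by simp [cz, czI]⟩
      · exact ⟨Sum.inr 0, 1, p, by simp, one_pos, by simp [cz, czI]⟩
      · exact ⟨Sum.inl ⟨0, hp⟩, 1, 1, by simp, one_pos, by simp [cz, czI]⟩

theorem one_mem : ∀ l : List ℕ, (fun _ => (1 : ℂ)) ∈ WW l
  | [] => Submodule.mem_top
  | p :: l => mem_ext.2 ⟨fun _ => one_mem l, fun _ => by simpa using sum_cz p⟩

theorem card_cons (p : ℕ) (l : List ℕ) : Nat.card (Vx (p :: l)) = (p + 3) * Nat.card (Vx l) := by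
  have : Nat.card (Vx (p :: l)) = Nat.card (Zp p × Vx l) := rfl
  rw [this, Nat.card_prod]
  simp

theorem step (h : S_Ext) {p : ℕ} (hp : 0 < p) {l : List ℕ} {b : ℕ} {lam : ℝ} (h0 : 0 ≤ lam)
    (hg : Good (WW l) b lam) :
    Good (WW (p :: l)) b (lam * (1 - 1 / ((p : ℝ) + 3))) ∧
      Good (WW (p :: l)) b (((p : ℝ) + 3) * lam ^ 2) := by
  have := h (Vx l) (Zp p) (WW l) (cz p) b lam h0 (one_mem l) (star_cz hp) ⟨Sum.inr 0⟩ hg
  have e : (Fintype.card (Zp p) : ℝ) = p + 3 := by simp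
  rw [e] at this
  exact this

theorem good_one {X : Type} [Finite X] {W : Submodule ℂ (X → ℂ)} {b : ℕ} (h : Perf W b) :
    Good W b 1 := by
  obtain ⟨θ, h1, h2⟩ := h
  intro ι _ S p _ hp
  refine ⟨θ, h1, h2, ?_⟩
  rw [one_mul]
  refine sum_le_sum fun i _ => mul_le_mul_of_nonneg_left ?_ (hp i)
  exact_mod_cast Submodule.finrank_mono inf_le_left

theorem perf_succ {X : Type} [Finite X] {W : Submodule ℂ (X → ℂ)} {b : ℕ} {lam : ℝ}
    (h0 : 0 ≤ lam) (h : Good W b lam) (hc : lam * Nat.card X < 1) : Perf W (b + 1) := by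
  obtain ⟨θ, h1, h2, h3⟩ := h Unit (fun _ => W) (fun _ => 1) (fun _ => le_rfl) fun _ => zero_le_one
  simp only [univ_unique, sum_singleton, one_mul] at h3
  have := Fintype.ofFinite X
  have h4 : finrank ℂ W ≤ Nat.card X := by
    rw [Nat.card_eq_fintype_card, ← finrank_fintype_fun_eq_card ℂ]
    exact Submodule.finrank_le W
  have h5 : (finrank ℂ ↥(W ⊓ Rng W θ) : ℝ) < 1 :=
    (h3.trans (mul_le_mul_of_nonneg_left (by exact_mod_cast h4) h0)).trans_lt hc
  have h6 : W ⊓ Rng W θ = ⊥ := Submodule.finrank_eq_zero.1 (by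
    have : finrank ℂ ↥(W ⊓ Rng W θ) < 1 := by exact_mod_cast h5
    omega)
  refine ⟨Fin.cons 0 θ, fun g => Fin.cases W.zero_mem (fun g => h1 g) g, fun u hu e => ?_⟩
  simp only [Fin.sum_univ_succ, Fin.cons_zero, Fin.cons_succ, Pi.zero_apply, Complex.exp_zero,
    one_mul] at e
  have h7 : u 0 = 0 := by
    have : -u 0 ∈ W ⊓ Rng W θ := ⟨W.neg_mem (hu 0), mem_Rng.2 ⟨fun g => u g.succ,
      fun g => hu _, fun v => by rw [Pi.neg_apply]; linear_combination -e v⟩⟩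
    rw [h6] at this
    exact neg_eq_zero.1 this
  have h8 := h2 (fun g => u g.succ) (fun g => hu _) fun v => by simpa [h7] using e v
  funext g
  exact Fin.cases h7 (fun g => congrFun h8 g) g

/-- admissible lists -/
def Ok (a : ℕ) (l : List ℕ) : Prop := l.Nodup ∧ ∀ p ∈ l, p.Prime ∧ ¬ p ∣ a

theorem phase1 (h : S_Ext) {a b : ℕ} {l : List ℕ} (hl : Ok a l) (hg : Good (WW l) b 1)
    (G : Finset ℕ) (hG : ∀ p ∈ G, p.Prime ∧ ¬ p ∣ a ∧ p ∉ l) :
    ∃ (l' : List ℕ) (lam : ℝ), Ok a l' ∧ (∀ p ∈ l', p ∈ l ∨ p ∈ G) ∧ 0 ≤ lam ∧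
      Good (WW l') b lam ∧ lam * (1 + ∑ p ∈ G, 1 / ((p : ℝ) + 3)) ≤ 1 := by
  induction G using Finset.induction_on with
  | empty => exact ⟨l, 1, hl, fun p hp => Or.inl hp, zero_le_one, hg, by simp⟩
  | insert p G hp ih =>
    obtain ⟨l', lam, h1, h2, h3, h4, h5⟩ := ih fun r hr => hG r (mem_insert_of_mem hr)
    obtain ⟨g1, g2, g3⟩ := hG p (mem_insert_self _ _)
    have x0 : (0 : ℝ) ≤ 1 / ((p : ℝ) + 3) := by positivity
    have x1 : 1 / ((p : ℝ) + 3) ≤ 1 := by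
      rw [div_le_one (by positivity)]
      linarith [(Nat.cast_nonneg p : (0 : ℝ) ≤ p)]
    have s0 : (0 : ℝ) ≤ ∑ r ∈ G, 1 / ((r : ℝ) + 3) := sum_nonneg fun _ _ => by positivity
    refine ⟨p :: l', _, ⟨List.nodup_cons.2 ⟨fun hm => (h2 p hm).elim g3 hp, h1.1⟩, ?_⟩, ?_,
      mul_nonneg h3 (sub_nonneg.2 x1), (step h g1.pos h3 h4).1, ?_⟩
    · intro r hr
      rcases List.mem_cons.1 hr with rfl | hr
      · exact ⟨g1, g2⟩
      · exact h1.2 r hr
    · intro r hr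
      rcases List.mem_cons.1 hr with rfl | hr
      · exact Or.inr (mem_insert_self _ _)
      · exact (h2 r hr).imp id mem_insert_of_mem
    · rw [sum_insert hp]
      generalize 1 / ((p : ℝ) + 3) = x at *
      generalize ∑ r ∈ G, 1 / ((r : ℝ) + 3) = s at *
      nlinarith [mul_nonneg h3 (mul_nonneg x0 s0), mul_nonneg h3 (mul_nonneg x0 x0)]

theorem phase2 (h : S_Ext) {q : ℕ → ℕ} (hq : ∀ i, (q i).Prime ∧ 2 ^ i < q i ∧ q i ≤ 2 ^ (i + 1))
    {a b i0 : ℕ} (ha : 1 ≤ a) (hi : a ≤ 2 ^ i0) (c : ℝ) (j : ℕ) :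
    (∃ (l : List ℕ) (lam : ℝ), Ok a l ∧ (∀ p ∈ l, ∀ i, i0 + 1 + j ≤ i → q i ≠ p) ∧ 0 ≤ lam ∧
      Good (WW l) b lam ∧ ((2 : ℝ) ^ (i0 + 1 + j + 2)) ^ 2 * lam ≤ 1 / 2 ∧
      lam * Nat.card (Vx l) ≤ c * (1 / 2) ^ j) →
    ∃ (l : List ℕ) (lam : ℝ), Ok a l ∧ (∀ p ∈ l, ∀ i, i0 + 1 + (j + 1) ≤ i → q i ≠ p) ∧ 0 ≤ lam ∧
      Good (WW l) b lam ∧ ((2 : ℝ) ^ (i0 + 1 + (j + 1) + 2)) ^ 2 * lam ≤ 1 / 2 ∧
      lam * Nat.card (Vx l) ≤ c * (1 / 2) ^ (j + 1) := by
  rintro ⟨l, lam, h1, h2, h3, h4, h5, h6⟩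
  obtain ⟨g1, g2, g3⟩ := hq (i0 + 1 + j)
  set p := q (i0 + 1 + j) with hp
  have k1 : 2 ^ i0 ≤ 2 ^ (i0 + 1 + j) := Nat.pow_le_pow_right two_pos (by omega)
  have k2 : 2 ^ 2 ≤ 2 ^ (i0 + 1 + j + 1) := Nat.pow_le_pow_right two_pos (by omega)
  have k3 : p + 3 ≤ 2 ^ (i0 + 1 + j + 2) := by
    rw [pow_succ 2 (i0 + 1 + j + 1)]
    omega
  have k4 : (p : ℝ) + 3 ≤ 2 ^ (i0 + 1 + j + 2) := by exact_mod_cast k3
  have k5 : (2 : ℝ) ^ (i0 + 1 + (j + 1) + 2) = 2 * 2 ^ (i0 + 1 + j + 2) := by ring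
  have p0 : (0 : ℝ) ≤ p := Nat.cast_nonneg p
  refine ⟨p :: l, _, ⟨List.nodup_cons.2 ⟨fun hm => h2 p hm _ le_rfl rfl, h1.1⟩, ?_⟩, ?_,
    by positivity, (step h g1.pos h3 h4).2, ?_, ?_⟩
  · intro r hr
    rcases List.mem_cons.1 hr with rfl | hr
    · exact ⟨g1, fun hd => by have := Nat.le_of_dvd ha hd; omega⟩
    · exact h1.2 r hr
  · intro r hr i hi'
    rcases List.mem_cons.1 hr with rfl | hr
    · have : 2 ^ (i0 + 1 + j + 1) ≤ 2 ^ i := Nat.pow_le_pow_right two_pos (by omega)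
      have := (hq i).2.1
      omega
    · exact h2 r hr i (by omega)
  · rw [k5]
    generalize (2 : ℝ) ^ (i0 + 1 + j + 2) = n at *
    have n3 : 3 ≤ n := by linarith
    have e1 : (2 * n) ^ 2 * ((p + 3) * lam ^ 2) ≤ 4 * (n ^ 2 * lam) * (n * lam) := by
      have : (2 * n) ^ 2 * ((p + 3) * lam ^ 2) = 4 * (n ^ 2 * lam) * ((p + 3) * lam) := by ring
      rw [this]
      gcongr
    have e2 : 3 * (n * lam) ≤ n ^ 2 * lam := by
      have : n ^ 2 * lam = n * (n * lam) := by ring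
      rw [this]
      gcongr
    have e3 : 0 ≤ n * lam := by positivity
    nlinarith
  · rw [card_cons]
    push_cast
    generalize (2 : ℝ) ^ (i0 + 1 + j + 2) = n at *
    have c0 : (0 : ℝ) ≤ lam * Nat.card (Vx l) := by positivity
    have e1 : ((p : ℝ) + 3) ^ 2 * lam ≤ 1 / 2 := le_trans (by gcongr) h5
    calc _ = (((p : ℝ) + 3) ^ 2 * lam) * (lam * Nat.card (Vx l)) := by ring
      _ ≤ 1 / 2 * (c * (1 / 2) ^ j) := by gcongr
      _ = _ := by ring

end PCC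

open PCC

theorem s_primes : S_Primes := by
  classical
  have h : ∀ i : ℕ, ∃ p, p.Prime ∧ 2 ^ i < p ∧ p ≤ 2 ^ (i + 1) := fun i => by
    obtain ⟨p, h1, h2, h3⟩ := Nat.exists_prime_lt_and_le_two_mul (2 ^ i) (by positivity)
    exact ⟨p, h1, h2, by rw [pow_succ]; omega⟩
  choose q hq using h
  refine ⟨q, hq, fun F C => ?_⟩
  by_contra hn
  push Not at hn
  refine not_summable_one_div_on_primes (summable_of_sum_le
    (c := 4 * C + ∑ n ∈ F, 1 / (n : ℝ) + 2) (fun n => Set.indicator_nonneg (fun _ _ => by positivity) n)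
    fun u => ?_)
  have h1 := hn (u.filter fun p => p.Prime ∧ p ∉ F ∧ ∀ i, q i ≠ p) fun p hp => (mem_filter.1 hp).2
  have h2 := sum_range_le q (fun i => (hq i).2.1) u
  have h3 : ∑ n ∈ u.filter (· ∈ F), 1 / (n : ℝ) ≤ ∑ n ∈ F, 1 / (n : ℝ) :=
    sum_le_sum_of_subset_of_nonneg (fun n hn => (mem_filter.1 hn).2) fun _ _ _ => by positivity
  rw [sum_filter] at h1 h2 h3
  refine le_trans ?_ (add_le_add (add_le_add (mul_le_mul_of_nonneg_left h1.le (by norm_num)) h3) h2)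
  rw [mul_sum, ← sum_add_distrib, ← sum_add_distrib]
  refine sum_le_sum fun n _ => ?_
  have n0 : (0 : ℝ) ≤ 1 / (n : ℝ) := by positivity
  have n1 : (0 : ℝ) ≤ 1 / ((n : ℝ) + 3) := by positivity
  by_cases hp : n.Prime
  · rw [Set.indicator_of_mem (by exact hp)]
    have n2 : 1 / (n : ℝ) ≤ 4 * (1 / ((n : ℝ) + 3)) := by
      have : (1 : ℝ) ≤ n := by exact_mod_cast hp.pos
      rw [mul_one_div, div_le_div_iff₀ (by positivity) (by positivity)]
      linarith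
    by_cases hF : n ∈ F
    · rw [if_pos hF]
      split_ifs <;> linarith
    · by_cases hr : ∃ i, q i = n
      · rw [if_pos hr]
        split_ifs <;> linarith
      · rw [if_pos ⟨hp, hF, fun i hi => hr ⟨i, hi⟩⟩, if_neg hF, if_neg hr]
        linarith
  · rw [Set.indicator_of_notMem (by exact hp)]
    split_ifs <;> linarith

theorem s_cc (h : S_Ext) (hp : S_Primes) : S_CC := by
  classical
  intro a ha
  obtain ⟨q, hq, hG⟩ := hp
  have main : ∀ b, ∃ l, Ok a l ∧ Perf (WW l) b := by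
    intro b
    induction b with
    | zero =>
      exact ⟨[], ⟨List.nodup_nil, by simp⟩, Fin.elim0, fun g => g.elim0,
        fun u _ _ => funext fun g => g.elim0⟩
    | succ b ih =>
      obtain ⟨l, hl, hb⟩ := ih
      set i0 := a + l.sum with hi0
      have k0 : i0 < 2 ^ i0 := Nat.lt_two_pow_self
      obtain ⟨G, g1, g2⟩ := hG (l.toFinset ∪ a.primeFactors) (2 * ((2 : ℝ) ^ (i0 + 1 + 0 + 2)) ^ 2)
      obtain ⟨l1, lam, h1, h2, h3, h4, h5⟩ := phase1 h hl (good_one hb) G fun p hp => by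
        obtain ⟨e1, e2, -⟩ := g1 p hp
        refine ⟨e1, fun hd => e2 ?_, fun hm => e2 ?_⟩
        · exact mem_union_right _ (Nat.mem_primeFactors.2 ⟨e1, hd, by omega⟩)
        · exact mem_union_left _ (List.mem_toFinset.2 hm)
      have all : ∀ j : ℕ, ∃ (l : List ℕ) (lam' : ℝ), Ok a l ∧
          (∀ p ∈ l, ∀ i, i0 + 1 + j ≤ i → q i ≠ p) ∧ 0 ≤ lam' ∧ Good (WW l) b lam' ∧
          ((2 : ℝ) ^ (i0 + 1 + j + 2)) ^ 2 * lam' ≤ 1 / 2 ∧
          lam' * Nat.card (Vx l) ≤ (lam * Nat.card (Vx l1)) * (1 / 2) ^ j := by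
        intro j
        induction j with
        | zero =>
          refine ⟨l1, lam, h1, fun p hp i hi => ?_, h3, h4, ?_, by simp⟩
          · rcases h2 p hp with hp | hp
            · have e1 : p ≤ l.sum := List.le_sum_of_mem hp
              have e2 : 2 ^ i0 ≤ 2 ^ i := Nat.pow_le_pow_right two_pos (by omega)
              have := (hq i).2.1
              omega
            · exact (g1 p hp).2.2 i
          · nlinarith [mul_le_mul_of_nonneg_left g2 h3]
        | succ j ih => exact phase2 h hq ha (by omega) _ j ih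
      have lim := (tendsto_pow_atTop_nhds_zero_of_lt_one (r := (1 / 2 : ℝ)) (by norm_num)
        (by norm_num)).const_mul (lam * Nat.card (Vx l1))
      rw [mul_zero] at lim
      obtain ⟨j, hj⟩ := (lim.eventually (gt_mem_nhds one_pos)).exists
      obtain ⟨l2, lam2, e1, -, e3, e4, -, e6⟩ := all j
      exact ⟨l2, e1, perf_succ e3 e4 (e6.trans_lt hj)⟩
  obtain ⟨l, hl, hb⟩ := main a
  exact ⟨l, hl.1, hl.2, hb⟩

end Pool.Agent.P.MP_85b516_nt
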