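import Pool.Agent.P.MP_85b516_nt.Stmt

open PowerSeries Finset

namespace Pool.Agent.P.MP_85b516_nt

namespace PCHR

noncomputable section

variable {l : ℕ}

/-- Cartier operator. -/
def La (l r : ℕ) (h : (ZMod l)⟦X⟧) : (ZMod l)⟦X⟧ := PowerSeries.mk fun n => coeff (l * n + r) h

/-- Vanishing of the coefficients above `A`. -/
def Dg (A : ℕ) (h : (ZMod l)⟦X⟧) : Prop := ∀ n, A < n → coeff n h = 0

theorem coeff_La (r n : ℕ) (h : (ZMod l)⟦X⟧) : coeff n (La l r h) = coeff (l * n + r) h := by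
  simp [La]

theorem La_sum (r : ℕ) (s : Finset ℕ) (g : ℕ → (ZMod l)⟦X⟧) :
    La l r (∑ i ∈ s, g i) = ∑ i ∈ s, La l r (g i) := by
  ext n
  simp [coeff_La, map_sum]

theorem La_zero (r : ℕ) : La l r (0 : (ZMod l)⟦X⟧) = 0 := by
  ext n
  simp [coeff_La]

theorem coeff_pow_l (hl : l.Prime) (g : (ZMod l)⟦X⟧) (n : ℕ) :
    coeff n (g ^ l) = if l ∣ n then coeff (n / l) g else 0 := by
  have := Fact.mk hl
  have h1 : MvPowerSeries.map (frobenius (ZMod l) l) (MvPowerSeries.expand l hl.ne_zero g) =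
      g ^ l := MvPowerSeries.map_frobenius_expand l hl.ne_zero
  have h2 : g ^ l = PowerSeries.expand l hl.ne_zero g := by
    rw [← h1, ZMod.frobenius_zmod, MvPowerSeries.map_id]
    rfl
  rw [h2, PowerSeries.coeff_expand]

theorem La_mul_pow (hl : l.Prime) {r : ℕ} (hr : r < l) (a g : (ZMod l)⟦X⟧) :
    La l r (a * g ^ l) = La l r a * g := by
  ext n
  rw [coeff_La, coeff_mul, coeff_mul]
  symm
  have hl0 : 0 < l := hl.pos
  refine Finset.sum_of_injOn (fun p : ℕ × ℕ => (l * p.1 + r, l * p.2)) ?_ ?_ ?_ ?_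
  · intro p _ q _ h
    simp only [Prod.mk.injEq] at h
    have h1 : l * p.1 = l * q.1 := by omega
    exact Prod.ext (Nat.eq_of_mul_eq_mul_left hl0 h1) (Nat.eq_of_mul_eq_mul_left hl0 h.2)
  · intro p hp
    simp only [mem_coe, HasAntidiagonal.mem_antidiagonal] at hp ⊢
    rw [← hp]
    ring
  · intro q hq hq'
    rw [coeff_pow_l hl]
    split_ifs with hd
    · exfalso
      apply hq'
      obtain ⟨j, hj⟩ := hd
      rw [HasAntidiagonal.mem_antidiagonal] at hq
      have hjn : j ≤ n := by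
        by_contra hc
        have : l * (n + 1) ≤ l * j := Nat.mul_le_mul_left l (by omega)
        nlinarith
      obtain ⟨k, rfl⟩ := Nat.exists_eq_add_of_le hjn
      refine ⟨(k, j), by simp [add_comm], ?_⟩
      refine Prod.ext ?_ hj.symm
      simp only
      have : l * (j + k) = l * j + l * k := by ring
      omega
    · simp
  · intro p _
    rw [coeff_La, coeff_pow_l hl, if_pos (dvd_mul_right _ _), Nat.mul_div_cancel_left _ hl0]

theorem Dg.mono {A B : ℕ} {h : (ZMod l)⟦X⟧} (hh : Dg A h) (hAB : A ≤ B) : Dg B h :=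
  fun n hn => hh n (by omega)

theorem Dg_zero (A : ℕ) : Dg A (0 : (ZMod l)⟦X⟧) := fun n _ => by simp

theorem Dg.add {A : ℕ} {g h : (ZMod l)⟦X⟧} (hg : Dg A g) (hh : Dg A h) : Dg A (g + h) :=
  fun n hn => by simp [hg n hn, hh n hn]

theorem Dg.neg {A : ℕ} {g : (ZMod l)⟦X⟧} (hg : Dg A g) : Dg A (-g) :=
  fun n hn => by simp [hg n hn]

theorem Dg.mul {A B : ℕ} {g h : (ZMod l)⟦X⟧} (hg : Dg A g) (hh : Dg B h) :
    Dg (A + B) (g * h) := by
  intro n hn
  rw [coeff_mul]
  refine Finset.sum_eq_zero fun p hp => ?_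
  rw [HasAntidiagonal.mem_antidiagonal] at hp
  by_cases h1 : A < p.1
  · rw [hg _ h1, zero_mul]
  · rw [hh p.2 (by omega), mul_zero]

theorem Dg.pow {A : ℕ} {g : (ZMod l)⟦X⟧} (hg : Dg A g) (k : ℕ) : Dg (k * A) (g ^ k) := by
  induction k with
  | zero =>
    intro n hn
    rw [pow_zero, coeff_one, if_neg (by omega)]
  | succ k ih =>
    rw [pow_succ, add_mul, one_mul]
    exact ih.mul hg

theorem Dg.La (hl : l.Prime) {A : ℕ} {g : (ZMod l)⟦X⟧} (hg : Dg (l * A) g) (r : ℕ) :
    Dg A (La l r g) := by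
  intro n hn
  rw [coeff_La]
  apply hg
  have : l * A < l * n := Nat.mul_lt_mul_of_pos_left hn hl.pos
  omega

theorem Dg.th {A : ℕ} {g : (ZMod l)⟦X⟧} (hg : Dg A g) : Dg A (th g) := by
  intro n hn
  simp [Pool.Agent.P.MP_85b516_nt.th, hg n hn]

theorem Dg_coe (p : Polynomial (ZMod l)) : Dg p.natDegree (p : (ZMod l)⟦X⟧) := by
  intro n hn
  rw [Polynomial.coeff_coe]
  exact Polynomial.coeff_eq_zero_of_natDegree_lt hn

theorem Dg.alg (hl : l.Prime) {A : ℕ} {g : (ZMod l)⟦X⟧} (hg : Dg A g) :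
    IsAlgebraic (Polynomial (ZMod l)) g := by
  have := Fact.mk hl
  have : g = algebraMap (Polynomial (ZMod l)) (ZMod l)⟦X⟧ (trunc (A + 1) g) := by
    ext n
    rw [PowerSeries.algebraMap_apply', Algebra.algebraMap_self, PowerSeries.map_id, id,
      Polynomial.coeff_coe, coeff_trunc]
    split_ifs with h
    · rfl
    · exact hg n (by omega)
  rw [this]
  exact isAlgebraic_algebraMap _

theorem Dg_finite (hl : l.Prime) (A : ℕ) : {g : (ZMod l)⟦X⟧ | Dg A g}.Finite := by
  have : NeZero l := ⟨hl.ne_zero⟩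
  refine Set.Finite.of_finite_image (f := fun g (i : Fin (A + 1)) => coeff (i : ℕ) g)
    (Set.toFinite _) ?_
  intro g hg h hh e
  ext n
  by_cases hn : A < n
  · rw [hg n hn, hh n hn]
  · exact congrFun e ⟨n, by omega⟩

theorem th_mul (g h : (ZMod l)⟦X⟧) : th (g * h) = th g * h + g * th h := by
  ext n
  simp only [th, coeff_mk, map_add, coeff_mul, Finset.mul_sum, ← Finset.sum_add_distrib]
  refine Finset.sum_congr rfl fun p hp => ?_
  rw [HasAntidiagonal.mem_antidiagonal] at hp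
  rw [← hp]
  push_cast
  ring

theorem th_sum (s : Finset ℕ) (g : ℕ → (ZMod l)⟦X⟧) :
    th (∑ i ∈ s, g i) = ∑ i ∈ s, th (g i) := by
  ext n
  simp [th, map_sum, Finset.mul_sum]

theorem th_pow (hl : l.Prime) (g : (ZMod l)⟦X⟧) : th (g ^ l) = 0 := by
  ext n
  simp only [th, coeff_mk, map_zero, coeff_pow_l hl]
  split_ifs with h
  · rw [(ZMod.natCast_eq_zero_iff n l).2 h, zero_mul]
  · simp

/-- A nontrivial additive relation. -/
theorem ore0 (hl : l.Prime) (f : (ZMod l)⟦X⟧) (hf : IsAlgebraic (Polynomial (ZMod l)) f) :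
    ∃ (n A : ℕ) (a : ℕ → (ZMod l)⟦X⟧), (∀ i, Dg A (a i)) ∧ (∃ i < n + 1, a i ≠ 0) ∧
      ∑ i ∈ range (n + 1), a i * f ^ l ^ i = 0 := by
  classical
  have := Fact.mk hl
  obtain ⟨y, hy, hi⟩ := hf.exists_integral_multiple
  have : Module.Finite (Polynomial (ZMod l)) (Algebra.adjoin (Polynomial (ZMod l)) {y • f}) :=
    Algebra.finite_adjoin_simple_of_isIntegral hi
  let z : Algebra.adjoin (Polynomial (ZMod l)) {y • f} := ⟨y • f, Algebra.self_mem_adjoin_singleton _ _⟩
  have hn := Module.Finite.not_linearIndependent_of_infinite (R := Polynomial (ZMod l))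
    (fun i : ℕ => z ^ l ^ i)
  rw [not_linearIndependent_iff] at hn
  obtain ⟨s, g, hs, i0, hi0, hg⟩ := hn
  have hs' : ∑ i ∈ s, ((g i * y ^ l ^ i : Polynomial (ZMod l)) : (ZMod l)⟦X⟧) * f ^ l ^ i = 0 := by
    have := congrArg (Subtype.val) hs
    simp only [AddSubmonoidClass.coe_finsetSum, SetLike.val_smul, SubmonoidClass.coe_pow,
      ZeroMemClass.coe_zero, z] at this
    rw [← this]
    refine Finset.sum_congr rfl fun i _ => ?_
    rw [Algebra.smul_def, Algebra.smul_def, PowerSeries.algebraMap_apply',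
      PowerSeries.algebraMap_apply', Algebra.algebraMap_self, PowerSeries.map_id, id, id,
      Polynomial.coe_mul, Polynomial.coe_pow, mul_pow, mul_assoc]
  refine ⟨s.sup id, s.sup fun i => (g i * y ^ l ^ i).natDegree,
    fun i => if i ∈ s then ((g i * y ^ l ^ i : Polynomial (ZMod l)) : (ZMod l)⟦X⟧) else 0,
    fun i => ?_, ⟨i0, Nat.lt_succ_of_le (Finset.le_sup (f := id) hi0), ?_⟩, ?_⟩
  · simp only
    split_ifs with h
    · exact (Dg_coe _).mono (Finset.le_sup (f := fun i => (g i * y ^ l ^ i).natDegree) h)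
    · exact Dg_zero _
  · simp only [if_pos hi0]
    rw [Ne, Polynomial.coe_eq_zero_iff]
    exact mul_ne_zero hg (pow_ne_zero _ hy)
  · refine Eq.trans ?_ hs'
    symm
    refine Finset.sum_subset_zero_on_sdiff ?_ ?_ ?_
    · intro i hi
      exact mem_range.2 (Nat.lt_succ_of_le (Finset.le_sup (f := id) hi))
    · intro i hi
      rw [mem_sdiff] at hi
      simp only [if_neg hi.2, zero_mul]
    · intro i hi
      simp only [if_pos hi]

theorem ore1 (hl : l.Prime) (f : (ZMod l)⟦X⟧) (A : ℕ) : ∀ (n : ℕ) (a : ℕ → (ZMod l)⟦X⟧),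
    (∀ i, Dg A (a i)) → (∃ i < n + 1, a i ≠ 0) → ∑ i ∈ range (n + 1), a i * f ^ l ^ i = 0 →
    ∃ (n : ℕ) (a : ℕ → (ZMod l)⟦X⟧), (∀ i, Dg A (a i)) ∧ a 0 ≠ 0 ∧
      ∑ i ∈ range (n + 1), a i * f ^ l ^ i = 0 := by
  intro n
  induction n with
  | zero =>
    rintro a ha ⟨i, hi, hai⟩ hs
    obtain rfl : i = 0 := by omega
    exact ⟨0, a, ha, hai, hs⟩
  | succ n ih =>
    rintro a ha ⟨i, hi, hai⟩ hs
    by_cases h0 : a 0 = 0
    · obtain ⟨j, rfl⟩ : ∃ j, i = j + 1 := by
        cases i with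
        | zero => exact absurd h0 hai
        | succ j => exact ⟨j, rfl⟩
      obtain ⟨k, hk⟩ : ∃ k, coeff k (a (j + 1)) ≠ 0 := by
        by_contra hc
        push Not at hc
        exact hai (PowerSeries.ext fun k => by simp [hc k])
      have hr : k % l < l := Nat.mod_lt _ hl.pos
      refine ih (fun i => La l (k % l) (a (i + 1))) (fun i => ?_) ⟨j, by omega, ?_⟩ ?_
      · exact ((ha (i + 1)).mono (Nat.le_mul_of_pos_left A hl.pos)).La hl _
      · intro hc
        apply hk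
        have := congrArg (coeff (k / l)) hc
        rwa [coeff_La, Nat.div_add_mod, map_zero] at this
      · rw [Finset.sum_range_succ', h0, zero_mul, add_zero] at hs
        have := congrArg (La l (k % l)) hs
        rw [La_sum, La_zero] at this
        rw [← this]
        refine Finset.sum_congr rfl fun i _ => ?_
        rw [pow_succ, pow_mul, La_mul_pow hl hr]
    · exact ⟨n + 1, a, ha, h0, hs⟩

/-- The finite set closed under the Cartier operators. -/
def VV (f a0 : (ZMod l)⟦X⟧) (n A : ℕ) : Set (ZMod l)⟦X⟧ :=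
  {h | ∃ c : ℕ → (ZMod l)⟦X⟧, (∀ i, Dg A (c i)) ∧ a0 * h = ∑ i ∈ range (n + 1), c i * f ^ l ^ i}

theorem VV_finite (hl : l.Prime) (f a0 : (ZMod l)⟦X⟧) (h0 : a0 ≠ 0) (n A : ℕ) :
    (VV f a0 n A).Finite := by
  have := Fact.mk hl
  have : Finite {g : (ZMod l)⟦X⟧ | Dg A g} := (Dg_finite hl A).to_subtype
  refine Set.Finite.of_finite_image (f := fun h => a0 * h) ?_
    (fun g _ h _ e => mul_left_cancel₀ h0 e)
  refine (Set.finite_range (fun c : Fin (n + 1) → {g : (ZMod l)⟦X⟧ | Dg A g} =>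
    ∑ i : Fin (n + 1), (c i).1 * f ^ l ^ (i : ℕ))).subset ?_
  rintro _ ⟨h, ⟨c, hc, e⟩, rfl⟩
  refine ⟨fun i => ⟨c i, hc i⟩, ?_⟩
  simp only
  rw [e, Finset.sum_range]

theorem VV_La (hl : l.Prime) (f : (ZMod l)⟦X⟧) (n A : ℕ) (a : ℕ → (ZMod l)⟦X⟧)
    (ha : ∀ i, Dg A (a i)) (hs : ∑ i ∈ range (n + 1), a i * f ^ l ^ i = 0) {r : ℕ} (hr : r < l)
    {h : (ZMod l)⟦X⟧} (hh : h ∈ VV f (a 0) n A) : La l r h ∈ VV f (a 0) n A := by
  obtain ⟨c, hc, e⟩ := hh
  obtain ⟨m, hm⟩ : ∃ m, l = m + 2 := ⟨l - 2, by have := hl.two_le; omega⟩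
  let u : ℕ → (ZMod l)⟦X⟧ := fun i => a 0 ^ m * (a 0 * c (i + 1) + -(c 0 * a (i + 1)))
  have hu : ∀ i, Dg (l * A) (u i) := fun i =>
    (((ha 0).pow m).mul (((ha 0).mul (hc (i + 1))).add ((hc 0).mul (ha (i + 1))).neg)).mono
      (by rw [hm]; nlinarith)
  refine ⟨fun i => if i < n then La l r (u i) else 0, fun i => ?_, ?_⟩
  · simp only
    split_ifs
    · exact (hu i).La hl r
    · exact Dg_zero _
  · rw [Finset.sum_range_succ'] at e hs
    have key : h * a 0 ^ l = ∑ i ∈ range n, u i * (f ^ l ^ i) ^ l := by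
      have e1 : ∑ i ∈ range n, u i * (f ^ l ^ i) ^ l =
          a 0 ^ m * (a 0 * ∑ i ∈ range n, c (i + 1) * f ^ l ^ (i + 1) -
            c 0 * ∑ i ∈ range n, a (i + 1) * f ^ l ^ (i + 1)) := by
        rw [Finset.mul_sum, Finset.mul_sum, ← Finset.sum_sub_distrib, Finset.mul_sum]
        refine Finset.sum_congr rfl fun i _ => ?_
        rw [← pow_mul, ← pow_succ]
        simp only [u]
        ring
      have e2 : a 0 ^ l = a 0 ^ m * (a 0 * a 0) := by
        rw [show a 0 ^ l = a 0 ^ (m + 2) from congrArg _ hm]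
        ring
      rw [e1, e2]
      linear_combination (a 0 ^ m * a 0) * e + (a 0 ^ m * c 0) * hs
    have := congrArg (La l r) key
    rw [La_mul_pow hl hr, La_sum] at this
    rw [mul_comm, this, Finset.sum_range_succ]
    simp only [lt_irrefl, if_false, zero_mul, add_zero]
    refine Finset.sum_congr rfl fun i hi => ?_
    rw [if_pos (mem_range.1 hi), La_mul_pow hl hr]

end

end PCHR

open PCHR in
theorem s_chr : S_Chr := by
  intro l hl f hf
  have := Fact.mk hl
  obtain ⟨n0, A, a0, ha0, hi0, hs0⟩ := ore0 hl f hf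
  obtain ⟨n, a, ha, h0, hs⟩ := ore1 hl f A n0 a0 ha0 hi0 hs0
  constructor
  · refine IsAlgebraic.of_mul (mem_nonZeroDivisors_of_ne_zero h0) ((ha 0).alg hl) ?_
    have h1 := congrArg th hs
    rw [th_sum, Finset.sum_range_succ'] at h1
    have h2 : th (0 : (ZMod l)⟦X⟧) = 0 := by
      ext k
      simp [th]
    have h3 : ∀ i, th (a (i + 1) * f ^ l ^ (i + 1)) = th (a (i + 1)) * f ^ l ^ (i + 1) := by
      intro i
      rw [th_mul, pow_succ, pow_mul, th_pow hl, mul_zero, add_zero]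
    simp only [h3, pow_zero, pow_one, th_mul, h2] at h1
    have h4 : a 0 * th f =
        -(∑ i ∈ range n, th (a (i + 1)) * f ^ l ^ (i + 1)) - th (a 0) * f := by
      linear_combination h1
    rw [h4]
    have hf' : f ∈ Subalgebra.algebraicClosure (Polynomial (ZMod l)) (ZMod l)⟦X⟧ := hf
    have ht : ∀ i, th (a i) ∈ Subalgebra.algebraicClosure (Polynomial (ZMod l)) (ZMod l)⟦X⟧ :=
      fun i => (ha i).th.alg hl
    exact (Subalgebra.sub_mem _ (Subalgebra.neg_mem _ (Subalgebra.sum_mem _ fun i _ =>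
      Subalgebra.mul_mem _ (ht _) (Subalgebra.pow_mem _ hf' _))) (Subalgebra.mul_mem _ (ht _) hf') :
      _ ∈ Subalgebra.algebraicClosure (Polynomial (ZMod l)) (ZMod l)⟦X⟧)
  · have hfV : f ∈ VV f (a 0) n A := by
      refine ⟨fun i => if i = 0 then a 0 else 0, fun i => ?_, ?_⟩
      · simp only
        split_ifs
        · exact ha 0
        · exact Dg_zero _
      · rw [Finset.sum_range_succ']
        simp
    let g : ℕ → (ZMod l)⟦X⟧ := fun e => PowerSeries.mk fun k => coeff (l ^ (e + 1) * k + 1) f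
    have hg : ∀ e, g e ∈ VV f (a 0) n A := by
      intro e
      induction e with
      | zero =>
        have : g 0 = La l 1 f := by
          ext k
          simp [g, coeff_La]
        rw [this]
        exact VV_La hl f n A a ha hs hl.one_lt hfV
      | succ e ih =>
        have : g (e + 1) = La l 0 (g e) := by
          ext k
          simp only [g, coeff_La, coeff_mk, add_zero]
          congr 2
          ring
        rw [this]
        exact VV_La hl f n A a ha hs hl.pos ih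
    obtain ⟨e, e', hlt, he⟩ := (VV_finite hl f (a 0) h0 n A).exists_lt_map_eq_of_forall_mem hg
    refine ⟨e + 1, e' + 1, by omega, by omega, fun k => ?_⟩
    have := congrArg (coeff k) he
    simpa [g] using this

end Pool.Agent.P.MP_85b516_nt
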