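import Mathlib

/-! Definitions and package statements for Theorem FM (MP_85b516_nt). -/

open PowerSeries Finset Module

namespace Pool.Agent.P.MP_85b516_nt

noncomputable section

/-- `pd d n` is the number of partitions of `n` into `d`-th powers of positive integers. -/
def pd (d n : ℕ) : ℕ :=
  Nat.card {π : Nat.Partition n // ∀ i ∈ π.parts, ∃ k : ℕ, 0 < k ∧ i = k ^ d}

/-- The sum of the divisors of `N` that are `d`-th powers. -/
def sg (d N : ℕ) : ℕ := ∑ k ∈ (Finset.Icc 1 N).filter (fun k => k ^ d ∣ N), k ^ d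

/-- The operator `X d/dX`. -/
def th {R : Type*} [CommRing R] (f : R⟦X⟧) : R⟦X⟧ := PowerSeries.mk fun n => (n : R) * coeff n f

def PP (R : Type*) [CommRing R] (d : ℕ) : R⟦X⟧ := PowerSeries.mk fun n => (pd d n : R)

def TT (R : Type*) [CommRing R] (d : ℕ) : R⟦X⟧ := PowerSeries.mk fun n => (sg d n : R)

/-- Polynomially bounded coefficients. -/
def PB (f : ℂ⟦X⟧) : Prop := ∃ (C : ℝ) (k : ℕ), ∀ n, ‖coeff n f‖ ≤ C * ((n : ℝ) + 1) ^ k

/-- The sum of a power series. -/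
def ev (f : ℂ⟦X⟧) (z : ℂ) : ℂ := ∑' n, coeff n f * z ^ n

/-- Coefficient of the logarithmic derivative of `P ((w X) ^ j)`. -/
def Gc (d j : ℕ) (w : ℂ) (N : ℕ) : ℂ :=
  if j ∣ N then ((j * sg d (N / j) : ℕ) : ℂ) * w ^ N else 0

def Tv (d j : ℕ) (w : ℂ) : ℂ⟦X⟧ := PowerSeries.mk (Gc d j w)

/-- The series `P ((w X) ^ j)`. -/
def Yv (d j : ℕ) (w : ℂ) : ℂ⟦X⟧ :=
  PowerSeries.mk fun N => if j ∣ N then (pd d (N / j) : ℂ) * w ^ N else 0

/-- The primitive (without constant term) of `T / X`. -/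
def prim (T : ℂ⟦X⟧) : ℂ⟦X⟧ := PowerSeries.mk fun N => coeff N T / (N : ℂ)

/-- Rational modulo `m`. -/
def Rat (m : ℕ) (h : ℤ⟦X⟧) : Prop :=
  ∃ (D N : Polynomial ℤ) (q : ℤ⟦X⟧), D.coeff 0 = 1 ∧ (D : ℤ⟦X⟧) * h = (N : ℤ⟦X⟧) + (m : ℤ⟦X⟧) * q

/-- Section modulo `M` of `S (X ^ j)`, where `S` is the section of `p` at `b` modulo `a`. -/
def Hs (p : ℕ → ℕ) (a b j M s : ℕ) : ℤ⟦X⟧ :=
  PowerSeries.mk fun N => if j ∣ N ∧ N % M = s ∧ (N / j) % a = b % a then (p (N / j) : ℤ) else 0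

/-- Number of solutions of `k1^d + k2^d = k3^d + k4^d` in `[1, K]`. -/
def Nsol (d K : ℕ) : ℕ :=
  (((Icc 1 K ×ˢ Icc 1 K) ×ˢ (Icc 1 K ×ˢ Icc 1 K)).filter
    (fun x => x.1.1 ^ d + x.1.2 ^ d = x.2.1 ^ d + x.2.2 ^ d)).card

/-! ### Linear algebra of the configuration -/

section CC
variable {X Z : Type} {b : ℕ}

def Inj (W : Submodule ℂ (X → ℂ)) (θ : Fin b → X → ℂ) : Prop :=
  ∀ u : Fin b → X → ℂ, (∀ g, u g ∈ W) → (∀ v, ∑ g, Complex.exp (θ g v) * u g v = 0) → u = 0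

def Rng (W : Submodule ℂ (X → ℂ)) (θ : Fin b → X → ℂ) : Submodule ℂ (X → ℂ) where
  carrier := {w | ∃ u : Fin b → X → ℂ, (∀ g, u g ∈ W) ∧
    ∀ v, w v = ∑ g, Complex.exp (θ g v) * u g v}
  zero_mem' := ⟨0, fun _ => W.zero_mem, by simp⟩
  add_mem' := by
    rintro w w' ⟨u, hu, h⟩ ⟨u', hu', h'⟩
    refine ⟨u + u', fun g => W.add_mem (hu g) (hu' g), fun v => ?_⟩
    simp [h v, h' v, mul_add, Finset.sum_add_distrib]
  smul_mem' := by
    rintro s w ⟨u, hu, h⟩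
    refine ⟨s • u, fun g => W.smul_mem s (hu g), fun v => ?_⟩
    simp only [Pi.smul_apply, smul_eq_mul, h v, Finset.mul_sum]
    exact Finset.sum_congr rfl fun g _ => by ring

def Perf (W : Submodule ℂ (X → ℂ)) (b : ℕ) : Prop :=
  ∃ θ : Fin b → X → ℂ, (∀ g, θ g ∈ W) ∧ Inj W θ

def Good (W : Submodule ℂ (X → ℂ)) (b : ℕ) (lam : ℝ) : Prop :=
  ∀ (ι : Type) [Fintype ι] (S : ι → Submodule ℂ (X → ℂ)) (p : ι → ℝ),
    (∀ i, S i ≤ W) → (∀ i, 0 ≤ p i) →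
    ∃ θ : Fin b → X → ℂ, (∀ g, θ g ∈ W) ∧ Inj W θ ∧
      ∑ i, p i * (finrank ℂ ↥(S i ⊓ Rng W θ) : ℝ) ≤ lam * ∑ i, p i * (finrank ℂ ↥(S i) : ℝ)

/-- The slice of `w` at `x`. -/
def slice (x : Z) : (Z × X → ℂ) →ₗ[ℂ] (X → ℂ) := LinearMap.funLeft ℂ ℂ (Prod.mk x)

@[simp] lemma slice_apply (x : Z) (w : Z × X → ℂ) (v : X) : slice x w v = w (x, v) := rfl

/-- The tensor product of `W` with the kernel of `c`. -/
def ext [Fintype Z] (W : Submodule ℂ (X → ℂ)) (c : Z → ℂ) : Submodule ℂ (Z × X → ℂ) where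
  carrier := {w | (∀ x, slice x w ∈ W) ∧ ∀ v, ∑ x, c x * w (x, v) = 0}
  zero_mem' := ⟨fun x => by simp, by simp⟩
  add_mem' := by
    rintro w w' ⟨h1, h2⟩ ⟨h1', h2'⟩
    refine ⟨fun x => by simpa using W.add_mem (h1 x) (h1' x), fun v => ?_⟩
    simp [mul_add, Finset.sum_add_distrib, h2 v, h2' v]
  smul_mem' := by
    rintro s w ⟨h1, h2⟩
    refine ⟨fun x => by simpa using W.smul_mem s (h1 x), fun v => ?_⟩
    have : ∑ x, c x * (s • w) (x, v) = s * ∑ x, c x * w (x, v) := by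
      rw [Finset.mul_sum]
      exact Finset.sum_congr rfl fun x _ => by simp only [Pi.smul_apply, smul_eq_mul]; ring
    rw [this, h2 v, mul_zero]

lemma mem_ext [Fintype Z] {W : Submodule ℂ (X → ℂ)} {c : Z → ℂ} {w : Z × X → ℂ} :
    w ∈ ext W c ↔ (∀ x, slice x w ∈ W) ∧ ∀ v, ∑ x, c x * w (x, v) = 0 := Iff.rfl

lemma mem_Rng {W : Submodule ℂ (X → ℂ)} {θ : Fin b → X → ℂ} {w : X → ℂ} :
    w ∈ Rng W θ ↔ ∃ u : Fin b → X → ℂ, (∀ g, u g ∈ W) ∧
      ∀ v, w v = ∑ g, Complex.exp (θ g v) * u g v := Iff.rfl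

def Star [Fintype Z] (c : Z → ℂ) : Prop :=
  (∀ x, c x ≠ 0) ∧ ∑ x, c x = 0 ∧
    ∀ z, ∃ ω : Z → ℕ, ω z = 0 ∧ (∀ x, x ≠ z → 0 < ω x) ∧ ∑ x, c x * (ω x : ℂ) = 0

/-- Vectors of `S` whose slices at `A` lie in the ranges. -/
def KK (W : Submodule ℂ (X → ℂ)) (θ : Z → Fin b → X → ℂ) (A : Finset Z)
    (S : Submodule ℂ (Z × X → ℂ)) : Submodule ℂ (Z × X → ℂ) :=
  S ⊓ ⨅ x ∈ A, (Rng W (θ x)).comap (slice x)

/-- Vectors of `S` whose slices at `A` vanish. -/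
def Van (A : Finset Z) (S : Submodule ℂ (Z × X → ℂ)) : Submodule ℂ (Z × X → ℂ) :=
  S ⊓ ⨅ x ∈ A, LinearMap.ker (slice x)

lemma mem_KK {W : Submodule ℂ (X → ℂ)} {θ : Z → Fin b → X → ℂ} {A : Finset Z}
    {S : Submodule ℂ (Z × X → ℂ)} {w : Z × X → ℂ} :
    w ∈ KK W θ A S ↔ w ∈ S ∧ ∀ x ∈ A, slice x w ∈ Rng W (θ x) := by
  simp [KK, Submodule.mem_iInf]

lemma mem_Van {A : Finset Z} {S : Submodule ℂ (Z × X → ℂ)} {w : Z × X → ℂ} :
    w ∈ Van A S ↔ w ∈ S ∧ ∀ x ∈ A, slice x w = 0 := by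
  simp [Van, Submodule.mem_iInf]

end CC

/-- The star of `p`: `p` children, and the vertices `v`, `u1`, `u2`. -/
abbrev Zp (p : ℕ) : Type := Fin p ⊕ Fin 3

def czI (p : ℕ) : Zp p → ℤ := Sum.elim (fun _ => 1) ![-1, -(p : ℤ), 1]

def cz (p : ℕ) (x : Zp p) : ℂ := (czI p x : ℂ)

def lev (d p : ℕ) : Zp p → ℕ := Sum.elim (fun _ => 0) ![1, d, d + 1]

def rt (p : ℕ) : Zp p → ℂ :=
  Sum.elim (fun i => Complex.exp (2 * Real.pi * Complex.I / p) ^ (i : ℕ)) (fun _ => 1)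

def Vx : List ℕ → Type
  | [] => Unit
  | p :: l => Zp p × Vx l

instance instFintypeVx : (l : List ℕ) → Fintype (Vx l)
  | [] => inferInstanceAs (Fintype Unit)
  | p :: l => letI := instFintypeVx l; inferInstanceAs (Fintype (Zp p × Vx l))

def WW : (l : List ℕ) → Submodule ℂ (Vx l → ℂ)
  | [] => ⊤
  | p :: l => ext (WW l) (cz p)

def jv (d : ℕ) : (l : List ℕ) → Vx l → ℕ
  | [], _ => 1
  | p :: l, v => p ^ lev d p v.1 * jv d l v.2

def zv : (l : List ℕ) → Vx l → ℂ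
  | [], _ => 1
  | p :: l, v => rt p v.1 * zv l v.2

/-! ### Basic lemmas -/

section basic
variable {R : Type*} [CommRing R]

@[simp] lemma coeff_th (f : R⟦X⟧) (n : ℕ) : coeff n (th f) = (n : R) * coeff n f := by simp [th]

lemma th_eq (f : R⟦X⟧) : th f = X * d⁄dX R f := by
  ext n
  cases n with
  | zero => simp
  | succ n => simp [coeff_succ_X_mul, coeff_derivative, mul_comm]

lemma th_add (f g : R⟦X⟧) : th (f + g) = th f + th g := by ext n; simp [mul_add]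

lemma th_sub (f g : R⟦X⟧) : th (f - g) = th f - th g := by ext n; simp [mul_sub]

lemma th_zero : th (0 : R⟦X⟧) = 0 := by ext n; simp

lemma th_one : th (1 : R⟦X⟧) = 0 := by
  ext n
  cases n <;> simp [coeff_one]

lemma th_smul (s : R) (f : R⟦X⟧) : th (s • f) = s • th f := by ext n; simp; ring

lemma th_mul (f g : R⟦X⟧) : th (f * g) = th f * g + f * th g := by
  simp only [th_eq, Derivation.leibniz, smul_eq_mul]
  ring

lemma th_sum {ι : Type*} (s : Finset ι) (f : ι → R⟦X⟧) : th (∑ i ∈ s, f i) = ∑ i ∈ s, th (f i) := by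
  ext n
  simp [Finset.mul_sum]

end basic

lemma PB.zero : PB 0 := ⟨0, 0, fun n => by simp⟩

lemma PB.one : PB 1 := ⟨1, 0, fun n => by
  rw [coeff_one]
  split_ifs <;> simp⟩

lemma PB.nonneg {f : ℂ⟦X⟧} (hf : PB f) :
    ∃ (C : ℝ) (k : ℕ), 0 ≤ C ∧ ∀ n, ‖coeff n f‖ ≤ C * ((n : ℝ) + 1) ^ k := by
  obtain ⟨C, k, h⟩ := hf
  refine ⟨C, k, ?_, h⟩
  have := (norm_nonneg _).trans (h 0)
  simpa using this

lemma PB.add {f g : ℂ⟦X⟧} (hf : PB f) (hg : PB g) : PB (f + g) := by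
  obtain ⟨C, k, hC, h⟩ := hf.nonneg
  obtain ⟨C', k', hC', h'⟩ := hg.nonneg
  refine ⟨C + C', k + k', fun n => ?_⟩
  have h1 : (1 : ℝ) ≤ (n : ℝ) + 1 := by have := (Nat.cast_nonneg n : (0 : ℝ) ≤ n); linarith
  have e1 : ((n : ℝ) + 1) ^ k ≤ ((n : ℝ) + 1) ^ (k + k') := pow_le_pow_right₀ h1 (by omega)
  have e2 : ((n : ℝ) + 1) ^ k' ≤ ((n : ℝ) + 1) ^ (k + k') := pow_le_pow_right₀ h1 (by omega)
  calc ‖coeff n (f + g)‖ ≤ ‖coeff n f‖ + ‖coeff n g‖ := by rw [map_add]; exact norm_add_le _ _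
    _ ≤ C * ((n : ℝ) + 1) ^ (k + k') + C' * ((n : ℝ) + 1) ^ (k + k') :=
      add_le_add ((h n).trans (mul_le_mul_of_nonneg_left e1 hC))
        ((h' n).trans (mul_le_mul_of_nonneg_left e2 hC'))
    _ = _ := by ring

lemma PB.smul (s : ℂ) {f : ℂ⟦X⟧} (hf : PB f) : PB (s • f) := by
  obtain ⟨C, k, h⟩ := hf
  refine ⟨‖s‖ * C, k, fun n => ?_⟩
  rw [map_smul, smul_eq_mul, norm_mul, mul_assoc]
  exact mul_le_mul_of_nonneg_left (h n) (norm_nonneg _)

lemma PB.neg {f : ℂ⟦X⟧} (hf : PB f) : PB (-f) := by simpa using hf.smul (-1)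

lemma PB.sub {f g : ℂ⟦X⟧} (hf : PB f) (hg : PB g) : PB (f - g) := by
  rw [sub_eq_add_neg]; exact hf.add hg.neg

lemma PB.mul {f g : ℂ⟦X⟧} (hf : PB f) (hg : PB g) : PB (f * g) := by
  obtain ⟨C, k, hC, h⟩ := hf.nonneg
  obtain ⟨C', k', hC', h'⟩ := hg.nonneg
  refine ⟨C * C', k + k' + 1, fun n => ?_⟩
  rw [coeff_mul]
  calc ‖∑ p ∈ antidiagonal n, coeff p.1 f * coeff p.2 g‖
      ≤ ∑ p ∈ antidiagonal n, ‖coeff p.1 f * coeff p.2 g‖ := norm_sum_le _ _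
    _ ≤ ∑ _p ∈ antidiagonal n, C * C' * ((n : ℝ) + 1) ^ (k + k') := by
      refine Finset.sum_le_sum fun p hp => ?_
      have hp' := mem_antidiagonal.1 hp
      have a1 : (p.1 : ℝ) + 1 ≤ (n : ℝ) + 1 := by
        have : p.1 ≤ n := by omega
        have : (p.1 : ℝ) ≤ n := by exact_mod_cast this
        linarith
      have a2 : (p.2 : ℝ) + 1 ≤ (n : ℝ) + 1 := by
        have : p.2 ≤ n := by omega
        have : (p.2 : ℝ) ≤ n := by exact_mod_cast this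
        linarith
      have b1 : ‖coeff p.1 f‖ ≤ C * ((n : ℝ) + 1) ^ k :=
        (h _).trans (mul_le_mul_of_nonneg_left (pow_le_pow_left₀ (by positivity) a1 k) hC)
      have b2 : ‖coeff p.2 g‖ ≤ C' * ((n : ℝ) + 1) ^ k' :=
        (h' _).trans (mul_le_mul_of_nonneg_left (pow_le_pow_left₀ (by positivity) a2 k') hC')
      rw [norm_mul]
      calc _ ≤ (C * ((n : ℝ) + 1) ^ k) * (C' * ((n : ℝ) + 1) ^ k') :=
            mul_le_mul b1 b2 (norm_nonneg _) (by positivity)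
        _ = _ := by ring
    _ = _ := by
      rw [Finset.sum_const, Nat.card_antidiagonal, nsmul_eq_mul]
      push_cast
      ring

lemma PB.th {f : ℂ⟦X⟧} (hf : PB f) : PB (th f) := by
  obtain ⟨C, k, hC, h⟩ := hf.nonneg
  refine ⟨C, k + 1, fun n => ?_⟩
  rw [coeff_th, norm_mul, Complex.norm_natCast]
  calc (n : ℝ) * ‖coeff n f‖ ≤ ((n : ℝ) + 1) * (C * ((n : ℝ) + 1) ^ k) :=
        mul_le_mul (by linarith) (h n) (norm_nonneg _) (by positivity)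
    _ = _ := by ring

lemma PB.sum {ι : Type*} (s : Finset ι) {f : ι → ℂ⟦X⟧} (hf : ∀ i ∈ s, PB (f i)) :
    PB (∑ i ∈ s, f i) := by
  classical
  induction s using Finset.induction_on with
  | empty => simpa using PB.zero
  | insert i s hi ih =>
    rw [Finset.sum_insert hi]
    exact (hf i (by simp)).add (ih fun j hj => hf j (by simp [hj]))

/-- Uniqueness for `th f = T * f` with constant term one. -/
lemma ode_unique {f g T : ℂ⟦X⟧} (hf : th f = T * f) (hg : th g = T * g)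
    (f0 : constantCoeff f = 1) (g0 : constantCoeff g = 1) : f = g := by
  have hT : constantCoeff T = 0 := by
    have := congrArg (coeff 0) hf
    simpa [f0] using this.symm
  ext n
  induction n using Nat.strong_induction_on with
  | _ n ih =>
    rcases Nat.eq_zero_or_pos n with rfl | hn
    · simp [f0, g0]
    have e1 := congrArg (coeff n) hf
    have e2 := congrArg (coeff n) hg
    rw [coeff_th, coeff_mul] at e1 e2
    have : ∑ p ∈ antidiagonal n, coeff p.1 T * coeff p.2 f =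
        ∑ p ∈ antidiagonal n, coeff p.1 T * coeff p.2 g := by
      refine Finset.sum_congr rfl fun p hp => ?_
      have hp' := mem_antidiagonal.1 hp
      rcases Nat.eq_zero_or_pos p.1 with h0 | h0
      · simp [h0, hT]
      · rw [ih p.2 (by omega)]
    have hn' : (n : ℂ) ≠ 0 := by exact_mod_cast hn.ne'
    exact mul_left_cancel₀ hn' (e1.trans (this.trans e2.symm))

/-- The series that are rational modulo `m` form a subring. -/
def RatRing (m : ℕ) : Subring ℤ⟦X⟧ where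
  carrier := {h | Rat m h}
  one_mem' := ⟨1, 1, 0, by simp, by simp⟩
  zero_mem' := ⟨1, 0, 0, by simp, by simp⟩
  add_mem' := by
    rintro h h' ⟨D, N, q, h0, e⟩ ⟨D', N', q', h0', e'⟩
    refine ⟨D * D', N * D' + N' * D, q * D' + q' * D, by simp [Polynomial.mul_coeff_zero, h0, h0'], ?_⟩
    push_cast
    linear_combination (D' : ℤ⟦X⟧) * e + (D : ℤ⟦X⟧) * e'
  mul_mem' := by
    rintro h h' ⟨D, N, q, h0, e⟩ ⟨D', N', q', h0', e'⟩
    refine ⟨D * D', N * N', q * (D' * h') + N * q', by simp [Polynomial.mul_coeff_zero, h0, h0'], ?_⟩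
    push_cast
    linear_combination ((D' : ℤ⟦X⟧) * h') * e + (N : ℤ⟦X⟧) * e'
  neg_mem' := by
    rintro h ⟨D, N, q, h0, e⟩
    refine ⟨D, -N, -q, h0, ?_⟩
    push_cast
    linear_combination -e

end

end Pool.Agent.P.MP_85b516_nt
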