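import Pool.Agent.P.MP_85b516_nt.Stmt

/-! The fourth moment of the truncated logarithm. -/

open PowerSeries Finset

namespace Pool.Agent.P.MP_85b516_nt

namespace PFOUR

lemma fibre {d j D K N : ℕ} (hd : 2 ≤ d) (hj : 1 ≤ j) (hK : D < (K + 1) ^ d) (hN : N ∈ Icc 1 D)
    (w : ℂ) : Gc d j w N / N = ∑ p ∈ ((Icc 1 D ×ˢ Icc 1 K).filter
      fun p => j * p.1 * p.2 ^ d ≤ D).filter (fun p => j * p.1 * p.2 ^ d = N),
        (p.1 : ℂ)⁻¹ * w ^ N := by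
  rw [mem_Icc] at hN
  unfold Gc
  split_ifs with h
  · obtain ⟨n, rfl⟩ := h
    have n0 : 0 < n := Nat.pos_of_mul_pos_left hN.1
    have hn : n ≤ D := (Nat.le_mul_of_pos_left n hj).trans hN.2
    have j0 : (j : ℂ) ≠ 0 := Nat.cast_ne_zero.2 (by omega)
    have n1 : (n : ℂ) ≠ 0 := Nat.cast_ne_zero.2 n0.ne'
    rw [Nat.mul_div_cancel_left n hj, sg, ← sum_mul, mul_div_right_comm]
    congr 1
    push_cast
    rw [mul_div_mul_left _ _ j0, sum_div]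
    refine sum_nbij' (fun k => (n / k ^ d, k)) (fun p => p.2) (fun k hk => ?_) (fun p hp => ?_)
      (fun k _ => rfl) (fun p hp => ?_) (fun k hk => ?_)
    · simp only [mem_filter, mem_Icc, mem_product] at hk ⊢
      obtain ⟨⟨k1, -⟩, m, rfl⟩ := hk
      have k0 : 0 < k ^ d := pow_pos k1 d
      have m0 : 0 < m := Nat.pos_of_mul_pos_left n0
      rw [Nat.mul_div_cancel_left m k0]
      have e : j * m * k ^ d = j * (k ^ d * m) := by ring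
      refine ⟨⟨⟨⟨m0, (Nat.le_mul_of_pos_left m k0).trans hn⟩, k1, ?_⟩, e ▸ hN.2⟩, e⟩
      exact Nat.lt_succ_iff.1 (lt_of_pow_lt_pow_left₀ d (Nat.zero_le _)
        (((Nat.le_mul_of_pos_right _ m0).trans hn).trans_lt hK))
    · simp only [mem_filter, mem_Icc, mem_product] at hp ⊢
      obtain ⟨⟨⟨⟨m1, -⟩, k1, -⟩, -⟩, e⟩ := hp
      have e' : p.1 * p.2 ^ d = n := Nat.eq_of_mul_eq_mul_left hj (by rw [← e]; ring)
      refine ⟨⟨k1, ?_⟩, e' ▸ Dvd.intro_left _ rfl⟩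
      exact (Nat.le_self_pow (by omega) _).trans (e' ▸ Nat.le_mul_of_pos_left _ m1)
    · simp only [mem_filter, mem_Icc, mem_product] at hp
      obtain ⟨⟨⟨-, k1, -⟩, -⟩, e⟩ := hp
      have e' : p.1 * p.2 ^ d = n := Nat.eq_of_mul_eq_mul_left hj (by rw [← e]; ring)
      exact Prod.ext (by simp only; rw [← e', Nat.mul_div_cancel _ (pow_pos k1 d)]) rfl
    · simp only [mem_filter, mem_Icc] at hk
      obtain ⟨⟨k1, -⟩, m, rfl⟩ := hk
      have k0 : 0 < k ^ d := pow_pos k1 d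
      have k2 : (k : ℂ) ≠ 0 := Nat.cast_ne_zero.2 (by omega)
      simp only [Nat.mul_div_cancel_left m k0]
      push_cast
      rw [div_mul_cancel_left₀ (pow_ne_zero d k2)]
  · rw [zero_div, eq_comm]
    refine sum_eq_zero fun p hp => absurd ?_ h
    exact ⟨p.1 * p.2 ^ d, by rw [← (mem_filter.1 hp).2]; ring⟩

lemma one {d j D K : ℕ} (hd : 2 ≤ d) (hj : 1 ≤ j) (hK : D < (K + 1) ^ d) (w z : ℂ) :
    ∑ N ∈ Icc 1 D, Gc d j w N / N * z ^ N = ∑ m ∈ Icc 1 D, (m : ℂ)⁻¹ *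
      ∑ k ∈ (Icc 1 K).filter (fun k => j * m * k ^ d ≤ D),
        w ^ (j * m * k ^ d) * z ^ (j * m * k ^ d) := by
  have e := sum_fiberwise_of_maps_to (s := (Icc 1 D ×ˢ Icc 1 K).filter
    fun p => j * p.1 * p.2 ^ d ≤ D) (t := Icc 1 D) (g := fun p => j * p.1 * p.2 ^ d)
    (fun p hp => by
      simp only [mem_filter, mem_Icc, mem_product] at hp ⊢
      exact ⟨Nat.mul_pos (Nat.mul_pos hj hp.1.1.1) (Nat.pow_pos hp.1.2.1), hp.2⟩)
    (fun p => (p.1 : ℂ)⁻¹ * (w ^ (j * p.1 * p.2 ^ d) * z ^ (j * p.1 * p.2 ^ d)))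
  rw [sum_filter, sum_product] at e
  simp only [mul_sum, sum_filter, mul_ite, mul_zero]
  rw [← e]
  refine sum_congr rfl fun N hN => ?_
  rw [fibre hd hj hK hN, sum_mul]
  exact sum_congr rfl fun p hp => by rw [(mem_filter.1 hp).2, mul_assoc]

lemma pow_four {ι : Type} (s : Finset ι) (w u : ι → ℝ) (hw : ∀ i, 0 ≤ w i) :
    (∑ i ∈ s, w i * u i) ^ 4 ≤ (∑ i ∈ s, w i) ^ 3 * ∑ i ∈ s, w i * u i ^ 4 := by
  have h1 := sum_sq_le_sum_mul_sum_of_sq_le_mul s (r := fun i => w i * u i) (f := w)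
    (g := fun i => w i * u i ^ 2) (fun i _ => hw i) (fun i _ => mul_nonneg (hw i) (sq_nonneg _))
    fun i _ => le_of_eq (by ring)
  have h2 := sum_sq_le_sum_mul_sum_of_sq_le_mul s (r := fun i => w i * u i ^ 2) (f := w)
    (g := fun i => w i * u i ^ 4) (fun i _ => hw i) (fun i _ => mul_nonneg (hw i) (by positivity))
    fun i _ => le_of_eq (by ring)
  calc (∑ i ∈ s, w i * u i) ^ 4 = ((∑ i ∈ s, w i * u i) ^ 2) ^ 2 := by ring
    _ ≤ ((∑ i ∈ s, w i) * ∑ i ∈ s, w i * u i ^ 2) ^ 2 := pow_le_pow_left₀ (sq_nonneg _) h1 2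
    _ = (∑ i ∈ s, w i) ^ 2 * (∑ i ∈ s, w i * u i ^ 2) ^ 2 := by ring
    _ ≤ (∑ i ∈ s, w i) ^ 2 * ((∑ i ∈ s, w i) * ∑ i ∈ s, w i * u i ^ 4) :=
      mul_le_mul_of_nonneg_left h2 (sq_nonneg _)
    _ = _ := by ring

end PFOUR

open PFOUR in
theorem s_four (ho : S_Ort) : S_Four := by
  intro d hd V _ j ω e hj hω D K r hK r0 r1
  obtain ⟨Θ, hΘ⟩ : ∃ Θ : V × ℕ → ℂ → ℂ, Θ = fun p z =>
      ∑ k ∈ (Icc 1 K).filter (fun k => j p.1 * p.2 * k ^ d ≤ D),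
        ω p.1 ^ (j p.1 * p.2 * k ^ d) * z ^ (j p.1 * p.2 * k ^ d) := ⟨_, rfl⟩
  obtain ⟨w, hw⟩ : ∃ w : V × ℕ → ℝ, w = fun p => ‖e p.1‖ * (p.2 : ℝ)⁻¹ := ⟨_, rfl⟩
  have w0 : ∀ p, 0 ≤ w p := fun p => by rw [hw]; positivity
  have Θc : ∀ p, Continuous (Θ p) := fun p => by rw [hΘ]; fun_prop
  have e1 : ∀ z : ℂ, ∑ N ∈ Icc 1 D, coeff N (prim (∑ v, e v • Tv d (j v) (ω v))) * z ^ N =
      ∑ p ∈ univ ×ˢ Icc 1 D, e p.1 * (p.2 : ℂ)⁻¹ * Θ p z := by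
    intro z
    simp only [prim, Tv, coeff_mk, map_sum, map_smul, smul_eq_mul, sum_div, sum_mul]
    rw [sum_comm, sum_product]
    refine sum_congr rfl fun v _ => ?_
    simp only [mul_div_assoc, mul_assoc (e v), ← mul_sum]
    rw [one hd (hj v) hK, hΘ]
  have e2 : ∀ z : ℂ, ‖∑ N ∈ Icc 1 D, coeff N (prim (∑ v, e v • Tv d (j v) (ω v))) * z ^ N‖ ^ 4 ≤
      ∑ p ∈ univ ×ˢ Icc 1 D, ((∑ p ∈ univ ×ˢ Icc 1 D, w p) ^ 3 * w p) • ‖Θ p z‖ ^ 4 := by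
    intro z
    simp only [smul_eq_mul, mul_assoc, ← mul_sum]
    refine le_trans (pow_le_pow_left₀ (norm_nonneg _) ?_ 4) (pow_four _ w (fun p => ‖Θ p z‖) w0)
    rw [e1]
    refine (norm_sum_le _ _).trans (le_of_eq (sum_congr rfl fun p _ => ?_))
    rw [hw, norm_mul, norm_mul, norm_inv, Complex.norm_natCast]
  have S0 : 0 ≤ ∑ p ∈ univ ×ˢ Icc 1 D, w p := sum_nonneg fun p _ => w0 p
  have e3 : ∑ p ∈ univ ×ˢ Icc 1 D, w p ≤ (∑ v, ‖e v‖) * (1 + Real.log D) := by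
    have h := harmonic_le_one_add_log D
    rw [harmonic_eq_sum_Icc] at h
    push_cast at h
    rw [hw, sum_product]
    simp only [← mul_sum, ← sum_mul]
    exact mul_le_mul_of_nonneg_left h (sum_nonneg fun _ _ => norm_nonneg _)
  have ci : ∀ f : ℂ → ℝ, Continuous f → CircleIntegrable f 0 r := fun f hf =>
    hf.continuousOn.circleIntegrable'
  refine (Real.circleAverage_mono (ci _ (by fun_prop)) (ci _ (by fun_prop)) fun z _ => e2 z).trans ?_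
  rw [Real.circleAverage_fun_sum fun p _ => ci _ (by fun_prop)]
  refine (sum_le_sum (g := fun p => (∑ p ∈ univ ×ˢ Icc 1 D, w p) ^ 3 * w p * (Nsol d K : ℝ))
    fun p hp => ?_).trans ?_
  · rw [Real.circleAverage_fun_smul, smul_eq_mul]
    refine mul_le_mul_of_nonneg_left ?_ (mul_nonneg (pow_nonneg S0 3) (w0 p))
    rw [hΘ]
    exact ho.2 d K (j p.1 * p.2) _ (fun k => ω p.1 ^ (j p.1 * p.2 * k ^ d)) r
      (Nat.mul_pos (hj _) (mem_Icc.1 (mem_product.1 hp).2).1) (filter_subset _ _)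
      (fun k => by rw [norm_pow, hω, one_pow]) r0 r1
  · rw [← sum_mul, ← mul_sum, ← pow_succ]
    exact mul_le_mul_of_nonneg_right (pow_le_pow_left₀ S0 e3 4) (Nat.cast_nonneg _)

end Pool.Agent.P.MP_85b516_nt
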