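import Pool.Agent.P.MP_85b516_nt.Stmt

/-! The logarithmic derivative of the generating function and the section relation. -/

open PowerSeries Finset Module Filter Topology

namespace Pool.Agent.P.MP_85b516_nt

noncomputable section

namespace PGEN

open scoped PowerSeries.WithPiTopology Classical

/-- being the `d`-th power of a positive integer -/
def Pw (d i : ℕ) : Prop := ∃ k : ℕ, 0 < k ∧ i = k ^ d

lemma pd_eq (d n : ℕ) : pd d n = #(Nat.Partition.restricted n (Pw d)) := by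
  rw [pd, Nat.card_eq_fintype_card, Fintype.card_subtype, Nat.Partition.restricted]
  exact congrArg Finset.card (Finset.filter_congr_decidable _ _ _ |>.trans (by
    refine Finset.filter_congr fun x _ => Iff.rfl))

lemma pd_zero (d : ℕ) : pd d 0 = 1 := by
  rw [pd, Nat.card_eq_one_iff_unique]
  refine ⟨⟨fun a b => Subtype.ext (Subsingleton.elim _ _)⟩, ⟨⟨default, fun i hi => ?_⟩⟩⟩
  simp at hi

/-- the factor of one part size -/
def FF (d i : ℕ) : ℤ⟦X⟧ := if Pw d (i + 1) then ∑' j : ℕ, X ^ ((i + 1) * j) else 1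

/-- its logarithmic derivative -/
def GG (d i : ℕ) : ℤ⟦X⟧ :=
  PowerSeries.mk fun N => if Pw d (i + 1) ∧ (i + 1) ∣ N ∧ 0 < N then ((i + 1 : ℕ) : ℤ) else 0

lemma th_X_pow (e : ℕ) : th (X ^ e : ℤ⟦X⟧) = (e : ℤ⟦X⟧) * X ^ e := by
  ext n
  rw [coeff_th, ← nsmul_eq_mul e (X ^ e : ℤ⟦X⟧), map_nsmul, coeff_X_pow]
  split_ifs with h
  · simp [h]
  · simp

lemma GG_mul (d i : ℕ) (h : Pw d (i + 1)) :
    GG d i * (1 - X ^ (i + 1)) = ((i + 1 : ℕ) : ℤ⟦X⟧) * X ^ (i + 1) := by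
  ext n
  rw [mul_sub, mul_one, map_sub, coeff_mul_X_pow', ← nsmul_eq_mul, map_nsmul, coeff_X_pow]
  simp only [GG, coeff_mk, h, true_and]
  rcases lt_trichotomy n (i + 1) with hn | hn | hn
  · have h1 : ¬ ((i + 1) ∣ n ∧ 0 < n) := fun hh => absurd (Nat.le_of_dvd hh.2 hh.1) (by omega)
    rw [if_neg h1, if_neg (by omega), if_neg (by omega)]
    simp
  · subst hn
    simp
  · have h1 : ((i + 1) ∣ n ∧ 0 < n) ↔ ((i + 1) ∣ n - (i + 1) ∧ 0 < n - (i + 1)) := by
      rw [Nat.dvd_sub_iff_left hn.le (dvd_refl _)]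
      exact and_congr_right fun _ => by omega
    rw [if_pos hn.le, if_neg (show ¬ n = i + 1 by omega)]
    simp only [h1]
    simp

lemma th_FF (d i : ℕ) : th (FF d i) = GG d i * FF d i := by
  by_cases h : Pw d (i + 1)
  · have h1 : FF d i * (1 - X ^ (i + 1)) = 1 := by
      rw [FF, if_pos h]
      simp_rw [pow_mul]
      exact PowerSeries.WithPiTopology.tsum_pow_mul_one_sub_of_constantCoeff_eq_zero (by simp)
    have h2 := congrArg th h1
    rw [th_mul, th_sub, th_one, th_X_pow] at h2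
    have h3 := GG_mul d i h
    linear_combination (-(th (FF d i)) + GG d i * FF d i) * h1 + FF d i * h2 -
      FF d i ^ 2 * h3
  · have h1 : GG d i = 0 := by
      ext n
      simp [GG, h]
    rw [FF, if_neg h, th_one, h1, zero_mul]

lemma th_prod (d K : ℕ) :
    th (∏ i ∈ range K, FF d i) = (∑ i ∈ range K, GG d i) * ∏ i ∈ range K, FF d i := by
  induction K with
  | zero => simp [th_one]
  | succ K ih =>
    rw [prod_range_succ, sum_range_succ, th_mul, ih, th_FF]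
    ring

lemma coeff_sum_GG (d K m : ℕ) (hd : 1 ≤ d) (hm : m ≤ K) :
    coeff m (∑ i ∈ range K, GG d i) = (sg d m : ℤ) := by
  rw [map_sum]
  simp only [GG, coeff_mk]
  rw [← sum_filter, sg, Nat.cast_sum]
  symm
  refine sum_bij (fun k _ => k ^ d - 1) ?_ ?_ ?_ ?_
  · intro k hk
    obtain ⟨hk1, hk2⟩ := mem_filter.1 hk
    obtain ⟨hk3, hk4⟩ := mem_Icc.1 hk1
    have h0 : 0 < k ^ d := pow_pos hk3 d
    have h1 : k ^ d - 1 + 1 = k ^ d := by omega
    have h2 : k ^ d ≤ m := Nat.le_of_dvd (by omega) hk2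
    refine mem_filter.2 ⟨mem_range.2 (by omega), ?_, ?_, by omega⟩
    · rw [h1]; exact ⟨k, hk3, rfl⟩
    · rw [h1]; exact hk2
  · intro k hk k' hk' h
    have h0 : 0 < k ^ d := pow_pos (mem_Icc.1 (mem_filter.1 hk).1).1 d
    have h0' : 0 < k' ^ d := pow_pos (mem_Icc.1 (mem_filter.1 hk').1).1 d
    exact Nat.pow_left_injective (by omega : d ≠ 0) (show k ^ d = k' ^ d by omega)
  · intro i hi
    obtain ⟨-, ⟨k, hk0, hk⟩, h2, h3⟩ := mem_filter.1 hi
    refine ⟨k, mem_filter.2 ⟨mem_Icc.2 ⟨hk0, ?_⟩, hk ▸ h2⟩, by omega⟩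
    have h4 : i + 1 ≤ m := Nat.le_of_dvd h3 h2
    have h5 : k ≤ k ^ d := Nat.le_self_pow (by omega) k
    omega
  · intro k hk
    have h0 : 0 < k ^ d := pow_pos (mem_Icc.1 (mem_filter.1 hk).1).1 d
    have h1 : k ^ d - 1 + 1 = k ^ d := by omega
    rw [h1]

lemma gen_int (d : ℕ) (hd : 1 ≤ d) : th (PP ℤ d) = TT ℤ d * PP ℤ d := by
  have hp : HasProd (FF d) (PP ℤ d) := by
    have h := Nat.Partition.hasProd_powerSeriesMk_card_restricted ℤ (Pw d)
    have e : PP ℤ d = PowerSeries.mk fun n => (#(Nat.Partition.restricted n (Pw d)) : ℤ) := by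
      ext n
      simp [PP, pd_eq]
    rw [e]
    exact h
  have ht := hp.tendsto_prod_nat
  ext n
  have h1 : Tendsto (fun K => (n : ℤ) * coeff n (∏ i ∈ range K, FF d i)) atTop
      (𝓝 ((n : ℤ) * coeff n (PP ℤ d))) :=
    (((PowerSeries.WithPiTopology.continuous_coeff ℤ n).tendsto _).comp ht).const_mul _
  have h2 : Tendsto (fun K => coeff n (TT ℤ d * ∏ i ∈ range K, FF d i)) atTop
      (𝓝 (coeff n (TT ℤ d * PP ℤ d))) :=
    ((PowerSeries.WithPiTopology.continuous_coeff ℤ n).tendsto _).comp (ht.const_mul _)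
  rw [coeff_th]
  refine tendsto_nhds_unique_of_eventuallyEq h1 h2 ?_
  filter_upwards [eventually_ge_atTop n] with K hK
  rw [← coeff_th, th_prod, coeff_mul, coeff_mul]
  refine sum_congr rfl fun p hp' => ?_
  have := mem_antidiagonal.1 hp'
  rw [coeff_sum_GG d K p.1 hd (by omega)]
  simp [TT]

/-- the substitution of `(w X) ^ j` -/
def sub (j : ℕ) (hj : j ≠ 0) (w : ℂ) (f : ℂ⟦X⟧) : ℂ⟦X⟧ := rescale w (expand j hj f)

lemma coeff_sub (j : ℕ) (hj : j ≠ 0) (w : ℂ) (f : ℂ⟦X⟧) (N : ℕ) :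
    coeff N (sub j hj w f) = if j ∣ N then coeff (N / j) f * w ^ N else 0 := by
  rw [sub, coeff_rescale, coeff_expand]
  split_ifs
  · ring
  · simp

lemma sub_mul (j : ℕ) (hj : j ≠ 0) (w : ℂ) (f g : ℂ⟦X⟧) :
    sub j hj w (f * g) = sub j hj w f * sub j hj w g := by
  simp only [sub, map_mul]

lemma th_sub' (j : ℕ) (hj : j ≠ 0) (w : ℂ) (f : ℂ⟦X⟧) :
    th (sub j hj w f) = (j : ℂ) • sub j hj w (th f) := by
  ext N
  rw [coeff_th, map_smul, coeff_sub, coeff_sub, smul_eq_mul]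
  split_ifs with h
  · obtain ⟨n, rfl⟩ := h
    rw [Nat.mul_div_cancel_left _ (Nat.pos_of_ne_zero hj), coeff_th]
    push_cast
    ring
  · simp

lemma geom (a n : ℕ) (ξ : ℂ) (h : IsPrimitiveRoot ξ a) :
    ∑ g : Fin a, (ξ ^ n) ^ (g : ℕ) = if a ∣ n then (a : ℂ) else 0 := by
  rw [Fin.sum_univ_eq_sum_range (fun g => (ξ ^ n) ^ g) a]
  split_ifs with hn
  · rw [(h.pow_eq_one_iff_dvd n).2 hn]
    simp
  · have h1 : ξ ^ n ≠ 1 := fun e => hn ((h.pow_eq_one_iff_dvd n).1 e)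
    have h2 : (ξ ^ n) ^ a = 1 := by rw [← pow_mul, mul_comm, pow_mul, h.pow_eq_one, one_pow]
    have h3 := mul_geom_sum (ξ ^ n) a
    rw [h2, sub_self] at h3
    exact (mul_eq_zero.1 h3).resolve_left (sub_ne_zero.2 h1)

lemma dvd_iff (a b j n : ℕ) (ha : 1 ≤ a) (hc : Nat.Coprime j a) :
    a ∣ j * ((a - 1) * b) + j * n ↔ n % a = b % a := by
  rw [← mul_add, hc.symm.dvd_mul_left]
  obtain ⟨c, rfl⟩ : ∃ c, a = c + 1 := ⟨a - 1, by omega⟩
  rw [Nat.add_sub_cancel, ← Nat.modEq_zero_iff_dvd]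
  have h0 : c * b + b ≡ 0 [MOD c + 1] :=
    Nat.modEq_zero_iff_dvd.2 ⟨b, by ring⟩
  constructor
  · intro h
    exact Nat.ModEq.add_left_cancel' (c * b) (h.trans h0.symm)
  · intro h
    exact (Nat.ModEq.add_left (c * b) h).trans h0

end PGEN

theorem s_gen : S_Gen := by
  intro d hd
  refine ⟨PGEN.pd_zero d, fun R _ => ?_⟩
  have h := congrArg (PowerSeries.map (Int.castRingHom R)) (PGEN.gen_int d hd)
  rw [map_mul] at h
  have e1 : PowerSeries.map (Int.castRingHom R) (PP ℤ d) = PP R d := by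
    ext n
    simp [PP]
  have e2 : PowerSeries.map (Int.castRingHom R) (TT ℤ d) = TT R d := by
    ext n
    simp [TT]
  have e3 : PowerSeries.map (Int.castRingHom R) (th (PP ℤ d)) = th (PP R d) := by
    ext n
    simp [PP]
  rw [← e3, h, e1, e2]

theorem s_yv (h : S_Gen) (hs : S_Sg) : S_Yv := by
  intro d j w hd hj
  have hj0 : j ≠ 0 := by omega
  obtain ⟨h0, h1⟩ := h d hd
  have eY : Yv d j w = PGEN.sub j hj0 w (PP ℂ d) := by
    ext N
    rw [PGEN.coeff_sub]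
    simp [Yv, PP]
  have eT : Tv d j w = (j : ℂ) • PGEN.sub j hj0 w (TT ℂ d) := by
    ext N
    rw [map_smul, PGEN.coeff_sub]
    simp only [Tv, TT, coeff_mk, Gc, smul_eq_mul]
    split_ifs
    · push_cast
      ring
    · simp
  refine ⟨?_, ?_, fun hw => ⟨j, 2, fun N => ?_⟩⟩
  · rw [eY, eT, PGEN.th_sub', h1 ℂ, PGEN.sub_mul, smul_mul_assoc]
  · rw [← coeff_zero_eq_constantCoeff_apply]
    simp [Yv, h0]
  · simp only [Tv, coeff_mk, Gc]
    split_ifs
    · rw [norm_mul, norm_pow, hw, one_pow, mul_one, Complex.norm_natCast]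
      have h2 : j * sg d (N / j) ≤ j * (N + 1) ^ 2 := by
        refine Nat.mul_le_mul_left _ (((hs d hd).2.2.2.1 _).trans ?_)
        exact Nat.pow_le_pow_left ((Nat.div_le_self _ _).trans (Nat.le_succ _)) 2
      exact_mod_cast h2
    · rw [norm_zero]
      positivity

theorem s_lin : S_Lin := by
  intro d a b j M ξ ζ ha hj hM hc hξ hζ
  ext N
  have e1 : ∀ s, coeff N (PowerSeries.map (Int.castRingHom ℂ)
      ((a : ℤ⟦X⟧) * Hs (pd d) a b j M s)) =
      if j ∣ N ∧ N % M = s ∧ (N / j) % a = b % a then (a : ℂ) * (pd d (N / j) : ℂ) else 0 := by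
    intro s
    rw [coeff_map, ← nsmul_eq_mul, map_nsmul]
    simp only [Hs, coeff_mk]
    split_ifs <;> simp
  simp only [map_sum, map_smul, e1, smul_eq_mul, Yv, coeff_mk]
  by_cases hN : j ∣ N
  · obtain ⟨n, rfl⟩ := hN
    rw [Nat.mul_div_cancel_left _ (by omega : 0 < j)]
    simp only [dvd_mul_right, if_true, true_and]
    have e2 : ∀ g : Fin a, (ξ ^ (g : ℕ)) ^ (j * ((a - 1) * b)) *
        ((pd d n : ℂ) * (ξ ^ (g : ℕ) * ζ) ^ (j * n)) =
        (pd d n : ℂ) * ζ ^ (j * n) * (ξ ^ (j * ((a - 1) * b) + j * n)) ^ (g : ℕ) := by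
      intro g
      rw [← pow_mul ξ (j * ((a - 1) * b) + j * n), mul_comm (j * ((a - 1) * b) + j * n),
        pow_mul ξ, pow_add, mul_pow]
      ring
    simp only [e2]
    rw [← mul_sum, PGEN.geom a _ ξ hξ, sum_eq_single (j * n % M)]
    · simp only [PGEN.dvd_iff a b j n ha hc, true_and]
      rw [← pow_eq_pow_mod _ hζ]
      split_ifs
      · ring
      · simp
    · intro s _ hs
      rw [if_neg fun hh => hs hh.1.symm, mul_zero]
    · intro hs
      exact absurd (mem_range.2 (Nat.mod_lt _ (by omega))) hs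
  · simp [hN]

end

end Pool.Agent.P.MP_85b516_nt
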