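import Pool.Agent.P.MP_85b516_nt.Stmt

/-! Package JEN: the Jensen bound for a logarithm of a quotient of polynomially bounded series. -/

open PowerSeries Finset Metric Filter Topology

namespace Pool.Agent.P.MP_85b516_nt

namespace PJEN

lemma bnd {f : ℂ⟦X⟧} (hf : PB f) : ∃ (M : ℝ) (k : ℕ), 1 ≤ M ∧ ∀ (n : ℕ) (r : ℝ) (z : ℂ),
    ‖z‖ ≤ r → ‖coeff n f * z ^ n‖ ≤ M * (((n + k).choose k : ℝ) * r ^ n) := by
  obtain ⟨C, k, hC, h⟩ := hf.nonneg
  refine ⟨C * k.factorial + 1, k, by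
    have : 0 ≤ C * k.factorial := by positivity
    linarith, fun n r z hz => ?_⟩
  have hr : 0 ≤ r := (norm_nonneg z).trans hz
  have h1 : ((n : ℝ) + 1) ^ k ≤ k.factorial * ((n + k).choose k : ℝ) := by
    have := Nat.pow_succ_le_ascFactorial (n + 1) k
    rw [Nat.ascFactorial_eq_factorial_mul_choose] at this
    exact_mod_cast this
  have h2 : ‖coeff n f‖ ≤ (C * k.factorial + 1) * ((n + k).choose k : ℝ) := by
    refine (h n).trans ((mul_le_mul_of_nonneg_left h1 hC).trans ?_)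
    have : (0 : ℝ) ≤ ((n + k).choose k : ℝ) := by positivity
    nlinarith
  rw [norm_mul, norm_pow, ← mul_assoc]
  exact mul_le_mul h2 (pow_le_pow_left₀ (norm_nonneg z) hz n) (by positivity) (by positivity)

lemma hs (M : ℝ) (k : ℕ) {r : ℝ} (h0 : 0 ≤ r) (h1 : r < 1) :
    HasSum (fun n : ℕ => M * (((n + k).choose k : ℝ) * r ^ n)) (M * (1 / (1 - r) ^ (k + 1))) :=
  (hasSum_choose_mul_geometric_of_norm_lt_one k
    (by rwa [Real.norm_eq_abs, abs_of_nonneg h0])).mul_left M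

lemma summ {f : ℂ⟦X⟧} (hf : PB f) {z : ℂ} (hz : ‖z‖ < 1) :
    Summable fun n => ‖coeff n f * z ^ n‖ := by
  obtain ⟨M, k, -, h⟩ := bnd hf
  exact Summable.of_nonneg_of_le (fun _ => norm_nonneg _) (fun n => h n _ z le_rfl)
    (hs M k (norm_nonneg z) hz).summable

lemma ev_le {f : ℂ⟦X⟧} (hf : PB f) : ∃ (M : ℝ) (k : ℕ), 1 ≤ M ∧ ∀ z : ℂ, ‖z‖ < 1 →
    ‖ev f z‖ ≤ M * (1 / (1 - ‖z‖) ^ (k + 1)) := by
  obtain ⟨M, k, hM, h⟩ := bnd hf
  exact ⟨M, k, hM, fun z hz =>
    tsum_of_norm_bounded (hs M k (norm_nonneg z) hz) fun n => h n _ z le_rfl⟩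

lemma ev_mul {f g : ℂ⟦X⟧} (hf : PB f) (hg : PB g) {z : ℂ} (hz : ‖z‖ < 1) :
    ev (f * g) z = ev f z * ev g z := by
  unfold ev
  rw [tsum_mul_tsum_eq_tsum_sum_antidiagonal_of_summable_norm (summ hf hz) (summ hg hz)]
  refine tsum_congr fun n => ?_
  rw [coeff_mul, Finset.sum_mul]
  refine Finset.sum_congr rfl fun p hp => ?_
  rw [← mem_antidiagonal.1 hp, pow_add]
  ring

lemma ev_sub {f g : ℂ⟦X⟧} (hf : PB f) (hg : PB g) {z : ℂ} (hz : ‖z‖ < 1) :
    ev (f - g) z = ev f z - ev g z := by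
  unfold ev
  rw [← Summable.tsum_sub (summ hf hz).of_norm (summ hg hz).of_norm]
  refine tsum_congr fun n => ?_
  rw [map_sub, sub_mul]

lemma pb_der {f : ℂ⟦X⟧} (hf : PB f) : PB (d⁄dX ℂ f) := by
  obtain ⟨C, k, hC, h⟩ := hf.nonneg
  refine ⟨C * 2 ^ k, k + 1, fun n => ?_⟩
  have hn : (0 : ℝ) ≤ n := Nat.cast_nonneg n
  have e : ‖(n : ℂ) + 1‖ = (n : ℝ) + 1 := by
    have := Complex.norm_natCast (n + 1)
    push_cast at this
    exact this
  rw [coeff_derivative, norm_mul, e]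
  have h1 := h (n + 1)
  push_cast at h1
  have h2 : ((n : ℝ) + 1 + 1) ^ k ≤ (2 * ((n : ℝ) + 1)) ^ k :=
    pow_le_pow_left₀ (by positivity) (by linarith) k
  calc ‖coeff (n + 1) f‖ * ((n : ℝ) + 1) ≤ C * (2 * ((n : ℝ) + 1)) ^ k * ((n : ℝ) + 1) :=
        mul_le_mul_of_nonneg_right (h1.trans (mul_le_mul_of_nonneg_left h2 hC)) (by positivity)
    _ = _ := by rw [mul_pow]; ring

lemma ev_der {f : ℂ⟦X⟧} (hf : PB f) {z : ℂ} (hz : ‖z‖ < 1) :
    HasDerivAt (ev f) (ev (d⁄dX ℂ f) z) z := by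
  obtain ⟨M, k, -, h⟩ := bnd hf
  obtain ⟨r, hr1, hr2⟩ := exists_between hz
  have hr0 : 0 ≤ r := (norm_nonneg z).trans hr1.le
  have hz' : z ∈ ball (0 : ℂ) r := mem_ball_zero_iff.2 hr1
  have hd : ∀ n : ℕ, DifferentiableOn ℂ (fun w : ℂ => coeff n f * w ^ n) (ball 0 r) :=
    fun n => by fun_prop
  have hb : ∀ (n : ℕ) (w : ℂ), w ∈ ball (0 : ℂ) r →
      ‖coeff n f * w ^ n‖ ≤ M * (((n + k).choose k : ℝ) * r ^ n) :=
    fun n w hw => h n r w (mem_ball_zero_iff.1 hw).le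
  have h1 := Complex.differentiableOn_tsum_of_summable_norm (hs M k hr0 hr2).summable hd
    isOpen_ball hb
  have h2 := Complex.hasSum_deriv_of_summable_norm (hs M k hr0 hr2).summable hd isOpen_ball hb hz'
  have h3 : HasDerivAt (ev f) (deriv (ev f) z) z :=
    (h1.differentiableAt (isOpen_ball.mem_nhds hz')).hasDerivAt
  have h4 : ∀ n : ℕ, deriv (fun w : ℂ => coeff n f * w ^ n) z = coeff n f * (n * z ^ (n - 1)) :=
    fun n => ((hasDerivAt_pow n z).const_mul _).deriv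
  simp only [h4] at h2
  rw [← hasSum_nat_add_iff' 1] at h2
  simp only [Finset.range_one, Finset.sum_singleton, Nat.cast_zero, zero_mul, mul_zero, sub_zero,
    Nat.add_sub_cancel] at h2
  have h5 : ev (d⁄dX ℂ f) z = deriv (ev f) z := by
    have e : (fun n : ℕ => coeff n (d⁄dX ℂ f) * z ^ n) =
        fun n : ℕ => coeff (n + 1) f * (((n + 1 : ℕ) : ℂ) * z ^ n) := by
      funext n
      rw [coeff_derivative]
      push_cast
      ring
    exact (congrArg tsum e).trans h2.tsum_eq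
  rwa [h5]

lemma ev_an {f : ℂ⟦X⟧} (hf : PB f) : AnalyticOnNhd ℂ (ev f) (ball 0 1) :=
  DifferentiableOn.analyticOnNhd (fun _ hz =>
    (ev_der hf (mem_ball_zero_iff.1 hz)).differentiableAt.differentiableWithinAt) isOpen_ball

lemma ev_inj (n : ℕ) : ∀ {f : ℂ⟦X⟧}, PB f → (∀ z : ℂ, ‖z‖ < 1 → ev f z = 0) → coeff n f = 0 := by
  induction n with
  | zero =>
    intro f _ h
    have := h 0 (by simp)
    unfold ev at this
    rw [tsum_eq_single 0 (fun n hn => by simp [hn])] at this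
    simpa using this
  | succ n ih =>
    intro f hf h
    have h1 := ih (pb_der hf) fun z hz => by
      have e : ev f =ᶠ[𝓝 z] fun _ => 0 := by
        filter_upwards [isOpen_ball.mem_nhds (mem_ball_zero_iff.2 hz)] with w hw
        exact h w (mem_ball_zero_iff.1 hw)
      exact (ev_der hf hz).unique ((hasDerivAt_const z (0 : ℂ)).congr_of_eventuallyEq e)
    rw [coeff_derivative] at h1
    have h2 : (n : ℂ) + 1 ≠ 0 := by exact_mod_cast Nat.succ_ne_zero n
    exact (mul_eq_zero.1 h1).resolve_right h2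

lemma ev_ne {f : ℂ⟦X⟧} (hf : PB f) (h0 : f ≠ 0) : ∃ z : ℂ, ‖z‖ < 1 ∧ ev f z ≠ 0 := by
  by_contra h
  push Not at h
  exact h0 (PowerSeries.ext fun n => by simpa using ev_inj n hf h)

/-- The differential equation is solved by an exponential. -/
lemma solve {A B L : ℂ⟦X⟧} (hA : PB A) (hB : PB B) (hL : PB L) (a0 : A ≠ 0) (b0 : B ≠ 0)
    (h : A * th B - B * th A = A * B * th L) :
    ∃ κ : ℂ, κ ≠ 0 ∧ ∀ z : ℂ, ‖z‖ < 1 → ev B z * Complex.exp (-ev L z) = κ * ev A z := by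
  have h1 : A * d⁄dX ℂ B - B * d⁄dX ℂ A = A * B * d⁄dX ℂ L := by
    refine mul_left_cancel₀ (X_ne_zero (R := ℂ)) ?_
    simp only [th_eq] at h
    linear_combination h
  have h2 : ∀ z : ℂ, ‖z‖ < 1 → ev A z * ev (d⁄dX ℂ B) z - ev B z * ev (d⁄dX ℂ A) z =
      ev A z * ev B z * ev (d⁄dX ℂ L) z := fun z hz => by
    rw [← ev_mul hA (pb_der hB) hz, ← ev_mul hB (pb_der hA) hz, ← ev_mul hA hB hz,
      ← ev_mul (hA.mul hB) (pb_der hL) hz, ← h1,
      ev_sub (hA.mul (pb_der hB)) (hB.mul (pb_der hA)) hz]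
  obtain ⟨z0, hz0, ha0⟩ := ev_ne hA a0
  have hz0' : z0 ∈ ball (0 : ℂ) 1 := mem_ball_zero_iff.2 hz0
  have hev : ∀ᶠ w in 𝓝 z0, ‖w‖ < 1 ∧ ev A w ≠ 0 := by
    filter_upwards [isOpen_ball.mem_nhds hz0', (ev_der hA hz0).continuousAt.eventually_ne ha0]
      with w h1 h2
    exact ⟨mem_ball_zero_iff.1 h1, h2⟩
  obtain ⟨ε, hε, hb⟩ := Metric.eventually_nhds_iff_ball.1 hev
  have hd : ∀ w ∈ ball z0 ε,
      HasDerivAt (fun w => ev B w * Complex.exp (-ev L w) / ev A w) 0 w := fun w hw => by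
    obtain ⟨h3, h4⟩ := hb w hw
    have := ((ev_der hB h3).mul (ev_der hL h3).neg.cexp).div (ev_der hA h3) h4
    refine this.congr_deriv ?_
    rw [div_eq_zero_iff]
    left
    simp only [Pi.mul_apply, Pi.neg_apply]
    linear_combination Complex.exp (-ev L w) * h2 w h3
  obtain ⟨κ, hκ⟩ := isOpen_ball.exists_is_const_of_deriv_eq_zero
    (convex_ball z0 ε).isPreconnected
    (fun w hw => (hd w hw).differentiableAt.differentiableWithinAt) fun w hw => (hd w hw).deriv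
  have hall : Set.EqOn (fun w => ev B w * Complex.exp (-ev L w)) (fun w => κ * ev A w)
      (ball 0 1) := by
    refine AnalyticOnNhd.eqOn_of_preconnected_of_eventuallyEq
      (fun w hw => (ev_an hB w hw).mul (ev_an hL w hw).neg.cexp')
      (fun w hw => analyticAt_const.mul (ev_an hA w hw)) (convex_ball 0 1).isPreconnected hz0' ?_
    filter_upwards [ball_mem_nhds z0 hε] with w hw
    rw [← hκ w hw, div_mul_cancel₀ _ (hb w hw).2]
  refine ⟨κ, ?_, fun z hz => hall (mem_ball_zero_iff.2 hz)⟩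
  rintro rfl
  obtain ⟨z, hz, hz'⟩ := ev_ne hB b0
  have := hall (mem_ball_zero_iff.2 hz)
  simp only [zero_mul, mul_eq_zero, Complex.exp_ne_zero, or_false] at this
  exact hz' this

lemma an_cb {f : ℂ⟦X⟧} (hf : PB f) {r : ℝ} (h0 : 1 / 2 ≤ r) (h1 : r < 1) :
    AnalyticOnNhd ℂ (ev f) (closedBall 0 |r|) :=
  (ev_an hf).mono (closedBall_subset_ball (by rwa [abs_of_pos (by linarith)]))

lemma ci {f : ℂ⟦X⟧} (hf : PB f) {r : ℝ} (h0 : 1 / 2 ≤ r) (h1 : r < 1) :
    CircleIntegrable (fun z => Real.log ‖ev f z‖) 0 r :=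
  ((an_cb hf h0 h1).mono sphere_subset_closedBall).meromorphicOn.circleIntegrable_log_norm

/-- Lower bound from Jensen's formula. -/
lemma jen_low {f : ℂ⟦X⟧} (hf : PB f) : ∃ K : ℝ, 0 ≤ K ∧ ∀ r : ℝ, 1 / 2 ≤ r → r < 1 →
    -K ≤ Real.circleAverage (fun z => Real.log ‖ev f z‖) 0 r := by
  refine ⟨|(((meromorphicOrderAt (ev f) 0).untop₀ : ℤ) : ℝ)| +
    |Real.log ‖meromorphicTrailingCoeffAt (ev f) 0‖|, by positivity, fun r h0 h1 => ?_⟩
  have hr : 0 < r := by linarith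
  have ha := an_cb hf h0 h1
  rw [ha.meromorphicOn.circleAverage_log_norm hr.ne',
    MeromorphicOn.divisor_apply ha.meromorphicOn (mem_closedBall_self (abs_nonneg r))]
  have e1 : 0 ≤ ∑ᶠ u, (MeromorphicOn.divisor (ev f) (closedBall 0 |r|) u : ℝ) *
      Real.log (r * ‖(0 : ℂ) - u‖⁻¹) := by
    refine finsum_nonneg fun u => ?_
    by_cases hu : u ∈ closedBall (0 : ℂ) |r|
    · refine mul_nonneg (by exact_mod_cast MeromorphicOn.AnalyticOnNhd.divisor_nonneg ha u) ?_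
      rcases eq_or_ne u 0 with rfl | hu0
      · simp
      · rw [mem_closedBall_zero_iff, abs_of_pos hr] at hu
        rw [zero_sub, norm_neg, ← div_eq_mul_inv]
        exact Real.log_nonneg ((one_le_div (norm_pos_iff.2 hu0)).2 hu)
    · rw [Function.locallyFinsuppWithin.apply_eq_zero_of_notMem _ hu]
      simp
  have e2 : |Real.log r| ≤ 1 := by
    rw [abs_of_nonpos (Real.log_nonpos hr.le h1.le), ← Real.log_inv]
    have : r⁻¹ ≤ 2 := by
      rw [inv_le_comm₀ hr two_pos]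
      linarith
    linarith [Real.log_le_sub_one_of_pos (inv_pos.2 hr)]
  have e3 := neg_abs_le ((((meromorphicOrderAt (ev f) 0).untop₀ : ℤ) : ℝ) * Real.log r)
  rw [abs_mul] at e3
  have e4 := mul_le_mul_of_nonneg_left e2
    (abs_nonneg (((meromorphicOrderAt (ev f) 0).untop₀ : ℤ) : ℝ))
  have e5 := neg_abs_le (Real.log ‖meromorphicTrailingCoeffAt (ev f) 0‖)
  linarith

lemma jen_abs {f : ℂ⟦X⟧} (hf : PB f) : ∃ C : ℝ, 0 ≤ C ∧ ∀ r : ℝ, 1 / 2 ≤ r → r < 1 →
    Real.circleAverage (fun z => |Real.log ‖ev f z‖|) 0 r ≤ C * (1 + Real.log (1 / (1 - r))) := by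
  obtain ⟨K, hK, h⟩ := jen_low hf
  obtain ⟨M, k, hM, hb⟩ := ev_le hf
  have hM' := Real.log_nonneg hM
  refine ⟨K + 2 * Real.log M + 2 * (k + 1), by positivity, fun r h0 h1 => ?_⟩
  have hr : 0 < r := by linarith
  have hr1 : 0 < 1 - r := by linarith
  have hl : 0 ≤ Real.log (1 / (1 - r)) :=
    Real.log_nonneg ((one_le_div hr1).2 (by linarith))
  set U := Real.log M + (k + 1) * Real.log (1 / (1 - r)) with hU
  have hU0 : 0 ≤ U := by positivity
  have hi := ci hf h0 h1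
  have e1 : Real.circleAverage (fun z => |Real.log ‖ev f z‖|) 0 r ≤
      Real.circleAverage (fun z => 2 * U - Real.log ‖ev f z‖) 0 r := by
    refine Real.circleAverage_mono hi.abs ((circleIntegrable_const _ _ _).sub hi) fun z hz => ?_
    rw [mem_sphere_zero_iff_norm, abs_of_pos hr] at hz
    have e2 : Real.log ‖ev f z‖ ≤ U := by
      rcases (norm_nonneg (ev f z)).eq_or_lt with h2 | h2
      · rw [← h2, Real.log_zero]
        exact hU0
      · have h3 := hb z (by rw [hz]; exact h1)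
        rw [hz, ← one_div_pow] at h3
        refine (Real.log_le_log h2 h3).trans_eq ?_
        rw [Real.log_mul (by linarith) (by positivity), Real.log_pow]
        push_cast
        rfl
    exact abs_le.2 ⟨by linarith, by linarith⟩
  rw [Real.circleAverage_fun_sub (circleIntegrable_const _ _ _) hi, Real.circleAverage_const] at e1
  have e3 := h r h0 h1
  have e4 : 0 ≤ (K + 2 * Real.log M) * Real.log (1 / (1 - r)) := by positivity
  have e5 : (0 : ℝ) ≤ k := Nat.cast_nonneg k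
  nlinarith

end PJEN

open PJEN in
theorem s_jen : S_Jen := by
  intro A B L hA hB hL a0 b0 h
  obtain ⟨κ, hκ, hs⟩ := solve hA hB hL a0 b0 h
  obtain ⟨CA, -, ha⟩ := jen_abs hA
  obtain ⟨CB, -, hb⟩ := jen_abs hB
  refine ⟨CA + CB + |Real.log ‖κ‖|, fun r h0 h1 => ?_⟩
  have hr : 0 < r := by linarith
  have hl : 0 ≤ Real.log (1 / (1 - r)) :=
    Real.log_nonneg ((one_le_div (by linarith)).2 (by linarith))
  have hsub : sphere (0 : ℂ) |r| ⊆ ball 0 1 :=
    sphere_subset_ball (by rwa [abs_of_pos hr])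
  have hne : ∀ᶠ z in codiscreteWithin (ball (0 : ℂ) 1), ev A z ≠ 0 := by
    refine ((ev_an hA).eqOn_zero_or_eventually_ne_zero_of_preconnected
      (convex_ball 0 1).isPreconnected).resolve_left fun h2 => ?_
    obtain ⟨z, hz, hz'⟩ := ev_ne hA a0
    exact hz' (h2 (mem_ball_zero_iff.2 hz))
  have e1 : (fun z => |(ev L z).re|) =ᶠ[codiscreteWithin (sphere (0 : ℂ) |r|)]
      fun z => |Real.log ‖ev B z‖ - Real.log ‖κ‖ - Real.log ‖ev A z‖| := by
    filter_upwards [Filter.codiscreteWithin_mono hsub hne, self_mem_codiscreteWithin _]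
      with z h2 h3
    have h4 := hs z (mem_ball_zero_iff.1 (hsub h3))
    have h5 : ev B z ≠ 0 := by
      intro h5
      rw [h5, zero_mul] at h4
      exact mul_ne_zero hκ h2 h4.symm
    have h6 := congrArg (fun w : ℂ => Real.log ‖w‖) h4
    simp only [norm_mul, Complex.norm_exp, Complex.neg_re] at h6
    rw [Real.log_mul (norm_ne_zero_iff.2 h5) (Real.exp_ne_zero _), Real.log_exp,
      Real.log_mul (norm_ne_zero_iff.2 hκ) (norm_ne_zero_iff.2 h2)] at h6
    congr 1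
    linarith
  have ia := ci hA h0 h1
  have ib := ci hB h0 h1
  have ic : ∀ t : ℝ, CircleIntegrable (fun _ : ℂ => t) 0 r := fun t => circleIntegrable_const t 0 r
  rw [Real.circleAverage_congr_codiscreteWithin e1 hr.ne']
  have e2 : Real.circleAverage
      (fun z => |Real.log ‖ev B z‖ - Real.log ‖κ‖ - Real.log ‖ev A z‖|) 0 r ≤
      Real.circleAverage
        (fun z => |Real.log ‖ev B z‖| + |Real.log ‖κ‖| + |Real.log ‖ev A z‖|) 0 r :=
    Real.circleAverage_mono ((ib.sub (ic _)).sub ia).abs ((ib.abs.add (ic _)).add ia.abs)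
      fun z _ => (abs_sub _ _).trans (add_le_add_left (abs_sub _ _) _)
  have ia' : CircleIntegrable (fun z => |Real.log ‖ev A z‖|) 0 r := ia.abs
  have ib' : CircleIntegrable (fun z => |Real.log ‖ev B z‖|) 0 r := ib.abs
  have ibc : CircleIntegrable (fun z => |Real.log ‖ev B z‖| + |Real.log ‖κ‖|) 0 r :=
    ib'.add (ic _)
  rw [Real.circleAverage_fun_add ibc ia', Real.circleAverage_fun_add ib' (ic _),
    Real.circleAverage_const] at e2
  have e3 := ha r h0 h1
  have e4 := hb r h0 h1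
  have e5 := mul_nonneg (abs_nonneg (Real.log ‖κ‖)) hl
  nlinarith

end Pool.Agent.P.MP_85b516_nt
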