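import Pool.Agent.P.MP_85b516_nt.Stmt

/-! Package KAH: non-degeneracy gives algebraicity (Kaehler differentials). -/

open PowerSeries Finset

namespace Pool.Agent.P.MP_85b516_nt

namespace PKAH

/-- If all derivations of a finitely generated field extension kill the generators,
then the generators are algebraic. -/
lemma alg_of_der {K Om : Type} [Field K] [Field Om] [Algebra K Om] (S : Set Om) (hS : S.Finite)
    (h : ∀ D : Derivation K (IntermediateField.adjoin K S) (IntermediateField.adjoin K S),
      ∀ x (hx : x ∈ S), D ⟨x, IntermediateField.subset_adjoin K S hx⟩ = 0) :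
    ∀ x ∈ S, IsAlgebraic K x := by
  have hall : ∀ D : Derivation K (IntermediateField.adjoin K S) (IntermediateField.adjoin K S),
      ∀ a, D a = 0 := by
    intro D a
    obtain ⟨a, ha⟩ := a
    induction ha using IntermediateField.adjoin_induction with
    | mem x hx => exact h D x hx
    | algebraMap x => exact D.map_algebraMap x
    | add x y hx hy h1 h2 =>
      have e : (⟨x + y, add_mem hx hy⟩ : IntermediateField.adjoin K S) = ⟨x, hx⟩ + ⟨y, hy⟩ := rfl
      rw [e, map_add, h1, h2, add_zero]
    | inv x hx h1 =>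
      have e : (⟨x⁻¹, inv_mem hx⟩ : IntermediateField.adjoin K S) = (⟨x, hx⟩)⁻¹ := rfl
      rw [e, Derivation.leibniz_inv, h1, smul_zero]
    | mul x y hx hy h1 h2 =>
      have e : (⟨x * y, mul_mem hx hy⟩ : IntermediateField.adjoin K S) = ⟨x, hx⟩ * ⟨y, hy⟩ := rfl
      rw [e, Derivation.leibniz, h1, h2, smul_zero, smul_zero, add_zero]
  have hD : ∀ a, KaehlerDifferential.D K (IntermediateField.adjoin K S) a = 0 := by
    intro a
    rw [← Module.forall_dual_apply_eq_zero_iff (IntermediateField.adjoin K S)]
    intro f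
    exact hall (LinearMap.compDer f (KaehlerDifferential.D K _)) a
  have hsub : Subsingleton (KaehlerDifferential K (IntermediateField.adjoin K S)) := by
    have h1 := KaehlerDifferential.span_range_derivation K (IntermediateField.adjoin K S)
    have h2 : Submodule.span (IntermediateField.adjoin K S)
        (Set.range (KaehlerDifferential.D K (IntermediateField.adjoin K S))) = ⊥ := by
      rw [Submodule.span_eq_bot]
      rintro _ ⟨a, rfl⟩
      exact hD a
    rw [h2] at h1
    exact (Submodule.subsingleton_iff _).1 (subsingleton_of_bot_eq_top h1)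
  have hu : Algebra.FormallyUnramified K (IntermediateField.adjoin K S) := ⟨hsub⟩
  have hfin : Algebra.EssFiniteType K (IntermediateField.adjoin K S) :=
    IntermediateField.essFiniteType_iff.2 (IntermediateField.fg_adjoin_of_finite hS)
  have hsep : Algebra.IsSeparable K (IntermediateField.adjoin K S) :=
    (Algebra.FormallyUnramified.iff_isSeparable K _).1 hu
  intro x hx
  have h3 : IsAlgebraic K (⟨x, IntermediateField.subset_adjoin K S hx⟩ :
      IntermediateField.adjoin K S) := (Algebra.IsSeparable.isIntegral K _).isAlgebraic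
  exact IntermediateField.isAlgebraic_iff.1 h3

/-- Logarithmic derivative of a monomial. -/
lemma der_prod {K L V : Type} [Field K] [Field L] [Algebra K L] (D : Derivation K L L)
    (y : V → L) (hy : ∀ v, y v ≠ 0) (n : V → ℕ) (s : Finset V) :
    D (∏ v ∈ s, y v ^ n v) = (∏ v ∈ s, y v ^ n v) * ∑ v ∈ s, (n v : L) * (D (y v) / y v) := by
  classical
  induction s using Finset.induction_on with
  | empty => simp
  | insert a s ha ih =>
    rw [Finset.prod_insert ha, Finset.sum_insert ha, Derivation.leibniz, ih,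
      Derivation.leibniz_pow]
    have h1 := hy a
    rcases Nat.eq_zero_or_pos (n a) with h0 | h0
    · simp [h0]
    · obtain ⟨m, hm⟩ : ∃ m, n a = m + 1 := ⟨n a - 1, by omega⟩
      rw [hm]
      simp only [smul_eq_mul, nsmul_eq_mul, Nat.add_sub_cancel, pow_succ]
      field_simp
      ring

/-- Derivations kill roots of unity. -/
lemma der_root {K L : Type} [Field K] [Field L] [CharZero L] [Algebra K L] (D : Derivation K L L)
    (z : L) (M : ℕ) (hM : 1 ≤ M) (hz : z ^ M = 1) : D z = 0 := by
  have h1 := D.leibniz_pow (a := z) M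
  rw [hz, Derivation.map_one_eq_zero, smul_eq_mul, nsmul_eq_mul] at h1
  have hz0 : z ≠ 0 := by
    rintro rfl
    rw [zero_pow (by omega)] at hz
    exact zero_ne_one hz
  have hM0 : (M : L) ≠ 0 := by exact_mod_cast (by omega : M ≠ 0)
  rcases mul_eq_zero.1 h1.symm with h | h
  · exact absurd h hM0
  · rcases mul_eq_zero.1 h with h | h
    · exact absurd h (pow_ne_zero _ hz0)
    · exact h

/-- The statement over a base field. -/
lemma core {K Om V R E : Type} [Field K] [Field Om] [CharZero Om] [Algebra K Om] [Fintype V]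
    (Y : V → Om) (ρ : R → V → ℤ) (k : E → V → Om) (M : ℕ) (hM : 1 ≤ M) (hY : ∀ v, Y v ≠ 0)
    (hρ : ∀ r, ∏ v, Y v ^ (ρ r v).toNat = ∏ v, Y v ^ (-ρ r v).toNat)
    (hk : ∀ e v, k e v = 0 ∨ k e v ^ M = 1)
    (hrel : ∀ e, ∃ (z : Om) (c : ℕ → K), z ^ M = 1 ∧
      ∑ v, k e v * Y v = ∑ s ∈ range M, z ^ s * algebraMap K Om (c s))
    (hnd : ∀ δ : V → Om, (∀ r, ∑ v, (ρ r v : Om) * δ v = 0) →
      (∀ e, ∑ v, k e v * Y v * δ v = 0) → δ = 0) :
    ∀ v, IsAlgebraic K (Y v) := by
  classical
  let S : Set Om := Set.range Y ∪ {z | z ^ M = 1}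
  have hS : S.Finite := by
    refine (Set.finite_range Y).union ?_
    refine (Polynomial.nthRoots M (1 : Om)).toFinset.finite_toSet.subset ?_
    intro z hz
    simp only [Finset.mem_coe, Multiset.mem_toFinset]
    exact (Polynomial.mem_nthRoots (by omega)).2 hz
  have hmain := alg_of_der (K := K) S hS ?_
  · exact fun v => hmain _ (Or.inl ⟨v, rfl⟩)
  intro D
  have hroot : ∀ (z : Om) (hz : z ∈ IntermediateField.adjoin K S), z ^ M = 1 → D ⟨z, hz⟩ = 0 :=
    fun z hz h => der_root D _ M hM (Subtype.ext (by simpa using h))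
  have hYm : ∀ v, Y v ∈ IntermediateField.adjoin K S :=
    fun v => IntermediateField.subset_adjoin K S (Or.inl ⟨v, rfl⟩)
  have hrm : ∀ z : Om, z ^ M = 1 → z ∈ IntermediateField.adjoin K S :=
    fun z hz => IntermediateField.subset_adjoin K S (Or.inr hz)
  have hkm : ∀ e v, k e v ∈ IntermediateField.adjoin K S := fun e v => by
    rcases hk e v with h | h
    · rw [h]; exact zero_mem _
    · exact hrm _ h
  let y : V → IntermediateField.adjoin K S := fun v => ⟨Y v, hYm v⟩
  let kk : E → V → IntermediateField.adjoin K S := fun e v => ⟨k e v, hkm e v⟩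
  have hy : ∀ v, y v ≠ 0 := fun v h => hY v (congrArg Subtype.val h)
  have hkk : ∀ e v, D (kk e v) = 0 := fun e v => by
    rcases hk e v with h | h
    · have : kk e v = 0 := Subtype.ext h
      rw [this, map_zero]
    · exact hroot _ _ h
  let dl : V → IntermediateField.adjoin K S := fun v => D (y v) / y v
  have hz : (fun v => (dl v : Om)) = 0 := by
    apply hnd
    · intro r
      have e1 : ∏ v, y v ^ (ρ r v).toNat = ∏ v, y v ^ (-ρ r v).toNat := by
        apply Subtype.ext
        simpa [y] using hρ r
      have e2 := der_prod D y hy (fun v => (ρ r v).toNat) univ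
      have e3 := der_prod D y hy (fun v => (-ρ r v).toNat) univ
      rw [e1, e3] at e2
      have e4 := mul_left_cancel₀
        (Finset.prod_ne_zero_iff.2 fun v _ => pow_ne_zero _ (hy v)) e2
      have e5 : ∑ v, ((ρ r v : ℤ) : IntermediateField.adjoin K S) * dl v = 0 := by
        have : ∀ v, ((ρ r v : ℤ) : IntermediateField.adjoin K S) * dl v =
            (((ρ r v).toNat : ℕ) : IntermediateField.adjoin K S) * dl v -
              (((-ρ r v).toNat : ℕ) : IntermediateField.adjoin K S) * dl v := fun v => by
          rw [← sub_mul]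
          congr 1
          have := Int.toNat_sub_toNat_neg (ρ r v)
          rw [← Int.cast_natCast, ← Int.cast_natCast (R := IntermediateField.adjoin K S)
            (-ρ r v).toNat, ← Int.cast_sub, this]
        rw [Finset.sum_congr rfl fun v _ => this v, Finset.sum_sub_distrib]
        exact sub_eq_zero.2 e4.symm
      have e6 := congrArg (Subtype.val : IntermediateField.adjoin K S → Om) e5
      simpa using e6
    · intro e
      obtain ⟨z, c, hz, hzc⟩ := hrel e
      let zz : IntermediateField.adjoin K S := ⟨z, hrm z hz⟩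
      have e1 : ∑ v, kk e v * y v =
          ∑ s ∈ range M, zz ^ s * algebraMap K (IntermediateField.adjoin K S) (c s) := by
        apply Subtype.ext
        simpa [y, kk, zz] using hzc
      have hzz : D zz = 0 := hroot _ _ hz
      have e2 := congrArg D e1
      rw [map_sum, map_sum] at e2
      have e3 : ∑ s ∈ range M, D (zz ^ s * algebraMap K (IntermediateField.adjoin K S) (c s))
          = 0 := Finset.sum_eq_zero fun s _ => by
        rw [Derivation.leibniz, Derivation.map_algebraMap, Derivation.leibniz_pow, hzz]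
        simp
      have e4 : ∑ v, kk e v * y v * dl v = 0 := by
        rw [← e3, ← e2]
        refine Finset.sum_congr rfl fun v _ => ?_
        rw [Derivation.leibniz, hkk, smul_zero, add_zero, smul_eq_mul]
        have := hy v
        simp only [dl]
        field_simp
      have e6 := congrArg (Subtype.val : IntermediateField.adjoin K S → Om) e4
      simpa [y, kk] using e6
  intro x hx
  rcases hx with ⟨v, rfl⟩ | hx
  · have h1 : (dl v : Om) = 0 := congrFun hz v
    have h2 : dl v = 0 := Subtype.ext h1
    rcases div_eq_zero_iff.1 h2 with h | h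
    · exact h
    · exact absurd h (hy v)
  · exact hroot _ _ hx

/-- The statement over a base domain. -/
lemma core2 {A Om V R E : Type} [CommRing A] [IsDomain A] [Field Om] [CharZero Om] [Fintype V]
    (φ : A →+* Om) (hφ : Function.Injective φ)
    (Y : V → Om) (ρ : R → V → ℤ) (k : E → V → Om) (M : ℕ) (hM : 1 ≤ M) (hY : ∀ v, Y v ≠ 0)
    (hρ : ∀ r, ∏ v, Y v ^ (ρ r v).toNat = ∏ v, Y v ^ (-ρ r v).toNat)
    (hk : ∀ e v, k e v = 0 ∨ k e v ^ M = 1)
    (hrel : ∀ e, ∃ (z : Om) (c : ℕ → A), z ^ M = 1 ∧
      ∑ v, k e v * Y v = ∑ s ∈ range M, z ^ s * φ (c s))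
    (hnd : ∀ δ : V → Om, (∀ r, ∑ v, (ρ r v : Om) * δ v = 0) →
      (∀ e, ∑ v, k e v * Y v * δ v = 0) → δ = 0) :
    ∀ v, ∃ q : Polynomial A, q ≠ 0 ∧ q.eval₂ φ (Y v) = 0 := by
  letI : Algebra A Om := φ.toAlgebra
  haveI : FaithfulSMul A Om := (faithfulSMul_iff_algebraMap_injective A Om).2 hφ
  letI : Algebra (FractionRing A) Om := FractionRing.liftAlgebra A Om
  haveI : IsScalarTower A (FractionRing A) Om := FractionRing.isScalarTower_liftAlgebra A Om
  have h := core (K := FractionRing A) Y ρ k M hM hY hρ hk (fun e => by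
    obtain ⟨z, c, hz, hc⟩ := hrel e
    refine ⟨z, fun s => algebraMap A (FractionRing A) (c s), hz, ?_⟩
    rw [hc]
    refine Finset.sum_congr rfl fun s _ => ?_
    rw [← IsScalarTower.algebraMap_apply]
    rfl) hnd
  intro v
  obtain ⟨q, hq, hq'⟩ := (IsFractionRing.isAlgebraic_iff A (FractionRing A) Om).2 (h v)
  exact ⟨q, hq, hq'⟩

end PKAH

theorem s_kah : S_Kah := by
  intro B P V R E _ y ρ κ M hM hP hy hρ hκ hrel hnd
  let ι : ℂ⟦X⟧ →+* FractionRing ℂ⟦X⟧ := algebraMap ℂ⟦X⟧ (FractionRing ℂ⟦X⟧)
  have hι : Function.Injective ι := IsFractionRing.injective _ _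
  let ψ : ℤ⟦X⟧ →+* FractionRing ℂ⟦X⟧ := ι.comp (PowerSeries.map (Int.castRingHom ℂ))
  have hψ : Function.Injective ψ := by
    refine hι.comp ?_
    intro f g hfg
    ext n
    have := congrArg (coeff n) hfg
    simpa using this
  let γ : ℂ →+* FractionRing ℂ⟦X⟧ := ι.comp (PowerSeries.C (R := ℂ))
  have hγ : ∀ (a : ℂ) (f : ℂ⟦X⟧), ι (a • f) = γ a * ι f := fun a f => by
    rw [PowerSeries.smul_eq_C_mul, map_mul]
    rfl
  haveI : CharZero (FractionRing ℂ⟦X⟧) := (RingHom.charZero_iff γ.injective).1 inferInstance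
  have h := PKAH.core2 (ψ.comp B.subtype) (hψ.comp Subtype.val_injective) (fun v => ι (y v)) ρ
    (fun e v => γ (κ e v)) M hM (fun v h => hy v (hι (by rw [h, map_zero])))
    (fun r => by
      have := congrArg ι (hρ r)
      simpa only [map_prod, map_pow] using this)
    (fun e v => by
      rcases hκ e v with h | h
      · exact Or.inl (by rw [h, map_zero])
      · exact Or.inr (by rw [← map_pow, h, map_one]))
    (fun e => by
      obtain ⟨z, h, hz, hB, hs⟩ := hrel e
      refine ⟨γ z, fun s => ⟨h s, hB s⟩, by rw [← map_pow, hz, map_one], ?_⟩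
      have := congrArg ι hs
      rw [map_sum, map_sum] at this
      simp only [hγ, map_pow] at this
      exact this)
    (fun δ h1 h2 => hnd δ h1 fun e => by
      have := h2 e
      simp only [← hγ] at this
      exact this)
  obtain ⟨v, hv⟩ := hP
  obtain ⟨q, hq, hq'⟩ := h v
  refine ⟨q.map B.subtype, ?_, fun i => ?_, ?_⟩
  · exact (Polynomial.map_ne_zero_iff Subtype.val_injective).2 hq
  · rw [Polynomial.coeff_map]
    exact (q.coeff i).2
  · apply hψ
    rw [map_zero, ← Polynomial.eval₂_hom, Polynomial.eval₂_map]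
    have : ψ P = ι (y v) := by rw [hv]; rfl
    rw [this]
    exact hq'

end Pool.Agent.P.MP_85b516_nt
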