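import Pool.Agent.P.MP_85b516_nt.Stmt

/-! The lower bound for the mean of the real part. -/

open PowerSeries Finset Module Filter Topology

namespace Pool.Agent.P.MP_85b516_nt

noncomputable section

namespace PLOW

lemma bd (n k : ℕ) : ((n : ℝ) + 1) ^ k ≤ (k.factorial : ℝ) * ((n + k).choose k : ℝ) := by
  have h := Nat.pow_succ_le_ascFactorial (n + 1) k
  rw [Nat.ascFactorial_eq_factorial_mul_choose] at h
  exact_mod_cast h

lemma term_le {L : ℂ⟦X⟧} {C : ℝ} {k : ℕ} (hC : 0 ≤ C)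
    (h : ∀ n, ‖coeff n L‖ ≤ C * ((n : ℝ) + 1) ^ k) (n : ℕ) (z : ℂ) :
    ‖coeff n L * z ^ n‖ ≤ C * k.factorial * (((n + k).choose k : ℝ) * ‖z‖ ^ n) := by
  rw [norm_mul, norm_pow]
  calc ‖coeff n L‖ * ‖z‖ ^ n ≤ (C * ((k.factorial : ℝ) * ((n + k).choose k : ℝ))) * ‖z‖ ^ n :=
        mul_le_mul_of_nonneg_right ((h n).trans (mul_le_mul_of_nonneg_left (bd n k) hC))
          (by positivity)
    _ = _ := by ring

lemma cont {L : ℂ⟦X⟧} (hL : PB L) {r : ℝ} (h0 : 0 ≤ r) (h1 : r < 1) :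
    ContinuousOn (ev L) (Metric.sphere 0 r) := by
  obtain ⟨C, k, hC, h⟩ := hL.nonneg
  have h2 : ‖r‖ < 1 := by rwa [Real.norm_of_nonneg h0]
  have h3 : Summable fun n : ℕ => C * k.factorial * (((n + k).choose k : ℝ) * r ^ n) :=
    (summable_choose_mul_geometric_of_norm_lt_one k h2).mul_left _
  have h4 : ∀ n : ℕ, ContinuousOn (fun z : ℂ => coeff n L * z ^ n) (Metric.sphere 0 r) := by
    intro n
    fun_prop
  have h5 : ∀ (n : ℕ) (z : ℂ), z ∈ Metric.sphere (0 : ℂ) r → ‖coeff n L * z ^ n‖ ≤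
      C * k.factorial * (((n + k).choose k : ℝ) * r ^ n) := by
    intro n z hz
    have hz' : ‖z‖ = r := by simpa using hz
    have := term_le hC h n z
    rwa [hz'] at this
  exact continuousOn_tsum h4 h3 h5

lemma tail {L : ℂ⟦X⟧} {C : ℝ} {k : ℕ} (hC : 0 ≤ C)
    (h : ∀ n, ‖coeff n L‖ ≤ C * ((n : ℝ) + 1) ^ k) (hL0 : coeff 0 L = 0) {ρ : ℝ} (h0 : 0 ≤ ρ)
    (h1 : ρ < 1) (D : ℕ) {z : ℂ} (hz : ‖z‖ = ρ ^ 2) :
    ‖ev L z - ∑ N ∈ Icc 1 D, coeff N L * z ^ N‖ ≤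
      ρ ^ D * (C * k.factorial) * (1 / (1 - ρ) ^ (k + 1)) := by
  have hρ : ‖ρ‖ < 1 := by rwa [Real.norm_of_nonneg h0]
  have hz1 : ‖‖z‖‖ < 1 := by
    rw [norm_norm, hz]
    nlinarith
  have hs : Summable fun n => coeff n L * z ^ n :=
    Summable.of_norm_bounded ((summable_choose_mul_geometric_of_norm_lt_one k hz1).mul_left _)
      fun n => term_le hC h n z
  have hfin : HasSum (fun n => if n ∈ Icc 1 D then coeff n L * z ^ n else 0)
      (∑ N ∈ Icc 1 D, coeff N L * z ^ N) := by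
    have := hasSum_sum_of_ne_finset_zero (L := SummationFilter.unconditional ℕ)
      (f := fun n => if n ∈ Icc 1 D then coeff n L * z ^ n else 0) (s := Icc 1 D)
      (fun n hn => if_neg hn)
    rwa [Finset.sum_congr rfl fun n hn => if_pos hn] at this
  refine (hs.hasSum.sub hfin).norm_le_of_bounded
    ((hasSum_choose_mul_geometric_of_norm_lt_one k hρ).mul_left (ρ ^ D * (C * k.factorial)))
    fun n => ?_
  split_ifs with hn
  · rw [sub_self, norm_zero]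
    positivity
  · rw [sub_zero]
    rcases Nat.eq_zero_or_pos n with rfl | hpos
    · rw [hL0, zero_mul, norm_zero]
      positivity
    · have hD : D ≤ n := by
        rw [Finset.mem_Icc] at hn
        omega
      have e : ρ ^ n ≤ ρ ^ D := pow_le_pow_of_le_one h0 h1.le hD
      calc _ ≤ C * k.factorial * (((n + k).choose k : ℝ) * ‖z‖ ^ n) := term_le hC h n z
        _ = ρ ^ n * (C * k.factorial * (((n + k).choose k : ℝ) * ρ ^ n)) := by
          rw [hz, ← pow_mul, two_mul, pow_add]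
          ring
        _ ≤ ρ ^ D * (C * k.factorial * (((n + k).choose k : ℝ) * ρ ^ n)) :=
          mul_le_mul_of_nonneg_right e (by positivity)
        _ = _ := by ring

lemma sq_le {F s G : ℝ} (hs : 0 < s) (hG : |F| ≤ G) : F ^ 2 ≤ s * |F| + G ^ 4 / s ^ 2 := by
  have h0 := abs_nonneg F
  have hG0 : 0 ≤ G := h0.trans hG
  rw [← sq_abs]
  rcases le_total |F| s with h | h
  · have : 0 ≤ G ^ 4 / s ^ 2 := by positivity
    nlinarith
  · have h4 : |F| ^ 4 ≤ G ^ 4 := pow_le_pow_left₀ h0 hG 4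
    have : |F| ^ 2 ≤ G ^ 4 / s ^ 2 := by
      rw [le_div_iff₀ (by positivity)]
      have : s ^ 2 ≤ |F| ^ 2 := pow_le_pow_left₀ hs.le h 2
      nlinarith [sq_nonneg (|F|)]
    have : 0 ≤ s * |F| := by positivity
    linarith

/-- The basic inequality on one circle. -/
lemma basic {L : ℂ⟦X⟧} (hL : PB L) {r s : ℝ} (h0 : 0 < r) (h1 : r < 1) (hs : 0 < s) (D : ℕ)
    (ht : ∀ z : ℂ, ‖z‖ = r → ‖ev L z - ∑ N ∈ Icc 1 D, coeff N L * z ^ N‖ ≤ 1) :
    Real.circleAverage (fun z => (∑ N ∈ Icc 1 D, coeff N L * z ^ N).re ^ 2) 0 r ≤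
      s * (Real.circleAverage (fun z => |(ev L z).re|) 0 r + 1) +
        Real.circleAverage (fun z => ‖∑ N ∈ Icc 1 D, coeff N L * z ^ N‖ ^ 4) 0 r / s ^ 2 := by
  have hc := cont hL h0.le h1
  have i1 : CircleIntegrable (fun z => |(ev L z).re|) 0 r :=
    (Complex.continuous_re.comp_continuousOn hc).abs.circleIntegrable h0.le
  have i2 : CircleIntegrable (fun z => ‖∑ N ∈ Icc 1 D, coeff N L * z ^ N‖ ^ 4) 0 r :=
    ContinuousOn.circleIntegrable h0.le (by fun_prop)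
  have i3 : CircleIntegrable (fun z => (∑ N ∈ Icc 1 D, coeff N L * z ^ N).re ^ 2) 0 r :=
    ContinuousOn.circleIntegrable h0.le (by fun_prop)
  have i4 : CircleIntegrable (fun z => |(ev L z).re| + 1) 0 r :=
    i1.add (circleIntegrable_const _ _ _)
  have i5 : CircleIntegrable (fun z => s • (|(ev L z).re| + 1)) 0 r := i4.const_smul
  have i6 : CircleIntegrable
      (fun z => (s ^ 2)⁻¹ • ‖∑ N ∈ Icc 1 D, coeff N L * z ^ N‖ ^ 4) 0 r := i2.const_smul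
  have e : s * (Real.circleAverage (fun z => |(ev L z).re|) 0 r + 1) +
      Real.circleAverage (fun z => ‖∑ N ∈ Icc 1 D, coeff N L * z ^ N‖ ^ 4) 0 r / s ^ 2 =
      Real.circleAverage (fun z => s • (|(ev L z).re| + 1) +
        (s ^ 2)⁻¹ • ‖∑ N ∈ Icc 1 D, coeff N L * z ^ N‖ ^ 4) 0 r := by
    rw [Real.circleAverage_fun_add i5 i6, Real.circleAverage_fun_smul, Real.circleAverage_fun_smul,
      Real.circleAverage_fun_add i1 (circleIntegrable_const _ _ _), Real.circleAverage_const]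
    simp only [smul_eq_mul]
    ring
  rw [e]
  refine Real.circleAverage_mono i3 (i5.add i6) fun z hz => ?_
  have hz' : ‖z‖ = r := by simpa [abs_of_pos h0] using hz
  set p := ∑ N ∈ Icc 1 D, coeff N L * z ^ N
  have a1 : |p.re| ≤ |(ev L z).re| + 1 := by
    have b1 : |(ev L z - p).re| ≤ 1 := (Complex.abs_re_le_norm _).trans (ht z hz')
    rw [Complex.sub_re] at b1
    have := abs_sub_abs_le_abs_sub p.re (ev L z).re
    rw [abs_sub_comm] at this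
    linarith
  have a2 := sq_le hs (Complex.abs_re_le_norm p)
  have a3 : s * |p.re| ≤ s * (|(ev L z).re| + 1) := mul_le_mul_of_nonneg_left a1 hs.le
  simp only [smul_eq_mul]
  rw [div_eq_inv_mul] at a2
  linarith

/-- The lower bound for the second moment. -/
lemma two {L : ℂ⟦X⟧} {d N0 A : ℕ} {c : ℝ} (hd : 1 ≤ d) (hN : 1 ≤ N0) (hA : 1 ≤ A) (hc : 0 < c)
    (h : ∀ i : ℕ, c ≤ ‖coeff (N0 * (1 + A * i) ^ d) L‖) (n D : ℕ) (hn : 1 ≤ n)
    (hD : N0 * (A * n) ^ d ≤ D) {ρ : ℝ} (hρ : ρ = 1 - 1 / (8 * ((N0 * (A * n) ^ d : ℕ) : ℝ))) :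
    c ^ 2 * n / 4 ≤ (∑ N ∈ Icc 1 D, ‖coeff N L‖ ^ 2 * (ρ ^ 2) ^ (2 * N)) / 2 := by
  set Y := N0 * (A * n) ^ d with hY
  have hY1 : 1 ≤ Y := Nat.mul_pos hN (pow_pos (Nat.mul_pos hA hn) d)
  have hY1' : (1 : ℝ) ≤ Y := by exact_mod_cast hY1
  have hi : 1 / (8 * (Y : ℝ)) ≤ 1 / 8 := one_div_le_one_div_of_le (by norm_num) (by linarith)
  have hi0 : 0 < 1 / (8 * (Y : ℝ)) := by positivity
  have hρ0 : 0 ≤ ρ := by rw [hρ]; linarith
  have hρ1 : ρ ≤ 1 := by rw [hρ]; linarith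
  have hhalf : 1 / 2 ≤ ρ ^ (4 * Y) := by
    have := one_add_mul_le_pow (a := -(1 / (8 * (Y : ℝ)))) (by linarith) (4 * Y)
    rw [← sub_eq_add_neg, ← hρ] at this
    refine le_trans (le_of_eq ?_) this
    push_cast
    field_simp
    ring
  let f : ℕ → ℕ := fun i => N0 * (1 + A * i) ^ d
  have hf : ∀ i ∈ range n, f i ≤ Y := by
    intro i hi
    have hi' := Finset.mem_range.1 hi
    refine Nat.mul_le_mul_left _ (Nat.pow_le_pow_left ?_ d)
    obtain ⟨m, rfl⟩ := Nat.exists_eq_add_of_lt hi'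
    nlinarith
  have hinj : Set.InjOn f (range n : Finset ℕ) := by
    intro i _ i' _ hii
    have := Nat.pow_left_injective (by omega : d ≠ 0) (Nat.eq_of_mul_eq_mul_left hN hii)
    exact Nat.eq_of_mul_eq_mul_left hA (by omega)
  have hsub : (range n).image f ⊆ Icc 1 D := by
    intro N hN'
    obtain ⟨i, hi, rfl⟩ := Finset.mem_image.1 hN'
    exact Finset.mem_Icc.2 ⟨Nat.mul_pos hN (pow_pos (by omega) d), (hf i hi).trans hD⟩
  have h1 : ∑ N ∈ (range n).image f, ‖coeff N L‖ ^ 2 * (ρ ^ 2) ^ (2 * N) ≤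
      ∑ N ∈ Icc 1 D, ‖coeff N L‖ ^ 2 * (ρ ^ 2) ^ (2 * N) :=
    Finset.sum_le_sum_of_subset_of_nonneg hsub fun _ _ _ => by positivity
  rw [Finset.sum_image hinj] at h1
  have h2 : ∑ _i ∈ range n, c ^ 2 * (1 / 2) ≤
      ∑ i ∈ range n, ‖coeff (f i) L‖ ^ 2 * (ρ ^ 2) ^ (2 * f i) := by
    refine Finset.sum_le_sum fun i hi => mul_le_mul (pow_le_pow_left₀ hc.le (h i) 2) ?_
      (by norm_num) (by positivity)
    rw [← pow_mul]
    exact hhalf.trans (pow_le_pow_of_le_one hρ0 hρ1 (by have := hf i hi; omega))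
  rw [Finset.sum_const, Finset.card_range, nsmul_eq_mul] at h2
  linarith

lemma log_le {κ e t : ℕ} (hκ : 1 ≤ κ) (ht : 1 ≤ t) :
    1 + Real.log ((κ * t ^ e : ℕ) : ℝ) ≤ (1 + κ + e) * t := by
  have hκ' : (1 : ℝ) ≤ κ := by exact_mod_cast hκ
  have ht' : (1 : ℝ) ≤ t := by exact_mod_cast ht
  push_cast
  rw [Real.log_mul (by positivity) (by positivity), Real.log_pow]
  have a1 : Real.log κ ≤ κ := (Real.log_le_sub_one_of_pos (by positivity)).trans (by linarith)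
  have a2 : Real.log t ≤ t := (Real.log_le_sub_one_of_pos (by positivity)).trans (by linarith)
  have a3 : (e : ℝ) * Real.log t ≤ e * t := mul_le_mul_of_nonneg_left a2 (by positivity)
  nlinarith

end PLOW

open PLOW in
theorem s_low (ho : S_Ort) (hh : S_Hua) : S_Low := by
  rintro d hd L hL hL0 ⟨N0, A, c, hN, hA, hc, hcoef⟩ ⟨E, hE⟩ ⟨C, hC⟩
  obtain ⟨C0, k, hC0, hb⟩ := hL.nonneg
  obtain ⟨CH, hCH, hH⟩ := hh d hd (1 / 13) (by norm_num)
  obtain ⟨κ, hκ⟩ : ∃ κ : ℕ, κ = 8 * N0 * A ^ d := ⟨_, rfl⟩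
  have hκ1 : 1 ≤ κ := hκ ▸ Nat.mul_pos (by omega) (pow_pos hA d)
  obtain ⟨c1, hc1⟩ : ∃ c1 : ℝ, c1 = 1 + κ + (12 * d + 1 : ℕ) := ⟨_, rfl⟩
  have hc10 : 0 ≤ c1 := by rw [hc1]; positivity
  obtain ⟨μ, hμ⟩ : ∃ μ : ℕ, μ = 8 * N0 * A := ⟨_, rfl⟩
  have hμ1 : 1 ≤ μ := hμ ▸ Nat.mul_pos (by omega) hA
  obtain ⟨C2, hC2⟩ : ∃ C2 : ℝ, C2 = |C| * c1 + 1 + (E * c1) ^ 4 * CH * μ ^ 3 := ⟨_, rfl⟩
  have ev1 : ∀ᶠ t : ℕ in atTop, (C0 * k.factorial * κ ^ (k + 1)) *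
      ((t : ℝ) ^ (12 * d * (k + 1)) * Real.exp (-(t : ℝ))) ≤ 1 := by
    have := ((Real.tendsto_pow_mul_exp_neg_atTop_nhds_zero (12 * d * (k + 1))).comp
      tendsto_natCast_atTop_atTop).const_mul (C0 * k.factorial * κ ^ (k + 1))
    rw [mul_zero] at this
    exact this.eventually (eventually_le_nhds one_pos)
  have ev2 : ∀ᶠ t : ℕ in atTop, 4 * C2 / c ^ 2 < (t : ℝ) :=
    tendsto_natCast_atTop_atTop.eventually (eventually_gt_atTop _)
  obtain ⟨t, ⟨h1, h2⟩, ht⟩ := ((ev1.and ev2).and (eventually_ge_atTop 1)).exists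
  have ht' : (1 : ℝ) ≤ t := by exact_mod_cast ht
  obtain ⟨Y, hY⟩ : ∃ Y : ℕ, Y = N0 * (A * t ^ 12) ^ d := ⟨_, rfl⟩
  have hY8 : 8 * Y = κ * t ^ (12 * d) := by
    rw [hY, hκ, mul_pow, ← pow_mul]
    ring
  have hY8' : 8 * (Y : ℝ) = κ * (t : ℝ) ^ (12 * d) := by exact_mod_cast hY8
  have hY1 : 1 ≤ Y := hY ▸ Nat.mul_pos hN (pow_pos (Nat.mul_pos hA (pow_pos ht 12)) d)
  have hY1' : (1 : ℝ) ≤ Y := by exact_mod_cast hY1
  obtain ⟨D, hD⟩ : ∃ D : ℕ, D = κ * t ^ (12 * d + 1) := ⟨_, rfl⟩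
  have hDY : D = 8 * Y * t := by rw [hY8, hD, pow_succ]; ring
  obtain ⟨ρ, hρ⟩ : ∃ ρ : ℝ, ρ = 1 - 1 / (8 * (Y : ℝ)) := ⟨_, rfl⟩
  have hi : 1 / (8 * (Y : ℝ)) ≤ 1 / 8 := one_div_le_one_div_of_le (by norm_num) (by linarith)
  have hi0 : 0 < 1 / (8 * (Y : ℝ)) := by positivity
  have hρ0 : 7 / 8 ≤ ρ := by linarith
  have hρ1 : ρ < 1 := by linarith
  have hr0 : 1 / 2 ≤ ρ ^ 2 := by nlinarith
  have hr1 : ρ ^ 2 < 1 := by nlinarith
  have hrp : 0 < ρ ^ 2 := by linarith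
  -- tail
  have htail : ∀ z : ℂ, ‖z‖ = ρ ^ 2 → ‖ev L z - ∑ N ∈ Icc 1 D, coeff N L * z ^ N‖ ≤ 1 := by
    intro z hz
    refine (tail hC0 hb hL0 (by linarith) hρ1 D hz).trans (le_trans ?_ h1)
    have a1 : ρ ^ D ≤ Real.exp (-(t : ℝ)) := by
      have b1 : ρ ≤ Real.exp (-(1 / (8 * (Y : ℝ)))) := by
        have := Real.add_one_le_exp (-(1 / (8 * (Y : ℝ))))
        linarith
      refine (pow_le_pow_left₀ (by linarith) b1 D).trans (le_of_eq ?_)
      rw [← Real.exp_nat_mul, hDY]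
      congr 1
      push_cast
      field_simp
    have a2 : 1 / (1 - ρ) ^ (k + 1) = (κ : ℝ) ^ (k + 1) * (t : ℝ) ^ (12 * d * (k + 1)) := by
      rw [hρ, sub_sub_cancel, one_div, ← inv_pow, one_div, inv_inv, hY8', mul_pow, ← pow_mul]
    rw [a2]
    calc _ = ρ ^ D * (C0 * k.factorial * κ ^ (k + 1) * (t : ℝ) ^ (12 * d * (k + 1))) := by ring
      _ ≤ Real.exp (-(t : ℝ)) *
          (C0 * k.factorial * κ ^ (k + 1) * (t : ℝ) ^ (12 * d * (k + 1))) :=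
        mul_le_mul_of_nonneg_right a1 (by positivity)
      _ = _ := by ring
  have hlog : 1 + Real.log D ≤ c1 * t := by rw [hD, hc1]; exact log_le hκ1 ht
  have hD1 : (1 : ℝ) ≤ D := by
    have : 1 ≤ D := hD ▸ Nat.mul_pos hκ1 (pow_pos ht _)
    exact_mod_cast this
  have hlog0 : 0 ≤ Real.log D := Real.log_nonneg hD1
  -- first moment
  have I1 : Real.circleAverage (fun z => |(ev L z).re|) 0 (ρ ^ 2) ≤ |C| * (c1 * t) := by
    refine (hC _ hr0 hr1).trans ?_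
    have a1 : 1 ≤ 1 / (1 - ρ ^ 2) := by
      rw [le_div_iff₀ (by linarith)]
      linarith
    have a2 : 1 / (1 - ρ ^ 2) ≤ D := by
      have b1 : 1 / (8 * (Y : ℝ)) ≤ 1 - ρ ^ 2 := by nlinarith
      have b2 := one_div_le_one_div_of_le hi0 b1
      rw [one_div_one_div] at b2
      refine b2.trans ?_
      rw [hDY]
      push_cast
      nlinarith
    have a3 : Real.log (1 / (1 - ρ ^ 2)) ≤ Real.log D := Real.log_le_log (by linarith) a2
    have a4 := Real.log_nonneg a1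
    exact mul_le_mul (le_abs_self C) (by linarith) (by linarith) (abs_nonneg C)
  -- fourth moment
  have I4 : Real.circleAverage (fun z => ‖∑ N ∈ Icc 1 D, coeff N L * z ^ N‖ ^ 4) 0 (ρ ^ 2) ≤
      (E * c1) ^ 4 * CH * μ ^ 3 * (t : ℝ) ^ 31 := by
    have hDK : D < (μ * t ^ 13 + 1) ^ d := by
      refine lt_of_le_of_lt ?_ (Nat.pow_lt_pow_left (Nat.lt_succ_self _) (by omega))
      rw [hD, hκ, hμ, mul_pow, mul_pow, mul_pow, ← pow_mul]
      refine Nat.mul_le_mul (Nat.mul_le_mul_right _ (Nat.mul_le_mul ?_ ?_))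
        (Nat.pow_le_pow_right ht (by omega))
      · exact Nat.le_self_pow (by omega) 8
      · exact Nat.le_self_pow (by omega) N0
    refine (hE D (μ * t ^ 13) _ hDK hrp hr1.le).trans ?_
    have a1 : (E * (1 + Real.log D)) ^ 4 ≤ (E * c1) ^ 4 * (t : ℝ) ^ 4 := by
      have := pow_le_pow_left₀ (by linarith) hlog 4
      calc _ = E ^ 4 * (1 + Real.log D) ^ 4 := by ring
        _ ≤ E ^ 4 * (c1 * t) ^ 4 := mul_le_mul_of_nonneg_left this (by positivity)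
        _ = _ := by ring
    have hμ' : (1 : ℝ) ≤ μ := by exact_mod_cast hμ1
    have a2 : (((μ * t ^ 13 : ℕ) : ℝ)) ^ ((2 : ℝ) + 1 / 13) ≤ μ ^ 3 * (t : ℝ) ^ 27 := by
      push_cast
      rw [Real.mul_rpow (by positivity) (by positivity), ← Real.rpow_natCast (t : ℝ) 13,
        ← Real.rpow_mul (by positivity)]
      refine mul_le_mul ?_ (le_of_eq ?_) (by positivity) (by positivity)
      · rw [← Real.rpow_natCast]
        exact Real.rpow_le_rpow_of_exponent_le hμ' (by norm_num)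
      · rw [← Real.rpow_natCast]
        norm_num
    have a3 := (hH (μ * t ^ 13)).trans (mul_le_mul_of_nonneg_left a2 hCH.le)
    calc _ ≤ ((E * c1) ^ 4 * (t : ℝ) ^ 4) * (CH * (μ ^ 3 * (t : ℝ) ^ 27)) :=
          mul_le_mul a1 a3 (by positivity) (by positivity)
      _ = _ := by ring
  have hs : (0 : ℝ) < (t : ℝ) ^ 10 := by positivity
  have B1 := basic hL hrp hr1 hs D htail
  rw [ho.1 D (fun N => coeff N L) _ hrp] at B1
  have B2 := two (L := L) (ρ := ρ) (by omega : 1 ≤ d) hN hA hc hcoef (t ^ 12) D (Nat.one_le_pow _ _ ht)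
    (by rw [hDY, ← hY]; nlinarith) (by rw [← hY]; exact hρ)
  have B3 : (t : ℝ) ^ 10 * (Real.circleAverage (fun z => |(ev L z).re|) 0 (ρ ^ 2) + 1) ≤
      (|C| * c1 + 1) * (t : ℝ) ^ 11 := by
    calc _ ≤ (t : ℝ) ^ 10 * (|C| * (c1 * t) + t) :=
          mul_le_mul_of_nonneg_left (by linarith) hs.le
      _ = _ := by ring
  have B4 : Real.circleAverage (fun z => ‖∑ N ∈ Icc 1 D, coeff N L * z ^ N‖ ^ 4) 0 (ρ ^ 2) /
      ((t : ℝ) ^ 10) ^ 2 ≤ (E * c1) ^ 4 * CH * μ ^ 3 * (t : ℝ) ^ 11 := by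
    rw [div_le_iff₀ (by positivity)]
    refine I4.trans (le_of_eq ?_)
    ring
  have B5 : c ^ 2 * (t : ℝ) ^ 12 / 4 ≤ C2 * (t : ℝ) ^ 11 := by
    push_cast at B2
    rw [hC2]
    linarith
  rw [div_lt_iff₀ (by positivity)] at h2
  have h11 : (0 : ℝ) < (t : ℝ) ^ 11 := by positivity
  have := mul_lt_mul_of_pos_right h2 h11
  nlinarith

end

end Pool.Agent.P.MP_85b516_nt
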