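import Pool.Agent.P.MP_85b516_nt.Stmt

/-! Orthogonality on circles, a count of solutions and a lower bound for coefficients. -/

open PowerSeries Finset
open scoped ComplexConjugate

namespace Pool.Agent.P.MP_85b516_nt

namespace PORT

lemma div_bound {ε : ℝ} (hε : 0 < ε) :
    ∃ C : ℝ, 1 ≤ C ∧ ∀ n : ℕ, n ≠ 0 → (n.divisors.card : ℝ) ≤ C * (n : ℝ) ^ ε := by
  have hl2 : 0 < Real.log 2 := Real.log_pos one_lt_two
  set c : ℝ := 1 + (ε * Real.log 2)⁻¹ with hc
  have hc1 : 1 ≤ c := by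
    have : 0 < (ε * Real.log 2)⁻¹ := by positivity
    linarith
  set N : ℕ := ⌈(2 : ℝ) ^ (ε⁻¹)⌉₊ with hN
  refine ⟨c ^ N, one_le_pow₀ hc1, fun n hn => ?_⟩
  have key : ∀ p ∈ n.primeFactors, ((n.factorization p + 1 : ℕ) : ℝ) ≤
      (if p < N then c else 1) * ((p : ℝ) ^ n.factorization p) ^ ε := by
    intro p hp
    have hpp := Nat.prime_of_mem_primeFactors hp
    have hp2 : (2 : ℝ) ≤ p := by exact_mod_cast hpp.two_le
    set a := n.factorization p
    have e1 : ((p : ℝ) ^ a) ^ ε = ((p : ℝ) ^ ε) ^ a := by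
      rw [← Real.rpow_natCast, ← Real.rpow_mul (by positivity), mul_comm,
        Real.rpow_mul (by positivity), Real.rpow_natCast]
    split_ifs with h
    · have h1 : (2 : ℝ) ^ ε ≤ (p : ℝ) ^ ε := Real.rpow_le_rpow (by norm_num) hp2 hε.le
      have h2 : ((2 : ℝ) ^ ε) ^ a ≤ ((p : ℝ) ^ ε) ^ a := pow_le_pow_left₀ (by positivity) h1 a
      have h3 : ((2 : ℝ) ^ ε) ^ a = Real.exp (a * (ε * Real.log 2)) := by
        rw [Real.rpow_def_of_pos two_pos, ← Real.exp_nat_mul]; ring_nf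
      have h4 := Real.add_one_le_exp (a * (ε * Real.log 2))
      have h5 : (0 : ℝ) < ε * Real.log 2 := by positivity
      have h6 : (a : ℝ) + 1 ≤ c * (a * (ε * Real.log 2) + 1) := by
        rw [hc]
        have : (ε * Real.log 2)⁻¹ * (a * (ε * Real.log 2)) = a := by field_simp
        have h7 : (0 : ℝ) ≤ a * (ε * Real.log 2) := by positivity
        have h8 : 0 < (ε * Real.log 2)⁻¹ := by positivity
        nlinarith
      push_cast
      rw [e1]
      calc (a : ℝ) + 1 ≤ c * (a * (ε * Real.log 2) + 1) := h6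
        _ ≤ c * ((p : ℝ) ^ ε) ^ a := by
          refine mul_le_mul_of_nonneg_left ?_ (by linarith)
          linarith
    · have h1 : (2 : ℝ) ^ (ε⁻¹) ≤ p := (Nat.le_ceil _).trans (by exact_mod_cast not_lt.1 h)
      have h2 : (2 : ℝ) ≤ (p : ℝ) ^ ε := by
        have := Real.rpow_le_rpow (by positivity) h1 hε.le
        rwa [← Real.rpow_mul (by norm_num), inv_mul_cancel₀ hε.ne', Real.rpow_one] at this
      have h3 : a + 1 ≤ 2 ^ a := Nat.lt_two_pow_self
      rw [one_mul, e1]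
      calc ((a + 1 : ℕ) : ℝ) ≤ (2 : ℝ) ^ a := by exact_mod_cast h3
        _ ≤ _ := pow_le_pow_left₀ (by norm_num) h2 a
  rw [Nat.card_divisors hn, Nat.cast_prod]
  refine (Finset.prod_le_prod (fun _ _ => by positivity) key).trans ?_
  rw [Finset.prod_mul_distrib, Real.finsetProd_rpow _ _ (fun _ _ => by positivity)]
  have e2 : ∏ p ∈ n.primeFactors, (p : ℝ) ^ n.factorization p = n := by
    conv_rhs => rw [← Nat.prod_factorization_pow_eq_self hn]
    rw [Finsupp.prod, Nat.support_factorization]; push_cast; rfl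
  rw [e2]
  refine mul_le_mul_of_nonneg_right ?_ (by positivity)
  rw [Finset.prod_ite, Finset.prod_const_one, mul_one, Finset.prod_const]
  refine pow_le_pow_right₀ hc1 ?_
  calc (n.primeFactors.filter fun p => p < N).card ≤ (range N).card :=
        Finset.card_le_card fun p hp => Finset.mem_range.2 (Finset.mem_filter.1 hp).2
    _ = N := Finset.card_range N

lemma avg_mono (a b : ℕ) (r : ℝ) :
    Real.circleAverage (fun z : ℂ => z ^ a * conj z ^ b) 0 r =
      if a = b then ((r ^ (2 * a) : ℝ) : ℂ) else 0 := by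
  have e : ∀ θ : ℝ, circleMap 0 r θ ^ a * conj (circleMap 0 r θ) ^ b =
      (r : ℂ) ^ (a + b) * Complex.exp ((((a : ℤ) - b : ℤ) : ℂ) * Complex.I * θ) := by
    intro θ
    rw [circleMap_zero, map_mul, Complex.conj_ofReal, ← Complex.exp_conj, map_mul,
      Complex.conj_ofReal, Complex.conj_I, mul_pow, mul_pow, ← Complex.exp_nat_mul,
      ← Complex.exp_nat_mul, mul_mul_mul_comm, ← Complex.exp_add, ← pow_add]
    congr 2
    push_cast
    ring
  rw [Real.circleAverage_def]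
  simp only [e]
  split_ifs with h
  · subst h
    have hpi : (Real.pi : ℂ) ≠ 0 := Complex.ofReal_ne_zero.2 Real.pi_ne_zero
    simp only [sub_self, Int.cast_zero, zero_mul, Complex.exp_zero, mul_one,
      intervalIntegral.integral_const, sub_zero, Complex.real_smul, two_mul a]
    push_cast
    field_simp
  · have h1 : (((a : ℤ) - b : ℤ) : ℂ) * Complex.I ≠ 0 :=
      mul_ne_zero (Int.cast_ne_zero.2 (by omega)) Complex.I_ne_zero
    rw [intervalIntegral.integral_const_mul, integral_exp_mul_complex h1]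
    have h2 := Complex.exp_int_mul_two_pi_mul_I ((a : ℤ) - b)
    rw [show (((a : ℤ) - b : ℤ) : ℂ) * Complex.I * ((2 * Real.pi : ℝ) : ℂ) =
      (((a : ℤ) - b : ℤ) : ℂ) * (2 * Real.pi * Complex.I) by push_cast; ring, h2]
    simp

lemma avg_sum {ι : Type*} (s : Finset ι) (α : ι → ℂ) (a b : ι → ℕ) (r : ℝ) :
    Real.circleAverage (fun z : ℂ => (∑ i ∈ s, α i * (z ^ a i * conj z ^ b i)).re) 0 r =
      ∑ i ∈ s, if a i = b i then (α i).re * r ^ (2 * a i) else 0 := by
  have hc : ∀ i, Continuous fun z : ℂ => α i * (z ^ a i * conj z ^ b i) := fun i => by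
    fun_prop
  have h1 := Complex.reCLM.circleAverage_comp_comm
    (f := fun z : ℂ => ∑ i ∈ s, α i * (z ^ a i * conj z ^ b i)) (c := 0) (R := r)
    (continuous_finsetSum s fun i _ => hc i).continuousOn.circleIntegrable'
  refine h1.trans ?_
  rw [Real.circleAverage_fun_sum fun i _ => (hc i).continuousOn.circleIntegrable', map_sum]
  refine sum_congr rfl fun i _ => ?_
  have h2 := Real.circleAverage_fun_smul (a := α i) (f := fun z : ℂ => z ^ a i * conj z ^ b i)
    (c := 0) (R := r)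
  simp only [smul_eq_mul] at h2
  rw [h2, avg_mono]
  split_ifs
  · rw [Complex.reCLM_apply, Complex.re_mul_ofReal]
  · simp

lemma pow_diff_inj {d h x y : ℕ} (hd : 2 ≤ d) (hh : 1 ≤ h) (hxy : x < y) :
    (x + h) ^ d + y ^ d < (y + h) ^ d + x ^ d := by
  obtain ⟨d, rfl⟩ := Nat.exists_eq_add_of_le hd
  induction d with
  | zero =>
    obtain ⟨w, rfl⟩ := Nat.exists_eq_add_of_lt hxy
    rw [add_zero]
    nlinarith
  | succ d ih =>
    have h1 := ih (by omega)
    have h2 : x ^ (2 + d) < y ^ (2 + d) := Nat.pow_lt_pow_left hxy (by omega)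
    have h3 : (x + h) ^ (2 + d) < (y + h) ^ (2 + d) := Nat.pow_lt_pow_left (by omega) (by omega)
    have h4 : x ^ (2 + d) ≤ (x + h) ^ (2 + d) := Nat.pow_le_pow_left (by omega) _
    rw [← add_assoc, pow_succ, pow_succ, pow_succ, pow_succ]
    generalize x ^ (2 + d) = A at *
    generalize y ^ (2 + d) = B at *
    generalize (x + h) ^ (2 + d) = A' at *
    generalize (y + h) ^ (2 + d) = B' at *
    obtain ⟨u, rfl⟩ := Nat.exists_eq_add_of_le h4
    obtain ⟨w, rfl⟩ := Nat.exists_eq_add_of_lt hxy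
    obtain ⟨t, ht⟩ := Nat.exists_eq_add_of_lt h1
    have e : B' = u + B + t + 1 := by omega
    subst e
    nlinarith

/-- The solutions with `k2 < k4`. -/
def Slt (d K : ℕ) : Finset ((ℕ × ℕ) × (ℕ × ℕ)) :=
  ((Icc 1 K ×ˢ Icc 1 K) ×ˢ (Icc 1 K ×ˢ Icc 1 K)).filter
    (fun x => x.1.1 ^ d + x.1.2 ^ d = x.2.1 ^ d + x.2.2 ^ d ∧ x.1.2 < x.2.2)

lemma card_Slt {d : ℕ} (hd : 2 ≤ d) (K : ℕ) {T : ℝ}
    (hT : ∀ n : ℕ, n ≠ 0 → n ≤ K ^ d → (n.divisors.card : ℝ) ≤ T) (h0 : 0 ≤ T) :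
    ((Slt d K).card : ℝ) ≤ (K : ℝ) ^ 2 * T := by
  have h1 : (Slt d K).card ≤ ((Icc 1 K ×ˢ Icc 1 K).sigma
      fun y : ℕ × ℕ => (y.2 ^ d - y.1 ^ d).divisors).card := by
    have key : ∀ x ∈ Slt d K, x.2.1 < x.1.1 ∧ x.1.2 ^ d < x.2.2 ^ d := fun x hx => by
      obtain ⟨-, e, hl⟩ := mem_filter.1 hx
      have h2 : x.1.2 ^ d < x.2.2 ^ d := Nat.pow_lt_pow_left hl (by omega)
      exact ⟨lt_of_pow_lt_pow_left₀ d (Nat.zero_le _) (by omega), h2⟩
    refine card_le_card_of_injOn (fun x => ⟨(x.1.2, x.2.2), x.1.1 - x.2.1⟩) (fun x hx => ?_)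
      fun x hx y hy e => ?_
    · obtain ⟨h2, h3⟩ := key x hx
      obtain ⟨h4, e, -⟩ := mem_filter.1 hx
      simp only [mem_product] at h4
      refine mem_sigma.2 ⟨mem_product.2 ⟨h4.1.2, h4.2.2⟩, Nat.mem_divisors.2 ⟨?_, ?_⟩⟩
      · have : x.2.2 ^ d - x.1.2 ^ d = x.1.1 ^ d - x.2.1 ^ d := by omega
        change x.1.1 - x.2.1 ∣ x.2.2 ^ d - x.1.2 ^ d
        rw [this]
        exact Nat.sub_dvd_pow_sub_pow _ _ _
      · change x.2.2 ^ d - x.1.2 ^ d ≠ 0
        omega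
    · obtain ⟨h2, -⟩ := key x hx
      obtain ⟨h3, -⟩ := key y hy
      obtain ⟨-, ex, -⟩ := mem_filter.1 hx
      obtain ⟨-, ey, -⟩ := mem_filter.1 hy
      obtain ⟨⟨x1, x2⟩, x3, x4⟩ := x
      obtain ⟨⟨y1, y2⟩, y3, y4⟩ := y
      simp only [Sigma.mk.injEq, Prod.mk.injEq, heq_eq_eq] at e h2 h3 ex ey ⊢
      obtain ⟨⟨rfl, rfl⟩, e⟩ := e
      obtain ⟨h, rfl⟩ := Nat.exists_eq_add_of_le h2.le
      obtain rfl : y1 = y3 + h := by omega
      have : x3 = y3 := by
        rcases lt_trichotomy x3 y3 with hl | hl | hl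
        · have := pow_diff_inj (h := h) hd (by omega) hl
          omega
        · exact hl
        · have := pow_diff_inj (h := h) hd (by omega) hl
          omega
      simp [this]
  rw [card_sigma] at h1
  calc ((Slt d K).card : ℝ)
      ≤ ∑ y ∈ Icc 1 K ×ˢ Icc 1 K, ((y.2 ^ d - y.1 ^ d).divisors.card : ℝ) := by exact_mod_cast h1
    _ ≤ ∑ _y ∈ Icc 1 K ×ˢ Icc 1 K, T := sum_le_sum fun y hy => by
      rcases eq_or_ne (y.2 ^ d - y.1 ^ d) 0 with e | e
      · simpa [e] using h0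
      · exact hT _ e ((Nat.sub_le _ _).trans
          (Nat.pow_le_pow_left (mem_Icc.1 (mem_product.1 hy).2).2 d))
    _ = _ := by simp [sq]

lemma nsol_le {d : ℕ} (hd : 2 ≤ d) (K : ℕ) : Nsol d K ≤ K ^ 2 + 2 * (Slt d K).card := by
  have h1 : ((Icc 1 K ×ˢ Icc 1 K) ×ˢ (Icc 1 K ×ˢ Icc 1 K)).filter
      (fun x : (ℕ × ℕ) × (ℕ × ℕ) => x.1.1 ^ d + x.1.2 ^ d = x.2.1 ^ d + x.2.2 ^ d) ⊆
      ((Icc 1 K ×ˢ Icc 1 K).image fun y => (y, y)) ∪ (Slt d K ∪ (Slt d K).image Prod.swap) := by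
    intro x hx
    obtain ⟨h2, e⟩ := mem_filter.1 hx
    rcases lt_trichotomy x.1.2 x.2.2 with hl | hl | hl
    · exact mem_union_right _ (mem_union_left _ (mem_filter.2 ⟨h2, e, hl⟩))
    · refine mem_union_left _ (mem_image.2 ⟨x.1, (mem_product.1 h2).1, ?_⟩)
      rw [hl, add_left_inj] at e
      exact Prod.ext rfl (Prod.ext (Nat.pow_left_injective (by omega) e) hl)
    · refine mem_union_right _ (mem_union_right _ (mem_image.2 ⟨x.swap, mem_filter.2
        ⟨mem_product.2 ⟨(mem_product.1 h2).2, (mem_product.1 h2).1⟩, e.symm, hl⟩, rfl⟩))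
  have h2 := (card_le_card h1).trans ((card_union_le _ _).trans (add_le_add card_image_le
    ((card_union_le _ _).trans (add_le_add le_rfl card_image_le))))
  rw [card_product, Nat.card_Icc, Nat.add_sub_cancel, ← sq, ← two_mul] at h2
  exact h2

end PORT

open PORT

theorem s_ort : S_Ort := by
  refine ⟨fun D c r _ => ?_, fun d K e s β r he hs hβ hr hr1 => ?_⟩
  · have e : ∀ z : ℂ, (∑ N ∈ Icc 1 D, c N * z ^ N).re ^ 2 =
        (∑ x ∈ (Icc 1 D ×ˢ Icc 1 D).disjSum (Icc 1 D ×ˢ Icc 1 D),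
          Sum.elim (fun y : ℕ × ℕ => c y.1 * conj (c y.2) / 2) (fun y => c y.1 * c y.2 / 2) x *
            (z ^ Sum.elim (fun y : ℕ × ℕ => y.1) (fun y => y.1 + y.2) x *
              conj z ^ Sum.elim (fun y : ℕ × ℕ => y.2) (fun _ => 0) x)).re := by
      intro z
      have e1 : ∑ y ∈ Icc 1 D ×ˢ Icc 1 D, c y.1 * conj (c y.2) / 2 * (z ^ y.1 * conj z ^ y.2) =
          (∑ N ∈ Icc 1 D, c N * z ^ N) * conj (∑ N ∈ Icc 1 D, c N * z ^ N) / 2 := by
        rw [map_sum, sum_mul_sum, ← sum_product', sum_div]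
        exact sum_congr rfl fun y _ => by rw [map_mul, map_pow]; ring
      have e2 : ∑ y ∈ Icc 1 D ×ˢ Icc 1 D, c y.1 * c y.2 / 2 * (z ^ (y.1 + y.2) * conj z ^ 0) =
          (∑ N ∈ Icc 1 D, c N * z ^ N) * (∑ N ∈ Icc 1 D, c N * z ^ N) / 2 := by
        rw [sum_mul_sum, ← sum_product', sum_div]
        exact sum_congr rfl fun y _ => by ring
      rw [sum_disjSum]
      simp only [Sum.elim_inl, Sum.elim_inr]
      rw [e1, e2]
      generalize ∑ N ∈ Icc 1 D, c N * z ^ N = p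
      simp
      ring
    simp only [e]
    rw [avg_sum, sum_disjSum]
    simp only [Sum.elim_inl, Sum.elim_inr]
    rw [sum_eq_zero (s := Icc 1 D ×ˢ Icc 1 D)
      (f := fun y : ℕ × ℕ => if y.1 + y.2 = 0 then (c y.1 * c y.2 / 2).re * r ^ (2 * (y.1 + y.2))
        else 0) fun y hy => if_neg (by
          have := (mem_Icc.1 (mem_product.1 hy).1).1
          omega), add_zero, sum_product, sum_div]
    refine sum_congr rfl fun N hN => ?_
    simp only [sum_ite_eq, if_pos hN]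
    rw [Complex.mul_conj, Complex.normSq_eq_norm_sq, ← Complex.ofReal_ofNat, ← Complex.ofReal_div,
      Complex.ofReal_re]
    ring
  · have e1 : ∀ z : ℂ, ‖∑ k ∈ s, β k * z ^ (e * k ^ d)‖ ^ 4 =
        (∑ x ∈ (s ×ˢ s) ×ˢ (s ×ˢ s), β x.1.1 * β x.1.2 * conj (β x.2.1 * β x.2.2) *
          (z ^ (e * x.1.1 ^ d + e * x.1.2 ^ d) * conj z ^ (e * x.2.1 ^ d + e * x.2.2 ^ d))).re := by
      intro z
      have e2 : (∑ k ∈ s, β k * z ^ (e * k ^ d)) ^ 2 =
          ∑ y ∈ s ×ˢ s, β y.1 * β y.2 * z ^ (e * y.1 ^ d + e * y.2 ^ d) := by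
        rw [sq, sum_mul_sum, ← sum_product']
        exact sum_congr rfl fun y _ => by ring
      have e3 : ∑ x ∈ (s ×ˢ s) ×ˢ (s ×ˢ s), β x.1.1 * β x.1.2 * conj (β x.2.1 * β x.2.2) *
          (z ^ (e * x.1.1 ^ d + e * x.1.2 ^ d) * conj z ^ (e * x.2.1 ^ d + e * x.2.2 ^ d)) =
          (∑ k ∈ s, β k * z ^ (e * k ^ d)) ^ 2 * conj ((∑ k ∈ s, β k * z ^ (e * k ^ d)) ^ 2) := by
        rw [e2, map_sum, sum_mul_sum, ← sum_product']
        exact sum_congr rfl fun x _ => by simp only [map_mul, map_pow]; ring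
      rw [e3, Complex.mul_conj, Complex.ofReal_re, Complex.normSq_eq_norm_sq, norm_pow]
      ring
    simp only [e1]
    rw [avg_sum, Nsol, card_filter]
    push_cast
    refine le_trans (sum_le_sum fun x _ => ?_) (sum_le_sum_of_subset_of_nonneg
      (product_subset_product (product_subset_product hs hs) (product_subset_product hs hs))
      fun x _ _ => by positivity)
    by_cases h : x.1.1 ^ d + x.1.2 ^ d = x.2.1 ^ d + x.2.2 ^ d
    · rw [if_pos h]
      split_ifs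
      · refine mul_le_one₀ ((Complex.re_le_norm _).trans ?_) (by positivity)
          (pow_le_one₀ hr.le hr1)
        rw [norm_mul, Complex.norm_conj, norm_mul, norm_mul]
        exact mul_le_one₀ (mul_le_one₀ (hβ _) (norm_nonneg _) (hβ _)) (by positivity)
          (mul_le_one₀ (hβ _) (norm_nonneg _) (hβ _))
      · exact zero_le_one
    · rw [if_neg h, if_neg fun h' => h ?_]
      rw [← mul_add, ← mul_add] at h'
      exact Nat.eq_of_mul_eq_mul_left he h'

theorem s_hua : S_Hua := by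
  intro d hd ε hε
  have hd0 : (0 : ℝ) < d := by positivity
  obtain ⟨C, hC, h⟩ := div_bound (div_pos hε hd0)
  refine ⟨1 + 2 * C, by positivity, fun K => ?_⟩
  rcases Nat.eq_zero_or_pos K with rfl | hK
  · rw [show Nsol d 0 = 0 by simp [Nsol], Nat.cast_zero]
    positivity
  have hK1 : (1 : ℝ) ≤ K := by exact_mod_cast hK
  have h1 := card_Slt hd K (T := C * (K : ℝ) ^ ε) (fun n hn hl => (h n hn).trans (by
    refine mul_le_mul_of_nonneg_left ?_ (by linarith)
    calc (n : ℝ) ^ (ε / d) ≤ ((K : ℝ) ^ d) ^ (ε / d) :=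
          Real.rpow_le_rpow (by positivity) (by exact_mod_cast hl) (by positivity)
      _ = _ := by
        rw [← Real.rpow_natCast, ← Real.rpow_mul (by positivity), mul_div_cancel₀ _ hd0.ne']))
    (by positivity)
  have h2 : (Nsol d K : ℝ) ≤ (K : ℝ) ^ 2 + 2 * (Slt d K).card := by exact_mod_cast nsol_le hd K
  have h3 : 1 ≤ (K : ℝ) ^ ε := Real.one_le_rpow hK1 hε.le
  rw [Real.rpow_add (by positivity), Real.rpow_two]
  nlinarith [sq_nonneg (K : ℝ)]

theorem s_two (hs : S_Sg) : S_Two := by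
  intro d hd V _ j ω e M hj hM hω hne
  obtain ⟨hmul, -, -, -, hpow⟩ := hs d (by omega)
  have hc : ∀ N, coeff N (∑ v, e v • Tv d (j v) (ω v)) = ∑ v, e v * Gc d (j v) (ω v) N :=
    fun N => by simp [Tv]
  obtain ⟨N0, h0⟩ : ∃ N0, coeff N0 (∑ v, e v • Tv d (j v) (ω v)) ≠ 0 := by
    by_contra! h
    exact hne (PowerSeries.ext fun n => by rw [h n, map_zero])
  have hN0 : 1 ≤ N0 := by
    rcases Nat.eq_zero_or_pos N0 with rfl | h
    · exact absurd (by simp [hc, Gc, sg]) h0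
    · exact h
  have hP : 0 < ∏ v, j v := Finset.prod_pos fun v _ => hj v
  refine ⟨N0, M * N0 * ∏ v, j v, ‖coeff N0 (∑ v, e v • Tv d (j v) (ω v))‖ / N0, hN0,
    Nat.mul_pos (Nat.mul_pos hM hN0) hP, div_pos (norm_pos_iff.2 h0) (by positivity), fun i => ?_⟩
  obtain ⟨u, hu⟩ : ∃ u, u = 1 + (M * N0 * ∏ v, j v) * i := ⟨_, rfl⟩
  rw [← hu]
  have hu1 : 1 ≤ u := by omega
  have hco : ∀ n, n ∣ M * N0 * ∏ v, j v → Nat.Coprime n (u ^ d) := fun n ⟨t, ht⟩ => by
    refine Nat.Coprime.pow_right d ?_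
    rw [hu, ht, mul_assoc]
    simp
  have hG : ∀ v, Gc d (j v) (ω v) (N0 * u ^ d) = (sg d (u ^ d) : ℂ) * Gc d (j v) (ω v) N0 := by
    intro v
    have h1 := hco (j v) (Dvd.dvd.mul_left (dvd_prod_of_mem j (mem_univ v)) _)
    unfold Gc
    by_cases h : j v ∣ N0
    · have h2 : ω v ^ (N0 * u ^ d) = ω v ^ N0 := by
        have h3 : ω v ^ u = ω v := by
          rw [hu, pow_add, mul_assoc, mul_assoc, pow_mul, hω, one_pow, mul_one, pow_one]
        have h4 : ∀ n : ℕ, ω v ^ u ^ n = ω v := fun n => by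
          induction n with
          | zero => simp
          | succ n ih => rw [pow_succ, pow_mul, ih, h3]
        rw [mul_comm, pow_mul, h4]
      rw [if_pos h, if_pos (h.mul_right _), h2, mul_comm N0, Nat.mul_div_assoc _ h, mul_comm (u ^ d),
        hmul _ _ (hco _ (((Nat.div_dvd_of_dvd h).mul_left M).mul_right _))]
      push_cast
      ring
    · rw [if_neg h, if_neg fun h' => h (h1.dvd_of_dvd_mul_right h'), mul_zero]
  have h5 : coeff (N0 * u ^ d) (∑ v, e v • Tv d (j v) (ω v)) =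
      (sg d (u ^ d) : ℂ) * coeff N0 (∑ v, e v • Tv d (j v) (ω v)) := by
    rw [hc, hc, mul_sum]
    exact sum_congr rfl fun v _ => by rw [hG]; ring
  rw [prim, coeff_mk, h5, norm_div, norm_mul, Complex.norm_natCast, Complex.norm_natCast]
  have h6 : ((u ^ d : ℕ) : ℝ) ≤ sg d (u ^ d) := by exact_mod_cast hpow u hu1
  have h7 : (0 : ℝ) < (u ^ d : ℕ) := by positivity
  have h8 : (0 : ℝ) < N0 := by positivity
  rw [Nat.cast_mul, div_le_div_iff₀ h8 (by positivity)]
  have := mul_le_mul_of_nonneg_left h6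
    (mul_nonneg (norm_nonneg (coeff N0 (∑ v, e v • Tv d (j v) (ω v)))) h8.le)
  linarith

end Pool.Agent.P.MP_85b516_nt
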