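import Pool.Agent.P.MP_85b516_nt.Stmt

/-! The coefficient vectors lie in the configuration space and span it; integral equations. -/

open Finset Module

namespace Pool.Agent.P.MP_85b516_nt

noncomputable section

namespace PREAL

theorem sum_vx (p : ℕ) (l : List ℕ) (f : Vx (p :: l) → ℂ) :
    ∑ v, f v = ∑ x : Zp p, ∑ v : Vx l, f (x, v) :=
  Fintype.sum_prod_type (α₁ := Zp p) (α₂ := Vx l) f

theorem mem_WW {p : ℕ} {l : List ℕ} {w : Vx (p :: l) → ℂ} :
    w ∈ WW (p :: l) ↔ (∀ x : Zp p, (fun v : Vx l => w (x, v)) ∈ WW l) ∧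
      ∀ v : Vx l, ∑ x : Zp p, cz p x * w (x, v) = 0 := Iff.rfl

theorem sum_cz (p : ℕ) (y : Zp p → ℂ) :
    ∑ x, cz p x * y x = ∑ i : Fin p, y (Sum.inl i) - y (Sum.inr 0) - p * y (Sum.inr 1) +
      y (Sum.inr 2) := by
  rw [Fintype.sum_sum_type, Fin.sum_univ_three]
  simp [cz, czI]
  ring

theorem prim_rt {p : ℕ} (hp : p.Prime) :
    IsPrimitiveRoot (Complex.exp (2 * Real.pi * Complex.I / p)) p :=
  Complex.isPrimitiveRoot_exp p hp.ne_zero

theorem rt_pow {p : ℕ} (hp : p.Prime) (x : Zp p) : rt p x ^ p = 1 := by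
  rcases x with i | i
  · simp only [rt, Sum.elim_inl]
    rw [pow_right_comm, (prim_rt hp).pow_eq_one, one_pow]
  · simp [rt]

theorem cop_jv (d : ℕ) (l : List ℕ) (hl : ∀ p ∈ l, p.Prime) (a : ℕ) (ha : ∀ p ∈ l, ¬ p ∣ a)
    (v : Vx l) : Nat.Coprime (jv d l v) a := by
  induction l with
  | nil => exact Nat.coprime_one_left a
  | cons p l ih =>
    refine Nat.Coprime.mul_left (Nat.Coprime.pow_left _ ?_)
      (ih (fun q hq => hl q (List.mem_cons_of_mem _ hq))
        (fun q hq => ha q (List.mem_cons_of_mem _ hq)) v.2)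
    exact ((hl p List.mem_cons_self).coprime_iff_not_dvd).2 (ha p List.mem_cons_self)

theorem one_le_jv (d : ℕ) (l : List ℕ) (hl : ∀ p ∈ l, p.Prime) (v : Vx l) : 1 ≤ jv d l v := by
  induction l with
  | nil => exact le_rfl
  | cons p l ih =>
    exact Nat.mul_pos (pow_pos (hl p List.mem_cons_self).pos _)
      (ih (fun q hq => hl q (List.mem_cons_of_mem _ hq)) v.2)

theorem eqns (l : List ℕ) : ∃ (R : Type) (_ : Fintype R) (ρ : R → Vx l → ℤ),
    ∀ w : Vx l → ℂ, w ∈ WW l ↔ ∀ r, ∑ v, (ρ r v : ℂ) * w v = 0 := by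
  classical
  induction l with
  | nil => exact ⟨Empty, inferInstance, fun r => r.elim, fun w => ⟨fun _ r => r.elim, fun _ => trivial⟩⟩
  | cons p l ih =>
    obtain ⟨R, _, ρ, h⟩ := ih
    refine ⟨Vx l ⊕ Zp p × R, inferInstance, Sum.elim
      (fun v₀ v => if v.2 = v₀ then czI p v.1 else 0)
      (fun y v => if v.1 = y.1 then ρ y.2 v.2 else 0), fun w => ?_⟩
    have e1 : ∀ v₀ : Vx l, ∑ v : Vx (p :: l),
        ((if v.2 = v₀ then czI p v.1 else 0 : ℤ) : ℂ) * w v = ∑ x : Zp p, cz p x * w (x, v₀) := by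
      intro v₀
      rw [sum_vx]
      refine sum_congr rfl fun x _ => ?_
      rw [sum_eq_single v₀]
      · simp [cz]
      · intro v _ hv
        simp [hv]
      · simp
    have e2 : ∀ y : Zp p × R, ∑ v : Vx (p :: l),
        ((if v.1 = y.1 then ρ y.2 v.2 else 0 : ℤ) : ℂ) * w v =
          ∑ v : Vx l, (ρ y.2 v : ℂ) * w (y.1, v) := by
      intro y
      rw [sum_vx, sum_eq_single y.1]
      · simp
      · intro x _ hx
        simp [hx]
      · simp
    rw [mem_WW]
    refine ⟨fun g r => ?_, fun g => ⟨fun x => (h _).2 fun r => ?_, fun v => ?_⟩⟩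
    · rcases r with v | y
      · exact (e1 v).trans (g.2 v)
      · exact (e2 y).trans ((h _).1 (g.1 y.1) y.2)
    · exact (e2 (x, r)).symm.trans (g (Sum.inr (x, r)))
    · exact (e1 v).symm.trans (g (Sum.inl v))

theorem jv_mem (d : ℕ) (l : List ℕ) : (fun v => (jv d l v : ℂ)) ∈ WW l := by
  induction l with
  | nil => trivial
  | cons p l ih =>
    refine mem_WW.2 ⟨fun x => ?_, fun v => ?_⟩
    · have := (WW l).smul_mem ((p : ℂ) ^ lev d p x) ih
      refine (congrArg (· ∈ WW l) (funext fun v => ?_)).mp this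
      simp [jv]
    · rw [sum_cz]
      simp [jv, lev]
      ring

theorem zv_pow (l : List ℕ) (hl : ∀ p ∈ l, p.Prime) (v : Vx l) : zv l v ^ l.prod = 1 := by
  induction l with
  | nil => simp [zv]
  | cons p l ih =>
    have h := ih (fun q hq => hl q (List.mem_cons_of_mem _ hq)) v.2
    rw [List.prod_cons, show zv (p :: l) v = rt p v.1 * zv l v.2 from rfl, mul_pow, pow_mul,
      rt_pow (hl p List.mem_cons_self), one_pow, one_mul, mul_comm, pow_mul, h, one_pow]

theorem base_vx (d : ℕ) (l : List ℕ) (hl : ∀ p ∈ l, p.Prime) :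
    ∃ v, jv d l v = 1 ∧ zv l v = 1 := by
  induction l with
  | nil => exact ⟨(), rfl, rfl⟩
  | cons p l ih =>
    obtain ⟨v, h1, h2⟩ := ih fun q hq => hl q (List.mem_cons_of_mem _ hq)
    refine ⟨(Sum.inl ⟨0, (hl p List.mem_cons_self).pos⟩, v), ?_, ?_⟩
    · simp [jv, lev, h1]
    · simp [zv, rt, h2]

/-- the coefficient vector with twisted roots of unity -/
def G (d u : ℕ) (l : List ℕ) (N : ℕ) (v : Vx l) : ℂ :=
  if jv d l v ∣ N then ((jv d l v * sg d (N / jv d l v) : ℕ) : ℂ) * zv l v ^ (u * N) else 0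

theorem G_one (d : ℕ) (l : List ℕ) (N : ℕ) :
    G d 1 l N = fun v => Gc d (jv d l v) (zv l v) N := by
  funext v
  rw [G, Gc, one_mul]

/-- the local factor -/
def al (d p s : ℕ) (x : Zp p) : ℕ :=
  if lev d p x ≤ s then p ^ lev d p x * sg d (p ^ (s - lev d p x)) else 0

theorem G_cons (hs : S_Sg) {d : ℕ} (hd : 1 ≤ d) {p : ℕ} (hp : p.Prime) {l : List ℕ}
    (hl : ∀ q ∈ l, q.Prime) (hpl : p ∉ l) (u s : ℕ) {N : ℕ} (hN : ¬ p ∣ N) (x : Zp p) (v : Vx l) :
    G d u (p :: l) (p ^ s * N) (x, v) =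
      (al d p s x : ℂ) * rt p x ^ (u * (p ^ s * N)) * G d (u * p ^ s) l N v := by
  have hc : Nat.Coprime (jv d l v) p := cop_jv d l hl p (fun q hq hqp =>
    hpl (((Nat.prime_dvd_prime_iff_eq (hl q hq) hp).1 hqp) ▸ hq)) v
  have hcN : Nat.Coprime p N := hp.coprime_iff_not_dvd.2 hN
  have hj : jv d (p :: l) (x, v) = p ^ lev d p x * jv d l v := rfl
  have hz : zv (p :: l) (x, v) = rt p x * zv l v := rfl
  rw [G, G, al, hj, hz]
  by_cases h1 : lev d p x ≤ s
  · by_cases h2 : jv d l v ∣ N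
    · obtain ⟨m, rfl⟩ := h2
      obtain ⟨t, rfl⟩ := Nat.exists_eq_add_of_le h1
      have hpos : 0 < jv d l v := one_le_jv d l hl v
      have e : p ^ (lev d p x + t) * (jv d l v * m) = p ^ lev d p x * jv d l v * (p ^ t * m) := by
        ring
      rw [if_pos ⟨_, e⟩, if_pos h1, if_pos (dvd_mul_right _ _), Nat.add_sub_cancel_left,
        Nat.mul_div_cancel_left _ hpos]
      have e2 : p ^ (lev d p x + t) * (jv d l v * m) / (p ^ lev d p x * jv d l v) = p ^ t * m := by
        rw [e, Nat.mul_div_cancel_left _ (Nat.mul_pos (pow_pos hp.pos _) hpos)]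
      rw [e2, (hs d hd).1 _ _ (Nat.Coprime.pow_left _ (Nat.Coprime.coprime_mul_left_right hcN)),
        mul_pow, mul_assoc u]
      push_cast
      ring
    · rw [if_neg h2, mul_zero, if_neg]
      intro h
      exact h2 ((Nat.Coprime.pow_right s hc).dvd_of_dvd_mul_left
        ((dvd_mul_left _ _).trans h))
  · rw [if_neg h1, Nat.cast_zero, zero_mul, zero_mul, if_neg]
    intro h
    exact h1 ((Nat.pow_dvd_pow_iff_le_right hp.one_lt).1
      ((Nat.Coprime.pow_left _ hcN).dvd_of_dvd_mul_right ((dvd_mul_right _ _).trans h)))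

theorem sg_rec (hs : S_Sg) {d : ℕ} (hd : 1 ≤ d) {p : ℕ} (hp : p.Prime) (s : ℕ) :
    sg d (p ^ s) = 1 + if d ≤ s then p ^ d * sg d (p ^ (s - d)) else 0 := by
  rw [(hs d hd).2.1 p s hp]
  split_ifs with h
  · rw [(hs d hd).2.1 p _ hp, Nat.div_eq_sub_div hd h, sum_range_succ', mul_sum, add_comm]
    congr 1
    exact sum_congr rfl fun i _ => by rw [← pow_add]; congr 1; ring
  · rw [Nat.div_eq_of_lt (by omega)]
    simp

theorem geo {p : ℕ} {η : ℂ} (h : η ^ p = 1) (h1 : η ≠ 1) : ∑ r ∈ range p, η ^ r = 0 := by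
  rw [geom_sum_eq h1, h, sub_self, zero_div]

theorem loc_rel (hs : S_Sg) {d : ℕ} (hd : 1 ≤ d) {p : ℕ} (hp : p.Prime) {u : ℕ} (hu : ¬ p ∣ u)
    (s : ℕ) {N : ℕ} (hN : ¬ p ∣ N) :
    ∑ x, cz p x * ((al d p s x : ℂ) * rt p x ^ (u * (p ^ s * N))) = 0 := by
  rw [sum_cz]
  rcases s with _ | s
  · have h1 : Complex.exp (2 * Real.pi * Complex.I / p) ^ (u * N) ≠ 1 := fun h =>
      (hp.dvd_mul.1 (((prim_rt hp).pow_eq_one_iff_dvd _).1 h)).elim hu hN
    have h2 := geo (p := p) (by rw [pow_right_comm, (prim_rt hp).pow_eq_one, one_pow]) h1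
    rw [← Fin.sum_univ_eq_sum_range] at h2
    simp only [al, lev, rt, Sum.elim_inl, Sum.elim_inr, le_refl, if_true, pow_zero, one_mul,
      Nat.sub_zero]
    simp only [Matrix.cons_val_zero, Matrix.cons_val_one, Matrix.cons_val_two, Matrix.tail_cons,
      Matrix.head_cons, nonpos_iff_eq_zero, one_ne_zero, if_false, Nat.add_eq_zero_iff, and_false,
      Nat.cast_zero, zero_mul, sub_zero, add_zero, show d ≠ 0 by omega, mul_zero]
    rw [← mul_sum]
    refine mul_eq_zero_of_right _ (Eq.trans (sum_congr rfl fun i _ => ?_) h2)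
    rw [pow_right_comm]
  · have h1 : ∀ x, rt p x ^ (u * (p ^ (s + 1) * N)) = 1 := fun x => by
      rw [show u * (p ^ (s + 1) * N) = p * (u * p ^ s * N) by ring, pow_mul, rt_pow hp, one_pow]
    have e1 := sg_rec hs hd hp (s + 1)
    have e2 := sg_rec hs hd hp s
    simp only [h1, mul_one, al, lev, Sum.elim_inl, Sum.elim_inr, zero_le, if_true, pow_zero,
      one_mul, Nat.sub_zero, sum_const, card_univ, Fintype.card_fin, nsmul_eq_mul]
    simp only [Matrix.cons_val_zero, Matrix.cons_val_one, Matrix.cons_val_two, Matrix.tail_cons,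
      Matrix.head_cons, le_add_iff_nonneg_left, zero_le, if_true, pow_one, Nat.add_sub_cancel,
      add_le_add_iff_right, Nat.add_sub_add_right]
    rw [e1, e2]
    split_ifs <;> push_cast <;> ring

theorem not_dvd {p u s : ℕ} (hp : p.Prime) {l : List ℕ} (hl : ∀ q ∈ l, q.Prime) (hpl : p ∉ l)
    (hu : ∀ q ∈ l, ¬ q ∣ u) : ∀ q ∈ l, ¬ q ∣ u * p ^ s := fun q hq h =>
  ((hl q hq).dvd_mul.1 h).elim (hu q hq) fun h =>
    hpl (((Nat.prime_dvd_prime_iff_eq (hl q hq) hp).1 ((hl q hq).dvd_of_dvd_pow h)) ▸ hq)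

theorem G_mem (hs : S_Sg) {d : ℕ} (hd : 1 ≤ d) (l : List ℕ) (hn : l.Nodup)
    (hl : ∀ q ∈ l, q.Prime) (u : ℕ) (hu : ∀ q ∈ l, ¬ q ∣ u) (N : ℕ) : G d u l N ∈ WW l := by
  induction l generalizing u N with
  | nil => trivial
  | cons p l ih =>
    rcases Nat.eq_zero_or_pos N with rfl | hN
    · have : G d u (p :: l) 0 = 0 := funext fun v => by simp [G, sg]
      rw [this]
      exact zero_mem _
    have hp := hl p List.mem_cons_self
    have hl' : ∀ q ∈ l, q.Prime := fun q hq => hl q (List.mem_cons_of_mem _ hq)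
    obtain ⟨hpl, hn'⟩ := List.nodup_cons.1 hn
    obtain ⟨s, N', hN', rfl⟩ := Nat.exists_eq_pow_mul_and_not_dvd hN.ne' p hp.ne_one
    refine mem_WW.2 ⟨fun x => ?_, fun v => ?_⟩
    · have := (WW l).smul_mem ((al d p s x : ℂ) * rt p x ^ (u * (p ^ s * N')))
        (ih hn' hl' (u * p ^ s)
          (not_dvd hp hl' hpl fun q hq => hu q (List.mem_cons_of_mem _ hq)) N')
      refine (congrArg (· ∈ WW l) (funext fun v => ?_)).mp this
      rw [G_cons hs hd hp hl' hpl u s hN']
      rfl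
    · simp only [G_cons hs hd hp hl' hpl u s hN', ← mul_assoc]
      rw [← sum_mul]
      refine mul_eq_zero_of_left ?_ _
      simpa only [mul_assoc] using loc_rel hs hd hp (hu p List.mem_cons_self) s hN'

/-- tensor product with a fixed local vector -/
def tens {p : ℕ} (l : List ℕ) (y : Zp p → ℂ) : (Vx l → ℂ) →ₗ[ℂ] (Vx (p :: l) → ℂ) where
  toFun w v := y v.1 * w v.2
  map_add' _ _ := funext fun _ => mul_add _ _ _
  map_smul' _ _ := funext fun _ => mul_left_comm _ _ _

/-- the local vectors whose tensor products lie in `S` -/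
def Loc {p : ℕ} (l : List ℕ) (S : Submodule ℂ (Vx (p :: l) → ℂ)) : Submodule ℂ (Zp p → ℂ) where
  carrier := {y | ∀ w ∈ WW l, tens l y w ∈ S}
  zero_mem' w _ := by
    have : tens l (0 : Zp p → ℂ) w = 0 := funext fun v => zero_mul _
    rw [this]
    exact S.zero_mem
  add_mem' {y y'} h h' w hw := by
    have : tens l (y + y') w = tens l y w + tens l y' w := funext fun v => add_mul _ _ _
    rw [this]
    exact S.add_mem (h w hw) (h' w hw)
  smul_mem' c y h w hw := by
    have : tens l (c • y) w = c • tens l y w := funext fun v => mul_assoc _ _ _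
    rw [this]
    exact S.smul_mem c (h w hw)

/-- a spanning family of the kernel of `cz p` -/
def bv (p : ℕ) (x : Zp p) : Zp p → ℂ := fun x' =>
  (if x' = x then 1 else 0) + if x' = Sum.inr 0 then cz p x else 0

theorem le_of_bv {p : ℕ} (l : List ℕ) (S : Submodule ℂ (Vx (p :: l) → ℂ))
    (h : ∀ x, bv p x ∈ Loc l S) : WW (p :: l) ≤ S := by
  intro w hw
  obtain ⟨h1, h2⟩ := mem_WW.1 hw
  have e : w = ∑ x : Zp p, tens l (bv p x) fun v => w (x, v) := by
    funext v
    rw [Finset.sum_apply]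
    change w (v.1, v.2) = ∑ x : Zp p, bv p x v.1 * w (x, v.2)
    simp only [bv, add_mul, sum_add_distrib, ite_mul, one_mul, zero_mul]
    rw [sum_ite_eq, if_pos (mem_univ _)]
    by_cases hv : v.1 = Sum.inr 0
    · simp only [hv, if_true, h2, add_zero]
    · simp only [hv, if_false, sum_const_zero, add_zero]
  rw [e]
  exact S.sum_mem fun x _ => h x _ (h1 x)

theorem of_smul {p : ℕ} {Y : Submodule ℂ (Zp p → ℂ)} {c : ℂ} (hc : c ≠ 0) {y y' : Zp p → ℂ}
    (h : y' ∈ Y) (e : ∀ x, y' x = c * y x) : y ∈ Y :=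
  (Y.smul_mem_iff hc).1 ((show y' = c • y from funext e) ▸ h)

theorem bv_mem (hs : S_Sg) {d : ℕ} (hd : 2 ≤ d) {p : ℕ} (hp : p.Prime) {u : ℕ} (hu : ¬ p ∣ u)
    (Y : Submodule ℂ (Zp p → ℂ))
    (h : ∀ t r, ¬ p ∣ r → (fun x => (al d p t x : ℂ) * rt p x ^ (u * (p ^ t * r))) ∈ Y) (x : Zp p) :
    bv p x ∈ Y := by
  have hd1 : 1 ≤ d := by omega
  have hp0 : (p : ℂ) ≠ 0 := Nat.cast_ne_zero.2 hp.ne_zero
  have hp1 : ¬ p ∣ 1 := fun h => hp.ne_one (Nat.dvd_one.1 h)
  have g : ∀ t, (fun x => (al d p (t + 1) x : ℂ)) ∈ Y := fun t => by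
    refine of_smul one_ne_zero (h (t + 1) 1 hp1) fun x => ?_
    rw [show u * (p ^ (t + 1) * 1) = p * (u * p ^ t) by ring, pow_mul, rt_pow hp, one_pow, one_mul,
      mul_one]
  have s0 : ∀ t, t < d → sg d (p ^ t) = 1 := fun t ht => by
    rw [sg_rec hs hd1 hp, if_neg (by omega)]
  have s1 : ∀ t, t < d → sg d (p ^ (d + t)) = 1 + p ^ d := fun t ht => by
    rw [sg_rec hs hd1 hp, if_pos (by omega), Nat.add_sub_cancel_left, s0 t ht, mul_one]
  have a1 : ∀ x, (al d p 1 x : ℂ) = Sum.elim (fun _ => 1) ![(p : ℂ), 0, 0] x := by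
    have b1 := s0 0 (by omega)
    have b2 := s0 1 (by omega)
    rintro (i | i)
    · simp only [al, lev, Sum.elim_inl, zero_le, if_true, Nat.sub_zero, b2]
      simp
    · have c1 : ¬ d ≤ 1 := by omega
      have c2 : d ≠ 0 := by omega
      rw [pow_zero] at b1
      fin_cases i <;> simp [al, lev, b1, c1, c2]
  have ad : ∀ x, (al d p d x : ℂ) =
      Sum.elim (fun _ => 1 + (p : ℂ) ^ d) ![(p : ℂ), (p : ℂ) ^ d, 0] x := by
    have b1 := s0 0 (by omega)
    have b2 := s0 (d - 1) (by omega)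
    have b3 := s1 0 (by omega)
    rw [pow_zero] at b1
    rw [add_zero] at b3
    rintro (i | i)
    · simp [al, lev, b3]
    · fin_cases i <;> simp [al, lev, b1, b2, hd1]
  have ae : ∀ x, (al d p (d + 1) x : ℂ) = Sum.elim (fun _ => 1 + (p : ℂ) ^ d)
      ![(p : ℂ) * (1 + (p : ℂ) ^ d), (p : ℂ) ^ d, (p : ℂ) ^ (d + 1)] x := by
    have b1 := s0 0 (by omega)
    have b2 := s0 1 (by omega)
    have b3 := s1 0 (by omega)
    have b4 := s1 1 (by omega)
    rw [pow_zero] at b1
    rw [pow_one] at b2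
    rw [add_zero] at b3
    rintro (i | i)
    · simp [al, lev, b4]
    · fin_cases i <;> simp [al, lev, b1, b2, b3]
  have g1 := g 0
  have gd := g (d - 1)
  have ge := g d
  rw [zero_add] at g1
  rw [Nat.sub_add_cancel hd1] at gd
  have k1 : bv p (Sum.inr 1) ∈ Y := by
    refine of_smul (pow_ne_zero d hp0) (Y.sub_mem gd (Y.smul_mem (1 + (p : ℂ) ^ d) g1)) fun x => ?_
    simp only [Pi.sub_apply, Pi.smul_apply, smul_eq_mul, a1, ad]
    rcases x with i | i
    · simp [bv]
    · fin_cases i <;> simp [bv, cz, czI]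
      ring
  rcases x with i | i
  · set ω := Complex.exp (2 * Real.pi * Complex.I / p) ^ u with hω
    have hpr : IsPrimitiveRoot ω p :=
      (prim_rt hp).pow_of_coprime u (hp.coprime_iff_not_dvd.2 hu).symm
    have hω0 : ω ≠ 0 := hpr.ne_zero hp.ne_zero
    have hF : ∀ r ∈ range p, (Sum.elim (fun j : Fin p => (ω ^ (j : ℕ)) ^ r)
        ![if r = 0 then (p : ℂ) else 0, 0, 0] : Zp p → ℂ) ∈ Y := by
      intro r hr
      by_cases h0 : r = 0
      · refine of_smul one_ne_zero g1 fun x => ?_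
        rw [a1, h0]
        simp
      · refine of_smul one_ne_zero (h 0 r (Nat.not_dvd_of_pos_of_lt (by omega) (mem_range.1 hr)))
          fun x => ?_
        have b1 := s0 0 (by omega)
        have c2 : d ≠ 0 := by omega
        rw [pow_zero] at b1
        rcases x with j | j
        · simp only [al, lev, rt, Sum.elim_inl, le_refl, if_true, pow_zero, Nat.sub_zero, b1,
            one_mul, Nat.cast_one, hω]
          rw [pow_mul, pow_right_comm _ (j : ℕ) u]
        · fin_cases j <;> simp [al, lev, h0, c2]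
    refine of_smul hp0 (Y.sum_mem fun r hr => Y.smul_mem (((ω ^ (i : ℕ))⁻¹) ^ r) (hF r hr))
      fun x => ?_
    rw [Finset.sum_apply]
    simp only [Pi.smul_apply, smul_eq_mul]
    rcases x with j | j
    · simp only [Sum.elim_inl, ← mul_pow]
      by_cases hj : j = i
      · subst hj
        simp [bv, inv_mul_cancel₀ (pow_ne_zero _ hω0)]
      · rw [geo]
        · simp [bv, hj]
        · rw [mul_pow, inv_pow, pow_right_comm, pow_right_comm ω (j : ℕ), hpr.pow_eq_one]
          simp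
        · intro e
          rw [inv_mul_eq_one₀ (pow_ne_zero _ hω0)] at e
          exact hj (Fin.ext (hpr.pow_inj j.2 i.2 e.symm))
    · fin_cases j <;> simp [bv, cz, czI, hp.pos]
  · fin_cases i
    · refine of_smul one_ne_zero Y.zero_mem fun x => ?_
      rcases x with j | j
      · simp [bv]
      · fin_cases j <;> simp [bv, cz, czI]
    · exact k1
    · refine of_smul (pow_ne_zero (d + 1) hp0) (Y.sub_mem (Y.sub_mem ge
        (Y.smul_mem (1 + (p : ℂ) ^ d) g1)) (Y.smul_mem ((p : ℂ) ^ d) k1)) fun x => ?_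
      simp only [Pi.sub_apply, Pi.smul_apply, smul_eq_mul, a1, ae]
      rcases x with j | j
      · simp [bv]
      · fin_cases j <;> simp [bv, cz, czI]
        ring

theorem G_span (hs : S_Sg) {d : ℕ} (hd : 2 ≤ d) (l : List ℕ) (hn : l.Nodup)
    (hl : ∀ q ∈ l, q.Prime) (u a s : ℕ) (hu : ∀ q ∈ l, ¬ q ∣ u) (ha : 1 ≤ a)
    (hla : ∀ q ∈ l, ¬ q ∣ a) :
    WW l ≤ Submodule.span ℂ {w | ∃ N : ℕ, N ≡ s [MOD a] ∧ w = G d u l N} := by
  have hd1 : 1 ≤ d := by omega
  induction l generalizing u a s with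
  | nil =>
    intro w _
    have h1 : (sg d (s + a) : ℂ) ≠ 0 :=
      Nat.cast_ne_zero.2 (Nat.one_le_iff_ne_zero.1 ((hs d hd1).2.2.1 _ (by omega)))
    have e : w = (w () / sg d (s + a)) • G d u [] (s + a) := by
      funext v
      simp [G, jv, zv, h1]
      rfl
    rw [e]
    exact Submodule.smul_mem _ _ (Submodule.subset_span ⟨s + a, by simp [Nat.ModEq], rfl⟩)
  | cons p l ih =>
    have hp := hl p List.mem_cons_self
    have hl' : ∀ q ∈ l, q.Prime := fun q hq => hl q (List.mem_cons_of_mem _ hq)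
    obtain ⟨hpl, hn'⟩ := List.nodup_cons.1 hn
    have hpa : Nat.Coprime p a := hp.coprime_iff_not_dvd.2 (hla p List.mem_cons_self)
    refine le_of_bv l _ (bv_mem hs hd hp (hu p List.mem_cons_self) _ fun t r hr w hw => ?_)
    obtain ⟨s', -, hs'⟩ := Nat.exists_mul_mod_eq_of_coprime s (hpa.pow_left t) (by omega)
    obtain ⟨s'', h1, h2⟩ := Nat.chineseRemainder hpa.symm s' r
    have key := ih hn' hl' (u * p ^ t) (a * p ^ 1) s''
      (not_dvd hp hl' hpl fun q hq => hu q (List.mem_cons_of_mem _ hq))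
      (Nat.mul_pos ha (pow_pos hp.pos _))
      (not_dvd hp hl' hpl fun q hq => hla q (List.mem_cons_of_mem _ hq)) hw
    refine Submodule.mem_comap.1 ((Submodule.span_le (p := Submodule.comap (tens l _) _)).2 ?_ key)
    rintro _ ⟨N, hN, rfl⟩
    rw [pow_one] at hN
    have hNp : N ≡ r [MOD p] := (hN.of_mul_left a).trans h2
    have hNa : N ≡ s' [MOD a] := (hN.of_mul_right p).trans h1
    have hnd : ¬ p ∣ N := fun h => hr ((hNp.dvd_iff (dvd_refl p)).1 h)
    refine Submodule.subset_span ⟨p ^ t * N, (hNa.mul_left _).trans hs', funext fun v => ?_⟩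
    refine Eq.trans ?_ (G_cons hs hd1 hp hl' hpl u t hnd v.1 v.2).symm
    rw [pow_eq_pow_of_modEq ((hNp.mul_left _).mul_left u) (rt_pow hp v.1)]
    rfl

end PREAL

theorem s_mem (hs : S_Sg) : S_Mem := by
  intro d l hd hn hl N
  rw [← PREAL.G_one]
  exact PREAL.G_mem hs hd l hn hl 1 (fun q hq h => (hl q hq).ne_one (Nat.dvd_one.1 h)) N

theorem s_span (hs : S_Sg) : S_Span := by
  intro d l hd hn hl a s ha hla
  simp only [← PREAL.G_one]
  exact PREAL.G_span hs hd l hn hl 1 a s (fun q hq h => (hl q hq).ne_one (Nat.dvd_one.1 h)) ha hla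

theorem s_rel : S_Rel := fun d l hl =>
  ⟨PREAL.eqns l, PREAL.jv_mem d l, PREAL.one_le_jv d l hl, PREAL.cop_jv d l hl,
    PREAL.zv_pow l hl, PREAL.base_vx d l hl⟩

end

end Pool.Agent.P.MP_85b516_nt
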