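import Pool.Agent.P.MP_85b516_nt.Stmt

/-! Package RED: reduction of an algebraic relation modulo a prime, and periodic sections. -/

open PowerSeries Finset

namespace Pool.Agent.P.MP_85b516_nt

noncomputable section

namespace PRED

lemma natCast_mul_coeff (l : ℕ) (f : ℤ⟦X⟧) (n : ℕ) :
    coeff n ((l : ℤ⟦X⟧) * f) = (l : ℤ) * coeff n f := by
  have : (l : ℤ⟦X⟧) = C (l : ℤ) := by simp
  rw [this, coeff_C_mul]

lemma dvd_of_coeff (l : ℕ) (f : ℤ⟦X⟧) (h : ∀ n, (l : ℤ) ∣ coeff n f) : (l : ℤ⟦X⟧) ∣ f := by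
  refine ⟨PowerSeries.mk fun n => coeff n f / l, ?_⟩
  ext n
  rw [natCast_mul_coeff, coeff_mk, Int.mul_ediv_cancel' (h n)]

lemma natCast_ne (l : ℕ) (hl : l ≠ 0) : (l : ℤ⟦X⟧) ≠ 0 := by
  intro h
  have := congrArg (constantCoeff (R := ℤ)) h
  simp at this
  exact hl this

lemma rat_div (l m : ℕ) (hl : l ≠ 0) (f : ℤ⟦X⟧) (h : Rat (l * m) ((l : ℤ⟦X⟧) * f)) : Rat m f := by
  obtain ⟨D, N, q, h0, e⟩ := h
  have hN : Polynomial.C (l : ℤ) ∣ N := by
    rw [Polynomial.C_dvd_iff_dvd_coeff]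
    intro i
    have e1 : (N : ℤ⟦X⟧) = (l : ℤ⟦X⟧) * ((D : ℤ⟦X⟧) * f - (m : ℤ⟦X⟧) * q) := by
      push_cast at e
      linear_combination -e
    have e2 := congrArg (coeff i) e1
    rw [natCast_mul_coeff, Polynomial.coeff_coe] at e2
    exact ⟨_, e2⟩
  obtain ⟨N', rfl⟩ := hN
  refine ⟨D, N', q, h0, ?_⟩
  apply mul_left_cancel₀ (natCast_ne l hl)
  have e3 : ((Polynomial.C (l : ℤ) * N' : Polynomial ℤ) : ℤ⟦X⟧) = (l : ℤ⟦X⟧) * (N' : ℤ⟦X⟧) := by
    rw [Polynomial.coe_mul, Polynomial.coe_C]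
    simp
  rw [e3] at e
  push_cast at e
  linear_combination e

lemma map_coe (l : ℕ) (D : Polynomial ℤ) :
    PowerSeries.map (Int.castRingHom (ZMod l)) (D : ℤ⟦X⟧) =
      algebraMap (Polynomial (ZMod l)) (ZMod l)⟦X⟧ (D.map (Int.castRingHom (ZMod l))) := by
  rw [PowerSeries.algebraMap_apply']
  ext n
  simp

lemma key (P : ℤ⟦X⟧) (l : ℕ) (hl : l.Prime)
    (hP : ¬ IsAlgebraic (Polynomial (ZMod l)) (PowerSeries.map (Int.castRingHom (ZMod l)) P))
    (Q : Polynomial ℤ⟦X⟧) (hQ : Q.eval P = 0) (m : ℕ) (hm : ∀ i, Rat (l * m) (Q.coeff i))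
    (i n : ℕ) : (l : ℤ) ∣ coeff n (Q.coeff i) := by
  classical
  have := Fact.mk hl
  choose D N q h0 e using hm
  set φ := PowerSeries.map (Int.castRingHom (ZMod l)) with hφ
  set ψ := algebraMap (Polynomial (ZMod l)) (ZMod l)⟦X⟧ with hψ
  let D' : ℕ → Polynomial (ZMod l) := fun k => (D k).map (Int.castRingHom (ZMod l))
  let N' : ℕ → Polynomial (ZMod l) := fun k => (N k).map (Int.castRingHom (ZMod l))
  have hD0 : ∀ k, D' k ≠ 0 := by
    intro k hk
    have := congrArg (fun p => Polynomial.coeff p 0) hk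
    simp [D', h0 k] at this
  have hψinj : ∀ p, ψ p = 0 → p = 0 := by
    intro p hp
    rw [hψ, PowerSeries.algebraMap_apply'] at hp
    ext k
    have := congrArg (coeff k) hp
    simpa using this
  have e' : ∀ k, ψ (D' k) * φ (Q.coeff k) = ψ (N' k) := by
    intro k
    have := congrArg φ (e k)
    rw [map_mul, map_add, map_mul, hφ, map_coe, map_coe] at this
    rw [this]
    have z : PowerSeries.map (Int.castRingHom (ZMod l)) ((l * m : ℕ) : ℤ⟦X⟧) = 0 := by
      rw [map_natCast]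
      have : ((l * m : ℕ) : (ZMod l)⟦X⟧) = C ((l * m : ℕ) : ZMod l) := by rw [map_natCast]
      rw [this]
      simp
    rw [z, zero_mul, add_zero]
  let R : Polynomial (Polynomial (ZMod l)) :=
    ∑ k ∈ Q.support, Polynomial.monomial k (N' k * ∏ j ∈ Q.support.erase k, D' j)
  have hR : Polynomial.aeval (φ P) R = 0 := by
    have h1 : φ (Q.eval P) = ∑ k ∈ Q.support, φ (Q.coeff k) * φ P ^ k := by
      rw [Polynomial.eval_eq_sum, Polynomial.sum_def, map_sum]
      simp
    have h2 : Polynomial.aeval (φ P) R =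
        (∏ j ∈ Q.support, ψ (D' j)) * ∑ k ∈ Q.support, φ (Q.coeff k) * φ P ^ k := by
      simp only [R, map_sum, Polynomial.aeval_monomial, Finset.mul_sum]
      refine Finset.sum_congr rfl fun k hk => ?_
      rw [← Finset.mul_prod_erase _ _ hk, map_mul, map_prod, ← hψ, ← e' k]
      ring
    rw [h2, ← h1, hQ, map_zero, mul_zero]
  have hR0 : R = 0 := by
    by_contra hne
    exact hP ⟨R, hne, hR⟩
  by_cases hi : i ∈ Q.support
  · have h3 : R.coeff i = N' i * ∏ j ∈ Q.support.erase i, D' j := by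
      simp only [R, Polynomial.finsetSum_coeff, Polynomial.coeff_monomial]
      rw [Finset.sum_ite_eq' Q.support i, if_pos hi]
    rw [hR0, Polynomial.coeff_zero] at h3
    have h4 : N' i = 0 := by
      rcases mul_eq_zero.1 h3.symm with h | h
      · exact h
      · exact absurd h (Finset.prod_ne_zero_iff.2 fun j _ => hD0 j)
    have h5 := e' i
    rw [h4, map_zero] at h5
    have h6 : φ (Q.coeff i) = 0 := by
      rcases mul_eq_zero.1 h5 with h | h
      · exact absurd (hψinj _ h) (hD0 i)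
      · exact h
    have h7 := congrArg (coeff n) h6
    rw [hφ, coeff_map, map_zero] at h7
    exact (ZMod.intCast_zmod_eq_zero_iff_dvd _ l).1 h7
  · rw [Polynomial.notMem_support_iff.1 hi]
    simp

lemma rat_of_eventually (m K : ℕ) (D : Polynomial ℤ) (h0 : D.coeff 0 = 1) (f : ℤ⟦X⟧)
    (h : ∀ N, K ≤ N → (m : ℤ) ∣ coeff N ((D : ℤ⟦X⟧) * f)) : Rat m f := by
  refine ⟨D, trunc K ((D : ℤ⟦X⟧) * f),
    PowerSeries.mk fun N => if N < K then 0 else coeff N ((D : ℤ⟦X⟧) * f) / m, h0, ?_⟩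
  ext N
  rw [map_add, natCast_mul_coeff, Polynomial.coeff_coe, coeff_trunc, coeff_mk]
  split_ifs with hN
  · simp
  · rw [Int.mul_ediv_cancel' (h N (not_lt.1 hN)), zero_add]

lemma per_mul (p : ℕ → ℕ) (a b m h : ℕ)
    (hp : ∀ n, p (a * (n + h) + b) ≡ p (a * n + b) [MOD m]) (t n : ℕ) :
    p (a * (n + h * t) + b) ≡ p (a * n + b) [MOD m] := by
  induction t with
  | zero => simp [Nat.ModEq]
  | succ t ih =>
    have := hp (n + h * t)
    rw [show n + h * (t + 1) = n + h * t + h by ring]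
    exact this.trans ih

lemma hs_per (p : ℕ → ℕ) (a b m h j M s : ℕ) (hj : 1 ≤ j)
    (hp : ∀ n, p (a * (n + h) + b) ≡ p (a * n + b) [MOD m]) (N : ℕ) (hN : j * b ≤ N) :
    (m : ℤ) ∣ coeff (N + j * (a * (h * M))) (Hs p a b j M s) - coeff N (Hs p a b j M s) := by
  simp only [Hs, coeff_mk]
  have e1 : (N + j * (a * (h * M))) / j = N / j + a * (h * M) := Nat.add_mul_div_left _ _ hj
  have e2 : (N + j * (a * (h * M))) % M = N % M := by
    rw [show j * (a * (h * M)) = M * (j * a * h) by ring, Nat.add_mul_mod_self_left]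
  have e3 : (N / j + a * (h * M)) % a = (N / j) % a := Nat.add_mul_mod_self_left _ _ _
  have e4 : j ∣ N + j * (a * (h * M)) ↔ j ∣ N := (Nat.dvd_add_left (Dvd.intro _ rfl))
  rw [e1, e2, e3]
  by_cases hc : j ∣ N ∧ N % M = s ∧ N / j % a = b % a
  · rw [if_pos hc, if_pos ⟨e4.2 hc.1, hc.2⟩]
    have hb : b ≤ N / j := by
      rw [Nat.le_div_iff_mul_le hj]
      rw [mul_comm]
      exact hN
    obtain ⟨n, hn⟩ : a ∣ N / j - b := (Nat.modEq_iff_dvd' hb).1 hc.2.2.symm
    have e5 : N / j = a * n + b := by omega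
    rw [e5, show a * n + b + a * (h * M) = a * (n + h * M) + b by ring]
    exact (Nat.modEq_iff_dvd.1 (per_mul p a b m h hp M n).symm)
  · rw [if_neg hc, if_neg fun hc' => hc ⟨e4.1 hc'.1, hc'.2⟩]
    simp

end PRED

open PRED

theorem s_red : S_Red := by
  intro P hP Q hQ i n hg m hm
  induction hG : (coeff n (Q.coeff i)).natAbs using Nat.strong_induction_on generalizing Q m with
  | _ G ih =>
    by_cases h1 : m = 1
    · simp [h1]
    obtain ⟨l, hl, m', rfl⟩ := Nat.exists_prime_and_dvd h1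
    have hk := key P l hl (hP l hl) Q hQ m' hm
    have hdiv : Polynomial.C (l : ℤ⟦X⟧) ∣ Q := by
      rw [Polynomial.C_dvd_iff_dvd_coeff]
      exact fun i' => dvd_of_coeff l _ (hk i')
    obtain ⟨Q', rfl⟩ := hdiv
    have hl0 := natCast_ne l hl.ne_zero
    have hQ' : Q'.eval P = 0 := by
      rw [Polynomial.eval_mul, Polynomial.eval_C] at hQ
      exact (mul_eq_zero.1 hQ).resolve_left hl0
    simp only [Polynomial.coeff_C_mul] at hg hm hG ⊢
    rw [natCast_mul_coeff] at hg hG ⊢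
    have hg' : coeff n (Q'.coeff i) ≠ 0 := right_ne_zero_of_mul hg
    have hlt : (coeff n (Q'.coeff i)).natAbs < G := by
      rw [← hG, Int.natAbs_mul, Int.natAbs_natCast]
      have := Int.natAbs_pos.2 hg'
      have := hl.two_le
      nlinarith
    have := ih _ hlt Q' hQ' hg' m' (fun i' => rat_div l m' hl.ne_zero _ (hm i')) rfl
    push_cast
    exact mul_dvd_mul_left _ this

theorem s_per : S_Per := by
  intro p a b m h j M s ha hh hj hM hp
  have hA : 0 < j * (a * (h * M)) := by positivity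
  refine rat_of_eventually m (j * b + j * (a * (h * M))) (1 - Polynomial.X ^ (j * (a * (h * M))))
    ?_ _ fun N hN => ?_
  · rw [Polynomial.coeff_sub, Polynomial.coeff_one_zero, Polynomial.coeff_X_pow, if_neg hA.ne]
    simp
  · obtain ⟨N', rfl⟩ : ∃ N', N = N' + j * (a * (h * M)) := ⟨N - j * (a * (h * M)), by omega⟩
    have e : ((1 - Polynomial.X ^ (j * (a * (h * M))) : Polynomial ℤ) : ℤ⟦X⟧) =
        1 - X ^ (j * (a * (h * M))) := by
      push_cast
      rfl
    rw [e, sub_mul, one_mul, map_sub, coeff_X_pow_mul]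
    exact hs_per p a b m h j M s hj hp N' (by omega)

end

end Pool.Agent.P.MP_85b516_nt
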