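import Pool.Agent.P.MP_85b516_nt.Stmt

/-! Sequential choice of the slices, and the two recursions for `Good`. -/

open Finset Module

namespace Pool.Agent.P.MP_85b516_nt

namespace PSEQ

noncomputable section

theorem rk_split {M N : Type} [AddCommGroup M] [Module ℂ M] [FiniteDimensional ℂ M]
    [AddCommGroup N] [Module ℂ N] (K : Submodule ℂ M) (f : M →ₗ[ℂ] N) :
    finrank ℂ ↥K = finrank ℂ ↥(K ⊓ LinearMap.ker f) + finrank ℂ ↥(K.map f) := by
  have h := LinearMap.finrank_range_add_finrank_ker (f.comp K.subtype)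
  rw [LinearMap.range_comp, Submodule.range_subtype, LinearMap.ker_comp] at h
  have e : finrank ℂ ↥(Submodule.comap K.subtype (LinearMap.ker f)) =
      finrank ℂ ↥(K ⊓ LinearMap.ker f) := by
    rw [← Submodule.finrank_map_subtype_eq, Submodule.map_comap_subtype]
  omega

variable {X Z : Type} {b : ℕ}

theorem rk_van [Finite X] [Finite Z] [DecidableEq Z] (x : Z) (A : Finset Z)
    (S : Submodule ℂ (Z × X → ℂ)) :
    finrank ℂ ↥(Van A S) =
      finrank ℂ ↥(Van (insert x A) S) + finrank ℂ ↥((Van A S).map (slice x)) := by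
  have e : Van (insert x A) S = Van A S ⊓ LinearMap.ker (slice x) := by
    ext w
    simp only [mem_Van, Submodule.mem_inf, LinearMap.mem_ker, Finset.forall_mem_insert]
    tauto
  rw [e]
  exact rk_split _ _

theorem rk_one [Finite X] [Finite Z] (x : Z) (S : Submodule ℂ (Z × X → ℂ)) :
    finrank ℂ ↥S = finrank ℂ ↥(Van {x} S) + finrank ℂ ↥(S.map (slice x)) := by
  have e : Van {x} S = S ⊓ LinearMap.ker (slice x) := by
    ext w
    simp only [mem_Van, Submodule.mem_inf, LinearMap.mem_ker, Finset.mem_singleton, forall_eq]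
  rw [e]
  exact rk_split _ _

theorem mem_upd [DecidableEq Z] {W : Submodule ℂ (X → ℂ)} {θ : Z → Fin b → X → ℂ} {x : Z}
    {A : Finset Z} (hx : x ∉ A) (t : Fin b → X → ℂ) {S : Submodule ℂ (Z × X → ℂ)}
    {w : Z × X → ℂ} :
    w ∈ KK W (Function.update θ x t) (insert x A) S ↔
      w ∈ KK W θ A S ∧ slice x w ∈ Rng W t := by
  simp only [mem_KK, Finset.forall_mem_insert, Function.update_self]
  have : (∀ y ∈ A, slice y w ∈ Rng W (Function.update θ x t y)) ↔
      ∀ y ∈ A, slice y w ∈ Rng W (θ y) := by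
    refine forall₂_congr fun y hy => ?_
    rw [Function.update_of_ne (ne_of_mem_of_not_mem hy hx)]
  rw [this]
  tauto

theorem van_le_KK {W : Submodule ℂ (X → ℂ)} (θ : Z → Fin b → X → ℂ) (A : Finset Z)
    (S : Submodule ℂ (Z × X → ℂ)) : Van A S ≤ KK W θ A S := fun w hw => by
  rw [mem_Van] at hw
  exact mem_KK.2 ⟨hw.1, fun y hy => by rw [hw.2 y hy]; exact Submodule.zero_mem _⟩

/-- The linear estimate. -/
theorem lin [Finite X] [Finite Z] [DecidableEq Z] (W : Submodule ℂ (X → ℂ))
    (θ : Z → Fin b → X → ℂ) {x : Z} {A : Finset Z} (hx : x ∉ A) (t : Fin b → X → ℂ)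
    (S : Submodule ℂ (Z × X → ℂ)) :
    finrank ℂ ↥(KK W (Function.update θ x t) (insert x A) S) + finrank ℂ ↥(Van A S) ≤
      finrank ℂ ↥(KK W θ A S) + finrank ℂ ↥(Van (insert x A) S) +
        finrank ℂ ↥((Van A S).map (slice x) ⊓ Rng W t) := by
  set K := KK W (Function.update θ x t) (insert x A) S with hK
  have h1 := Submodule.finrank_sup_add_finrank_inf_eq K (Van A S)
  have h2 : finrank ℂ ↥(K ⊔ Van A S) ≤ finrank ℂ ↥(KK W θ A S) :=
    Submodule.finrank_mono (sup_le (fun w hw => ((mem_upd hx t).1 hw).1) (van_le_KK θ A S))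
  have h3 := rk_split (K ⊓ Van A S) (slice x)
  have h4 : finrank ℂ ↥(K ⊓ Van A S ⊓ LinearMap.ker (slice x)) ≤
      finrank ℂ ↥(Van (insert x A) S) := by
    refine Submodule.finrank_mono fun w hw => ?_
    obtain ⟨⟨_, h5⟩, h6⟩ := hw
    have h7 := mem_Van.1 h5
    refine mem_Van.2 ⟨h7.1, ?_⟩
    rw [Finset.forall_mem_insert]
    exact ⟨h6, h7.2⟩
  have h5 : finrank ℂ ↥((K ⊓ Van A S).map (slice x)) ≤
      finrank ℂ ↥((Van A S).map (slice x) ⊓ Rng W t) := by
    refine Submodule.finrank_mono ?_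
    rintro _ ⟨w, ⟨h6, h7⟩, rfl⟩
    exact ⟨⟨w, h7, rfl⟩, ((mem_upd hx t).1 h6).2⟩
  omega

/-- The quadratic estimate. -/
theorem quad [Finite X] [Finite Z] [DecidableEq Z] (W : Submodule ℂ (X → ℂ))
    (θ : Z → Fin b → X → ℂ) {x : Z} {A : Finset Z} (hx : x ∉ A) (t : Fin b → X → ℂ)
    (S : Submodule ℂ (Z × X → ℂ)) :
    finrank ℂ ↥(KK W (Function.update θ x t) (insert x A) S) ≤
      finrank ℂ ↥(KK W θ A (Van {x} S)) +
        finrank ℂ ↥((KK W θ A S).map (slice x) ⊓ Rng W t) := by
  set K := KK W (Function.update θ x t) (insert x A) S with hK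
  have h3 := rk_split K (slice x)
  have h4 : finrank ℂ ↥(K ⊓ LinearMap.ker (slice x)) ≤ finrank ℂ ↥(KK W θ A (Van {x} S)) := by
    refine Submodule.finrank_mono fun w hw => ?_
    obtain ⟨h5, h6⟩ := hw
    have h7 := mem_KK.1 ((mem_upd hx t).1 h5).1
    refine mem_KK.2 ⟨mem_Van.2 ⟨h7.1, fun y hy => ?_⟩, h7.2⟩
    rw [Finset.mem_singleton.1 hy]
    exact h6
  have h5 : finrank ℂ ↥(K.map (slice x)) ≤
      finrank ℂ ↥((KK W θ A S).map (slice x) ⊓ Rng W t) := by
    refine Submodule.finrank_mono ?_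
    rintro _ ⟨w, h6, rfl⟩
    have h7 := (mem_upd hx t).1 h6
    exact ⟨⟨w, h7.1, rfl⟩, h7.2⟩
  omega

theorem van_bot [Fintype Z] [DecidableEq Z] {W : Submodule ℂ (X → ℂ)} {c : Z → ℂ}
    (hc : ∀ x, c x ≠ 0) {x : Z} {A : Finset Z} {S : Submodule ℂ (Z × X → ℂ)}
    (hS : S ≤ ext W c) (h : ∀ w ∈ S, ∀ y, y ∉ insert x A → slice y w = 0) :
    finrank ℂ ↥(Van A S) = 0 := by
  have : Van A S = ⊥ := by
    rw [eq_bot_iff]
    intro w hw
    obtain ⟨h1, h2⟩ := mem_Van.1 hw
    have h3 : ∀ y, y ≠ x → slice y w = 0 := fun y hy => by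
      by_cases hA : y ∈ A
      · exact h2 y hA
      · exact h w h1 y (by simp [hy, hA])
    have h4 := (mem_ext.1 (hS h1)).2
    rw [Submodule.mem_bot]
    funext ⟨y, v⟩
    by_cases hy : y = x
    · subst hy
      have h5 := h4 v
      rw [Finset.sum_eq_single y (fun y' _ hy' => by
        have := congrFun (h3 y' hy') v
        rw [slice_apply] at this
        rw [this]
        simp) (by simp)] at h5
      exact (mul_eq_zero.1 h5).resolve_left (hc y)
    · exact congrFun (h3 y hy) v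
  rw [this, finrank_bot]

theorem rk_sum [Finite X] [Fintype Z] (S : Submodule ℂ (Z × X → ℂ)) :
    finrank ℂ ↥S ≤ ∑ x, finrank ℂ ↥(S.map (slice x)) := by
  let F : S →ₗ[ℂ] (∀ x : Z, ↥(S.map (slice x))) :=
    LinearMap.pi fun x => (slice x).submoduleMap S
  have hF : Function.Injective F := by
    refine (injective_iff_map_eq_zero _).2 fun w hw => ?_
    ext ⟨y, v⟩
    have h1 := congrArg Subtype.val (congrFun hw y)
    exact congrFun h1 v
  have := LinearMap.finrank_le_finrank_of_injective hF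
  rwa [Module.finrank_pi_fintype] at this

theorem arith {l p q n k k' kv s s' sA v y T1 T2 R1 R2 : ℝ} (hl : 0 ≤ l) (hp : 0 ≤ p)
    (hq : 0 ≤ q) (hn : 0 ≤ n) (a1 : k + s' ≤ k' + sA + R1) (a2 : k ≤ kv + R2)
    (a3 : s' = sA + T1) (a4 : T2 ≤ k') (a5 : v ≤ s) (a6 : q * s' = 0) :
    (p + l * q) * (l * s + (1 - l) * s') + 0 * (n * l ^ 2 * s) +
        (0 * (l * v + (1 - l) * y) + q * (n * l ^ 2 * v)) -
        ((p + l * q + 0) * k' + (0 + q) * kv) + (l * (p * T1 + q * T2) - (p * R1 + q * R2)) ≤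
      p * (l * s + (1 - l) * sA) + q * ((n + 1) * l ^ 2 * s) - (p + q) * k := by
  have b1 := mul_le_mul_of_nonneg_left a1 hp
  have b2 := mul_le_mul_of_nonneg_left a2 hq
  have b4 := mul_le_mul_of_nonneg_left a4 (mul_nonneg hl hq)
  have b5 := mul_le_mul_of_nonneg_left a5 (mul_nonneg hq (mul_nonneg hn (sq_nonneg l)))
  have b3 : l * p * s' = l * p * (sA + T1) := by rw [a3]
  have b6 : l * (1 - l) * (q * s') = 0 := by rw [a6, mul_zero]
  linarith

end

end PSEQ

open PSEQ in
theorem s_seq : S_Seq := by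
  intro X Z _ _ _ W c b lam hl hc hG A
  induction A using Finset.induction_on with
  | empty =>
    intro ι _ S p q hS hp hq hv
    obtain ⟨t, ht, hI, -⟩ := hG Empty (fun _ => ⊥) (fun _ => 0) (fun i => i.elim) (fun i => i.elim)
    refine ⟨fun _ => t, fun _ => ht, fun _ => hI, Finset.sum_le_sum fun i _ => ?_⟩
    have e1 : KK W (fun _ => t) (∅ : Finset Z) (S i) = S i := by
      ext w
      simp [mem_KK]
    have e2 : Van (∅ : Finset Z) (S i) = S i := by
      ext w
      simp [mem_Van]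
    rw [e1, e2]
    by_cases h0 : q i = 0
    · rw [h0]
      apply le_of_eq
      ring
    · have e3 : S i = ⊥ := by
        rw [eq_bot_iff]
        intro w hw
        rw [Submodule.mem_bot]
        funext ⟨y, v⟩
        exact congrFun (hv i h0 w hw y (by simp)) v
      rw [e3, finrank_bot]
      simp
  | insert x A hx ih =>
    intro ι _ S p q hS hp hq hv
    obtain ⟨θ, hθ, hI, h1⟩ := ih (ι ⊕ ι) (Sum.elim S fun i => Van {x} (S i))
      (Sum.elim (fun i => p i + lam * q i) fun _ => 0) (Sum.elim (fun _ => 0) q)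
      (by
        rintro (i | i)
        · exact hS i
        · exact fun w hw => hS i (mem_Van.1 hw).1)
      (by
        rintro (i | i)
        · exact add_nonneg (hp i) (mul_nonneg hl (hq i))
        · exact le_rfl)
      (by
        rintro (i | i)
        · exact le_rfl
        · exact hq i)
      (by
        rintro (i | i) h0 w hw y hy
        · exact absurd rfl h0
        · obtain ⟨h2, h3⟩ := mem_Van.1 hw
          by_cases hyx : y = x
          · exact h3 y (by simp [hyx])
          · exact hv i h0 w h2 y (by simp [hyx, hy]))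
    obtain ⟨t, ht, hIt, h2⟩ := hG (ι ⊕ ι)
      (Sum.elim (fun i => (Van A (S i)).map (slice x)) fun i => (KK W θ A (S i)).map (slice x))
      (Sum.elim p q)
      (by
        rintro (i | i) _ ⟨w, hw, rfl⟩
        · exact (mem_ext.1 (hS i (mem_Van.1 hw).1)).1 x
        · exact (mem_ext.1 (hS i (mem_KK.1 hw).1)).1 x)
      (by
        rintro (i | i)
        · exact hp i
        · exact hq i)
    refine ⟨Function.update θ x t, fun y g => ?_, fun y => ?_, ?_⟩
    · by_cases hy : y = x
      · subst hy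
        rw [Function.update_self]
        exact ht g
      · rw [Function.update_of_ne hy]
        exact hθ y g
    · by_cases hy : y = x
      · subst hy
        rw [Function.update_self]
        exact hIt
      · rw [Function.update_of_ne hy]
        exact hI y
    simp only [Fintype.sum_sum_type, Sum.elim_inl, Sum.elim_inr] at h1 h2
    rw [← Finset.sum_add_distrib, ← Finset.sum_add_distrib] at h1 h2
    rw [Finset.mul_sum] at h2
    rw [← sub_nonneg, ← Finset.sum_sub_distrib] at h1 h2 ⊢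
    refine le_trans (add_nonneg h1 h2) ?_
    rw [← Finset.sum_add_distrib]
    refine Finset.sum_le_sum fun i _ => ?_
    have a1 : (finrank ℂ ↥(KK W (Function.update θ x t) (insert x A) (S i)) : ℝ) +
        finrank ℂ ↥(Van A (S i)) ≤ finrank ℂ ↥(KK W θ A (S i)) +
          finrank ℂ ↥(Van (insert x A) (S i)) +
            finrank ℂ ↥((Van A (S i)).map (slice x) ⊓ Rng W t) := by
      exact_mod_cast lin W θ hx t (S i)
    have a2 : (finrank ℂ ↥(KK W (Function.update θ x t) (insert x A) (S i)) : ℝ) ≤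
        finrank ℂ ↥(KK W θ A (Van {x} (S i))) +
          finrank ℂ ↥((KK W θ A (S i)).map (slice x) ⊓ Rng W t) := by
      exact_mod_cast quad W θ hx t (S i)
    have a3 : (finrank ℂ ↥(Van A (S i)) : ℝ) = finrank ℂ ↥(Van (insert x A) (S i)) +
        finrank ℂ ↥((Van A (S i)).map (slice x)) := by
      exact_mod_cast rk_van x A (S i)
    have a4 : (finrank ℂ ↥((KK W θ A (S i)).map (slice x)) : ℝ) ≤
        finrank ℂ ↥(KK W θ A (S i)) := by
      exact_mod_cast Submodule.finrank_map_le _ _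
    have a5 : (finrank ℂ ↥(Van {x} (S i)) : ℝ) ≤ finrank ℂ ↥(S i) := by
      exact_mod_cast Submodule.finrank_mono fun w hw => (mem_Van.1 hw).1
    have a6 : q i * (finrank ℂ ↥(Van A (S i)) : ℝ) = 0 := by
      by_cases h0 : q i = 0
      · rw [h0, zero_mul]
      · rw [van_bot hc (hS i) (hv i h0)]
        simp
    rw [Finset.card_insert_of_notMem hx]
    push_cast
    exact arith hl (hp i) (hq i) (Nat.cast_nonneg _) a1 a2 a3 a4 a5 a6

open PSEQ in
theorem s_ext (h1 : S_Step) (h2 : S_Seq) : S_Ext := by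
  classical
  intro X Z _ _ W c b lam hl hW hc hZ hG
  have hn : (0 : ℝ) < Fintype.card Z := by exact_mod_cast Fintype.card_pos
  have hV : ∀ (z : Z) (S : Submodule ℂ (Z × X → ℂ)), S ≤ ext W c → Van {z} S ≤ ext W c :=
    fun z S hS w hw => hS (mem_Van.1 hw).1
  constructor
  · intro ι _ S p hS hp
    obtain ⟨z, -, hz⟩ := Finset.exists_max_image (univ : Finset Z)
      (fun z => ∑ i, p i * (finrank ℂ ↥((S i).map (slice z)) : ℝ)) Finset.univ_nonempty
    obtain ⟨θ, hθ, hI, h3⟩ := h2 X Z W c b lam hl hc.1 hG (univ.erase z) ι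
      (fun i => Van {z} (S i)) p (fun _ => 0) (fun i => hV z _ (hS i)) hp (fun _ => le_rfl)
      (fun i h0 => absurd rfl h0)
    obtain ⟨θ', hθ', hI', h4⟩ := h1 X Z W c b hW hc z θ hθ hI ι S hS
    refine ⟨θ', hθ', hI', ?_⟩
    have e1 : ∀ i, finrank ℂ ↥(Van (univ.erase z) (Van {z} (S i))) = 0 := fun i =>
      van_bot (x := z) hc.1 (hV z _ (hS i)) fun w _ y hy => absurd (by simp) hy
    simp only [e1, add_zero, zero_mul, Nat.cast_zero, mul_zero] at h3
    have e2 : ∑ i, p i * (finrank ℂ ↥(S i) : ℝ) ≤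
        Fintype.card Z * ∑ i, p i * (finrank ℂ ↥((S i).map (slice z)) : ℝ) := by
      calc ∑ i, p i * (finrank ℂ ↥(S i) : ℝ)
          ≤ ∑ i, p i * ∑ x, (finrank ℂ ↥((S i).map (slice x)) : ℝ) :=
            Finset.sum_le_sum fun i _ => mul_le_mul_of_nonneg_left
              (by exact_mod_cast rk_sum (S i)) (hp i)
        _ = ∑ x, ∑ i, p i * (finrank ℂ ↥((S i).map (slice x)) : ℝ) := by
            rw [Finset.sum_comm]
            exact Finset.sum_congr rfl fun i _ => Finset.mul_sum _ _ _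
        _ ≤ ∑ _x : Z, ∑ i, p i * (finrank ℂ ↥((S i).map (slice z)) : ℝ) :=
            Finset.sum_le_sum fun x hx => hz x hx
        _ = _ := by rw [Finset.sum_const, Finset.card_univ, nsmul_eq_mul]
    have e3 : ∑ i, p i * (lam * (finrank ℂ ↥(Van {z} (S i)) : ℝ)) =
        lam * (∑ i, p i * (finrank ℂ ↥(S i) : ℝ) -
          ∑ i, p i * (finrank ℂ ↥((S i).map (slice z)) : ℝ)) := by
      rw [← Finset.sum_sub_distrib, Finset.mul_sum]
      refine Finset.sum_congr rfl fun i _ => ?_
      have : (finrank ℂ ↥(S i) : ℝ) =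
          finrank ℂ ↥(Van {z} (S i)) + finrank ℂ ↥((S i).map (slice z)) := by
        exact_mod_cast rk_one z (S i)
      rw [this]
      ring
    have e4 : 1 / (Fintype.card Z : ℝ) * ∑ i, p i * (finrank ℂ ↥(S i) : ℝ) ≤
        ∑ i, p i * (finrank ℂ ↥((S i).map (slice z)) : ℝ) := by
      rw [one_div, inv_mul_le_iff₀ hn]
      exact e2
    calc ∑ i, p i * (finrank ℂ ↥(S i ⊓ Rng (ext W c) θ') : ℝ)
        ≤ ∑ i, p i * (finrank ℂ ↥(KK W θ (univ.erase z) (Van {z} (S i))) : ℝ) :=
          Finset.sum_le_sum fun i _ =>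
            mul_le_mul_of_nonneg_left (by exact_mod_cast h4 i) (hp i)
      _ ≤ _ := h3
      _ = _ := e3
      _ ≤ _ := by
          have := mul_le_mul_of_nonneg_left e4 hl
          linarith
  · intro ι _ S p hS hp
    obtain ⟨z⟩ := hZ
    obtain ⟨θ, hθ, hI, h3⟩ := h2 X Z W c b lam hl hc.1 hG (univ.erase z) ι
      (fun i => Van {z} (S i)) (fun _ => 0) p (fun i => hV z _ (hS i)) (fun _ => le_rfl) hp
      (fun i _ w hw y hy => (mem_Van.1 hw).2 y (by simpa using hy))
    obtain ⟨θ', hθ', hI', h4⟩ := h1 X Z W c b hW hc z θ hθ hI ι S hS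
    refine ⟨θ', hθ', hI', ?_⟩
    simp only [zero_add, zero_mul] at h3
    have e1 : (((univ.erase z).card : ℕ) : ℝ) ≤ Fintype.card Z := by
      exact_mod_cast Finset.card_le_univ _
    calc ∑ i, p i * (finrank ℂ ↥(S i ⊓ Rng (ext W c) θ') : ℝ)
        ≤ ∑ i, p i * (finrank ℂ ↥(KK W θ (univ.erase z) (Van {z} (S i))) : ℝ) :=
          Finset.sum_le_sum fun i _ =>
            mul_le_mul_of_nonneg_left (by exact_mod_cast h4 i) (hp i)
      _ ≤ _ := h3
      _ ≤ _ := by
          rw [Finset.mul_sum]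
          refine Finset.sum_le_sum fun i _ => ?_
          have a5 : (finrank ℂ ↥(Van {z} (S i)) : ℝ) ≤ finrank ℂ ↥(S i) := by
            exact_mod_cast Submodule.finrank_mono fun w hw => (mem_Van.1 hw).1
          have a6 : (((univ.erase z).card : ℕ) : ℝ) * lam ^ 2 *
              (finrank ℂ ↥(Van {z} (S i)) : ℝ) ≤
              (Fintype.card Z : ℝ) * lam ^ 2 * (finrank ℂ ↥(S i) : ℝ) :=
            mul_le_mul (mul_le_mul_of_nonneg_right e1 (sq_nonneg _)) a5 (Nat.cast_nonneg _)
              (by positivity)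
          have := mul_le_mul_of_nonneg_left a6 (hp i)
          linarith

end Pool.Agent.P.MP_85b516_nt
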