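import Pool.Agent.P.MP_85b516_nt.Stmt

/-! Package SG: arithmetic of `sg` and transcendence modulo primes. -/

open PowerSeries Finset

namespace Pool.Agent.P.MP_85b516_nt

namespace PSG

lemma sg_eq (d N : ℕ) (hd : 1 ≤ d) :
    sg d N = ∑ k ∈ N.divisors, if k ^ d ∣ N then k ^ d else 0 := by
  rw [sg, ← Finset.sum_filter]
  refine Finset.sum_congr ?_ fun _ _ => rfl
  ext k
  simp only [Finset.mem_filter, Finset.mem_Icc, Nat.mem_divisors]
  constructor
  · rintro ⟨⟨h1, h2⟩, h3⟩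
    exact ⟨⟨(dvd_pow_self k (by omega)).trans h3, by omega⟩, h3⟩
  · rintro ⟨⟨h1, h2⟩, h3⟩
    exact ⟨⟨Nat.pos_of_dvd_of_pos h1 (Nat.pos_of_ne_zero h2),
      Nat.le_of_dvd (Nat.pos_of_ne_zero h2) h1⟩, h3⟩

lemma sg_mul (d : ℕ) (hd : 1 ≤ d) (m n : ℕ) (h : Nat.Coprime m n) :
    sg d (m * n) = sg d m * sg d n := by
  rw [sg_eq d _ hd, sg_eq d _ hd, sg_eq d _ hd, Nat.divisors_mul, Finset.mul_def,
    Finset.sum_image h.mul_injOn_divisors, Finset.sum_mul_sum, Finset.sum_product]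
  refine Finset.sum_congr rfl fun a ha => Finset.sum_congr rfl fun b hb => ?_
  have ha' := Nat.dvd_of_mem_divisors ha
  have hb' := Nat.dvd_of_mem_divisors hb
  have key : (a * b) ^ d ∣ m * n ↔ a ^ d ∣ m ∧ b ^ d ∣ n := by
    rw [mul_pow]
    constructor
    · intro hh
      refine ⟨?_, ?_⟩
      · exact (Nat.Coprime.pow_left d (h.coprime_dvd_left ha')).dvd_of_dvd_mul_right
          ((dvd_mul_right _ _).trans hh)
      · exact (Nat.Coprime.pow_left d (h.symm.coprime_dvd_left hb')).dvd_of_dvd_mul_left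
          ((dvd_mul_left _ _).trans hh)
    · rintro ⟨h1, h2⟩
      exact mul_dvd_mul h1 h2
  simp only [key]
  by_cases h1 : a ^ d ∣ m <;> by_cases h2 : b ^ d ∣ n <;> simp [h1, h2, mul_pow]

lemma sg_pow (d : ℕ) (hd : 1 ≤ d) (p s : ℕ) (hp : p.Prime) :
    sg d (p ^ s) = ∑ i ∈ range (s / d + 1), p ^ (d * i) := by
  rw [sg_eq d _ hd, Nat.sum_divisors_prime_pow hp, ← Finset.sum_filter]
  refine Finset.sum_congr ?_ fun i _ => by rw [← pow_mul, mul_comm]
  ext i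
  simp only [Finset.mem_filter, Finset.mem_range, ← pow_mul,
    Nat.pow_dvd_pow_iff_le_right hp.one_lt, Nat.lt_succ_iff, Nat.le_div_iff_mul_le hd]
  constructor
  · exact fun h => h.2
  · intro h
    refine ⟨le_trans ?_ h, h⟩
    exact Nat.le_mul_of_pos_right i hd

lemma le_sg (d N k : ℕ) (hk : 1 ≤ k) (hkN : k ≤ N) (h : k ^ d ∣ N) : k ^ d ≤ sg d N := by
  rw [sg]
  exact Finset.single_le_sum (f := fun k => k ^ d) (fun _ _ => Nat.zero_le _)
    (Finset.mem_filter.2 ⟨Finset.mem_Icc.2 ⟨hk, hkN⟩, h⟩)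

lemma sg_le (d N : ℕ) : sg d N ≤ N ^ 2 := by
  rw [sg]
  calc ∑ k ∈ (Finset.Icc 1 N).filter (fun k => k ^ d ∣ N), k ^ d
      ≤ ((Finset.Icc 1 N).filter (fun k => k ^ d ∣ N)).card • N := by
        refine Finset.sum_le_card_nsmul _ _ _ fun k hk => ?_
        have hk' := Finset.mem_filter.1 hk
        have h1 := Finset.mem_Icc.1 hk'.1
        exact Nat.le_of_dvd (by omega) hk'.2
    _ ≤ N * N := by
        rw [smul_eq_mul]
        refine Nat.mul_le_mul_right _ ((Finset.card_filter_le _ _).trans ?_)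
        simp
    _ = N ^ 2 := by ring

/-- The arithmetic input: a value of `n` with `l^e' n + 1` prime and `p^t` exactly dividing
`l^e n + 1`. -/
lemma exists_n (l e e' p t : ℕ) (hl : l.Prime) (hp : p.Prime) (hee : e < e')
    (hpl : Nat.Coprime l p) (hbig : l ^ (e' - e) < p) (ht : 1 ≤ t) :
    ∃ n w : ℕ, (l ^ e' * n + 1).Prime ∧ l ^ e * n + 1 = p ^ t * (1 + p * w) := by
  have co : Nat.Coprime (l ^ e) (p ^ (t + 1)) := Nat.Coprime.pow _ _ hpl
  obtain ⟨x, hx1, hx2⟩ := Nat.chineseRemainder co 1 (p ^ t)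
  have hle : 1 ≤ l ^ e := Nat.one_le_pow _ _ hl.pos
  have hpt : p ^ t ≤ p ^ (t + 1) := Nat.pow_le_pow_right hp.pos (by omega)
  have hpt1 : 1 ≤ p ^ t := Nat.one_le_pow _ _ hp.pos
  set y := x + l ^ e * p ^ (t + 1) with hy
  have hy0 : p ^ (t + 1) ≤ y := by
    have : 1 * p ^ (t + 1) ≤ l ^ e * p ^ (t + 1) := Nat.mul_le_mul_right _ hle
    omega
  have hy1 : 1 ≡ y [MOD l ^ e] := by
    refine hx1.symm.trans ?_
    rw [hy]
    simp
  have hy2 : p ^ t ≡ y [MOD p ^ (t + 1)] := by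
    refine hx2.symm.trans ?_
    rw [hy]
    simp
  obtain ⟨n0, hn0⟩ := (Nat.modEq_iff_dvd' (by omega)).1 hy1
  obtain ⟨w0, hw0⟩ := (Nat.modEq_iff_dvd' (by omega)).1 hy2
  have e1 : l ^ e * n0 + 1 = p ^ t + p ^ (t + 1) * w0 := by omega
  obtain ⟨δ, rfl⟩ : ∃ δ, e' = e + (δ + 1) := ⟨e' - e - 1, by omega⟩
  have hδ : e + (δ + 1) - e = δ + 1 := by omega
  rw [hδ] at hbig
  have hL : 2 ≤ l ^ (δ + 1) := le_trans hl.two_le (Nat.le_self_pow (by omega) l)
  have c1 : Nat.Coprime (l ^ (e + (δ + 1)) * n0 + 1) (l ^ (e + (δ + 1))) := by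
    rw [add_comm]
    exact (Nat.coprime_add_mul_left_left 1 _ n0).2 (Nat.coprime_one_left _)
  have c2 : Nat.Coprime (l ^ (e + (δ + 1)) * n0 + 1) p := by
    rw [Nat.coprime_comm, hp.coprime_iff_not_dvd]
    intro hdv
    have h1 : p ∣ l ^ (δ + 1) * (l ^ e * n0 + 1) := by
      rw [e1]
      refine Dvd.dvd.mul_left ?_ _
      exact dvd_add (dvd_pow_self p (by omega)) (Dvd.dvd.mul_right (dvd_pow_self p (by omega)) _)
    have h2 : l ^ (δ + 1) * (l ^ e * n0 + 1) =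
        (l ^ (e + (δ + 1)) * n0 + 1) + (l ^ (δ + 1) - 1) := by
      have : l ^ (δ + 1) * (l ^ e * n0 + 1) = l ^ (e + (δ + 1)) * n0 + l ^ (δ + 1) := by ring
      omega
    rw [h2] at h1
    have h3 := (Nat.dvd_add_right hdv).1 h1
    have := Nat.le_of_dvd (by omega) h3
    omega
  have c3 : Nat.Coprime (l ^ (e + (δ + 1)) * n0 + 1) (l ^ (e + (δ + 1)) * p ^ (t + 1)) :=
    Nat.Coprime.mul_right c1 (Nat.Coprime.pow_right _ c2)
  have hQ : l ^ (e + (δ + 1)) * p ^ (t + 1) ≠ 0 :=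
    (Nat.mul_pos (Nat.pow_pos hl.pos) (Nat.pow_pos hp.pos)).ne'
  obtain ⟨q, hq1, hq2, hq3⟩ :=
    Nat.forall_exists_prime_gt_and_modEq (l ^ (e + (δ + 1)) * n0 + 1) hQ c3
  obtain ⟨k, hk⟩ := (Nat.modEq_iff_dvd' hq1.le).1 hq3.symm
  refine ⟨n0 + p ^ (t + 1) * k, w0 + l ^ e * k, ?_, ?_⟩
  · have : l ^ (e + (δ + 1)) * (n0 + p ^ (t + 1) * k) + 1 = q := by
      have : l ^ (e + (δ + 1)) * (n0 + p ^ (t + 1) * k) + 1 =
          (l ^ (e + (δ + 1)) * n0 + 1) + l ^ (e + (δ + 1)) * p ^ (t + 1) * k := by ring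
      omega
    rw [this]
    exact hq2
  · calc l ^ e * (n0 + p ^ (t + 1) * k) + 1 = (l ^ e * n0 + 1) + l ^ e * p ^ (t + 1) * k := by ring
      _ = _ := by rw [e1]; ring

end PSG

open PSG

theorem s_sg : S_Sg := by
  intro d hd
  refine ⟨sg_mul d hd, sg_pow d hd, fun N hN => ?_, sg_le d, fun k hk => ?_⟩
  · simpa using le_sg d N 1 le_rfl hN (by simp)
  · exact le_sg d _ k hk (Nat.le_self_pow (by omega) k) dvd_rfl

theorem s_tr (h : S_Gen) (hs : S_Sg) (hc : S_Chr) : S_Tr := by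
  intro d l hd hl halg
  haveI := Fact.mk hl
  obtain ⟨h0, hode⟩ := h d (by omega)
  obtain ⟨hmul, hpow, -, -, -⟩ := hs d (by omega)
  have h1 := (hc l hl _ halg).1
  rw [hode (ZMod l), mul_comm] at h1
  have hP : PP (ZMod l) d ≠ 0 := by
    intro h
    have := congrArg (coeff 0) h
    simp [PP, h0] at this
  have hT : IsAlgebraic (Polynomial (ZMod l)) (TT (ZMod l) d) :=
    IsAlgebraic.of_mul (mem_nonZeroDivisors_of_ne_zero hP) halg h1
  obtain ⟨e, e', -, hee, hco⟩ := (hc l hl _ hT).2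
  obtain ⟨p, hp, hbig, hp1⟩ := Nat.exists_prime_gt_modEq_one (l ^ (e' - e)) hl.ne_zero
  have hpl : Nat.Coprime l p := by
    have := hp1.gcd_eq
    rw [Nat.coprime_comm]
    simpa using this
  have hl2 := hl.two_le
  have ht : 1 ≤ d * (l - 1) := Nat.mul_pos (by omega) (by omega)
  obtain ⟨n, w, hq, hn⟩ := exists_n l e e' p (d * (l - 1)) hl hp hee hpl hbig ht
  have key := hco n
  simp only [TT, coeff_mk] at key
  have s1 : sg d (l ^ e' * n + 1) = 1 := by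
    have := hpow _ 1 hq
    rw [pow_one, Nat.div_eq_of_lt (by omega)] at this
    simpa using this
  have cw : Nat.Coprime (p ^ (d * (l - 1))) (1 + p * w) := by
    refine Nat.Coprime.pow_left _ ?_
    simp
  have s2 : ((sg d (p ^ (d * (l - 1))) : ℕ) : ZMod l) = 0 := by
    rw [hpow _ _ hp, Nat.mul_div_cancel_left _ (by omega : 0 < d)]
    have hp' : (p : ZMod l) = 1 := by
      have := (ZMod.natCast_eq_natCast_iff p 1 l).2 hp1
      simpa using this
    have : l - 1 + 1 = l := by omega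
    rw [this]
    push_cast
    simp [hp']
  rw [s1, hn, hmul _ _ cw] at key
  push_cast at key
  rw [s2] at key
  simp at key

end Pool.Agent.P.MP_85b516_nt
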