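import Pool.Agent.P.MP_85b516_nt.Stmt

/-! The degeneration step: injectivity of a linear system is an open condition. -/

open Finset Module Filter Topology

namespace Pool.Agent.P.MP_85b516_nt

namespace PSTEP

noncomputable section

theorem ev_inj {A A' : Type} [NormedAddCommGroup A] [NormedSpace ℂ A] [FiniteDimensional ℂ A]
    [NormedAddCommGroup A'] [NormedSpace ℂ A'] (M : ℂ → A →ₗ[ℂ] A')
    (hM : ∀ a, Continuous fun τ => M τ a) (D : Submodule ℂ A)
    (h0 : ∀ a ∈ D, M 0 a = 0 → a = 0) : ∀ᶠ τ in 𝓝 (0 : ℂ), ∀ a ∈ D, M τ a = 0 → a = 0 := by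
  let N : ℂ → D →L[ℂ] A' := fun τ => LinearMap.toContinuousLinearMap ((M τ).comp D.subtype)
  have hN : Continuous N := continuous_clm_apply.2 fun a => hM a
  have hi : Function.Injective (N 0) :=
    (injective_iff_map_eq_zero _).2 fun a ha => Subtype.ext (h0 a a.2 ha)
  have := hN.continuousAt.eventually (ContinuousLinearMap.isOpen_injective.mem_nhds hi)
  filter_upwards [this] with τ hτ a ha h
  exact congrArg Subtype.val ((injective_iff_map_eq_zero _).1 hτ ⟨a, ha⟩ h)

variable {X Z : Type} [Fintype Z] [DecidableEq Z] {b : ℕ}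

/-- a coordinate of the unknown `u` -/
def co (g : Fin b) (p : Z × X) : (Z × X → ℂ) × (Fin b → Z × X → ℂ) →ₗ[ℂ] ℂ where
  toFun a := a.2 g p
  map_add' _ _ := rfl
  map_smul' _ _ := rfl

/-- the rescaled system -/
def sys (c : Z → ℂ) (z : Z) (ω : Z → ℕ) (θ : Z → Fin b → X → ℂ) (τ : ℂ) :
    (Z × X → ℂ) × (Fin b → Z × X → ℂ) →ₗ[ℂ] (Z × X → ℂ) :=
  LinearMap.pi fun p => (LinearMap.proj p).comp (LinearMap.fst ℂ _ _) +
    ∑ g, if p.1 = z then ∑ x ∈ univ.erase z,
      (Complex.exp (θ z g p.2) * (c x / c z * τ ^ ω x)) • co g (x, p.2)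
    else (-Complex.exp (θ p.1 g p.2)) • co g p

theorem sys_z (c : Z → ℂ) (z : Z) (ω : Z → ℕ) (θ : Z → Fin b → X → ℂ) (τ : ℂ)
    (a : (Z × X → ℂ) × (Fin b → Z × X → ℂ)) (v : X) :
    sys c z ω θ τ a (z, v) = a.1 (z, v) + ∑ g, ∑ x ∈ univ.erase z,
      Complex.exp (θ z g v) * (c x / c z * τ ^ ω x) * a.2 g (x, v) := by
  simp [sys, co, LinearMap.sum_apply]

theorem sys_x (c : Z → ℂ) (z : Z) (ω : Z → ℕ) (θ : Z → Fin b → X → ℂ) (τ : ℂ)
    (a : (Z × X → ℂ) × (Fin b → Z × X → ℂ)) {x : Z} (hx : x ≠ z) (v : X) :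
    sys c z ω θ τ a (x, v) = a.1 (x, v) - ∑ g, Complex.exp (θ x g v) * a.2 g (x, v) := by
  simp [sys, co, LinearMap.sum_apply, hx, sub_eq_add_neg]

/-- the domain of the system -/
def dom (W : Submodule ℂ (X → ℂ)) (z : Z) (C : Submodule ℂ (Z × X → ℂ)) :
    Submodule ℂ ((Z × X → ℂ) × (Fin b → Z × X → ℂ)) :=
  C.prod (Submodule.pi Set.univ fun _ => LinearMap.ker (slice z) ⊓ ⨅ x, W.comap (slice x))

omit [Fintype Z] [DecidableEq Z] in
theorem mem_dom {W : Submodule ℂ (X → ℂ)} {z : Z} {C : Submodule ℂ (Z × X → ℂ)}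
    {a : (Z × X → ℂ) × (Fin b → Z × X → ℂ)} :
    a ∈ dom W z C ↔ a.1 ∈ C ∧ ∀ g, slice z (a.2 g) = 0 ∧ ∀ x, slice x (a.2 g) ∈ W := by
  simp [dom, Submodule.mem_prod, Submodule.mem_pi, Submodule.mem_iInf]

theorem good [Finite X] (W : Submodule ℂ (X → ℂ)) (c : Z → ℂ) (z : Z) (ω : Z → ℕ)
    (hω : ∀ x, x ≠ z → 0 < ω x) (θ : Z → Fin b → X → ℂ) (hθ : ∀ x, x ≠ z → Inj W (θ x))
    (C : Submodule ℂ (Z × X → ℂ))
    (hC : ∀ w ∈ C, slice z w = 0 → (∀ x, x ≠ z → slice x w ∈ Rng W (θ x)) → w = 0) :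
    ∀ᶠ τ in 𝓝 (0 : ℂ), ∀ a ∈ dom W z C, sys c z ω θ τ a = 0 → a = 0 := by
  have := Fintype.ofFinite X
  refine ev_inj (sys c z ω θ) (fun a => continuous_pi fun p => ?_) _ fun a ha h => ?_
  · obtain ⟨x, v⟩ := p
    by_cases hx : x = z
    · subst hx
      simp only [sys_z]
      fun_prop
    · simp only [sys_x c z ω θ _ a hx]
      exact continuous_const
  · obtain ⟨h1, h2⟩ := mem_dom.1 ha
    have hx : ∀ x, x ≠ z → ∀ v, a.1 (x, v) = ∑ g, Complex.exp (θ x g v) * a.2 g (x, v) :=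
      fun x hx v => by
        have := congrFun h (x, v)
        rw [sys_x c z ω θ _ a hx] at this
        exact sub_eq_zero.1 this
    have hw : a.1 = 0 := by
      refine hC _ h1 (funext fun v => ?_) fun x hx' =>
        ⟨fun g => slice x (a.2 g), fun g => (h2 g).2 x, hx x hx'⟩
      have := congrFun h (z, v)
      rw [sys_z, sum_eq_zero fun g _ => sum_eq_zero fun x hx' => by
        rw [zero_pow (hω x (ne_of_mem_erase hx')).ne', mul_zero, mul_zero, zero_mul], add_zero] at this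
      exact this
    refine Prod.ext hw (funext fun g => funext fun p => ?_)
    obtain ⟨x, v⟩ := p
    by_cases hx' : x = z
    · subst hx'
      exact congrFun (h2 g).1 v
    · have := hθ x hx' (fun g => slice x (a.2 g)) (fun g => (h2 g).2 x) fun v => by
        have := hx x hx' v
        rw [hw] at this
        exact this.symm
      exact congrFun (congrFun this g) v

theorem key (W : Submodule ℂ (X → ℂ)) (c : Z → ℂ) (z : Z) (hz : c z ≠ 0) (ω : Z → ℕ) (h0 : ω z = 0)
    (θ : Z → Fin b → X → ℂ) (τ s : ℂ) (hs : τ * Complex.exp s = 1)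
    (C : Submodule ℂ (Z × X → ℂ)) (h : ∀ a ∈ dom W z C, sys c z ω θ τ a = 0 → a = 0)
    (w : Z × X → ℂ) (hw : w ∈ C) (u : Fin b → Z × X → ℂ) (hu : ∀ g, u g ∈ ext W c)
    (e : ∀ p, w p = ∑ g, Complex.exp (θ p.1 g p.2 + ω p.1 * s) * u g p) : w = 0 ∧ u = 0 := by
  have hrel : ∀ g v, u g (z, v) = -∑ x ∈ univ.erase z, c x / c z * u g (x, v) := fun g v => by
    have := (hu g).2 v
    rw [← add_sum_erase _ _ (mem_univ z)] at this
    have e2 : ∑ x ∈ univ.erase z, c x / c z * u g (x, v) =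
        (∑ x ∈ univ.erase z, c x * u g (x, v)) / c z := by
      rw [sum_div]
      exact sum_congr rfl fun x _ => by ring
    rw [e2, ← neg_div, eq_div_iff hz]
    linear_combination this
  have k := h (w, fun g p => if p.1 = z then 0 else Complex.exp s ^ ω p.1 * u g p)
    (mem_dom.2 ⟨hw, fun g => ⟨funext fun v => if_pos rfl, fun x => by
      by_cases hx : x = z
      · have : slice x (fun p : Z × X => if p.1 = z then 0 else Complex.exp s ^ ω p.1 * u g p) = 0 :=
          funext fun v => if_pos hx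
        rw [this]
        exact W.zero_mem
      · have : slice x (fun p : Z × X => if p.1 = z then 0 else Complex.exp s ^ ω p.1 * u g p) =
            Complex.exp s ^ ω x • slice x (u g) := funext fun v => if_neg hx
        rw [this]
        exact W.smul_mem _ ((hu g).1 x)⟩⟩) (funext fun p => by
      obtain ⟨x, v⟩ := p
      by_cases hx : x = z
      · subst hx
        rw [sys_z]
        dsimp only
        rw [e, ← sum_add_distrib]
        refine sum_eq_zero fun g _ => ?_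
        rw [hrel, h0, Nat.cast_zero, zero_mul, add_zero, mul_neg, mul_sum, neg_add_eq_zero]
        refine sum_congr rfl fun y hy => ?_
        have e3 : τ ^ ω y * Complex.exp s ^ ω y = 1 := by rw [← mul_pow, hs, one_pow]
        simp only [if_neg (ne_of_mem_erase hy)]
        linear_combination -(Complex.exp (θ x g v) * (c y / c x) * u g (y, v)) * e3
      · rw [sys_x c z ω θ _ _ hx]
        dsimp only
        rw [e, Pi.zero_apply, sub_eq_zero]
        refine sum_congr rfl fun g _ => ?_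
        simp only [if_neg hx]
        rw [Complex.exp_add, Complex.exp_nat_mul, mul_assoc])
  have k2 : ∀ g x, x ≠ z → ∀ v, u g (x, v) = 0 := fun g x hx v => by
    have := congrFun (congrFun (congrArg Prod.snd k) g) (x, v)
    simp only [if_neg hx] at this
    exact (mul_eq_zero.1 this).resolve_left (pow_ne_zero _ (Complex.exp_ne_zero s))
  refine ⟨congrArg Prod.fst k, funext fun g => funext fun p => ?_⟩
  obtain ⟨x, v⟩ := p
  by_cases hx : x = z
  · rw [hx, hrel, sum_eq_zero fun y hy => by rw [k2 g y (ne_of_mem_erase hy), mul_zero], neg_zero]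
    rfl
  · exact k2 g x hx v

end

end PSTEP

theorem s_step : S_Step := by
  intro X Z _ _ _ W c b h1 hc z θ hθ hI ι _ S hS
  obtain ⟨ω, h0, hω, hcω⟩ := hc.2.2 z
  have hz := hc.1 z
  let θ₁ : Z → Fin b → X → ℂ := Function.update θ z
    fun g => (-(c z)⁻¹) • ∑ x ∈ univ.erase z, c x • θ x g
  have e1 : ∀ x, x ≠ z → θ₁ x = θ x := fun x hx => Function.update_of_ne hx _ _
  have e2 : θ₁ z = fun g => (-(c z)⁻¹) • ∑ x ∈ univ.erase z, c x • θ x g :=
    Function.update_self _ _ _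
  have hI₁ : ∀ x, x ≠ z → Inj W (θ₁ x) := fun x hx => e1 x hx ▸ hI x
  choose K' hK' using fun i =>
    Submodule.exists_isCompl (KK W θ (univ.erase z) (Van {z} (S i)))
  have g1 := PSTEP.good W c z ω hω θ₁ hI₁ ⊥ fun w hw _ _ => (Submodule.mem_bot ℂ).1 hw
  have g2 := eventually_all.2 fun i => PSTEP.good W c z ω hω θ₁ hI₁ (S i ⊓ K' i) fun w hw hw1 hw2 =>
    (Submodule.disjoint_def.1 (hK' i).disjoint) w
      (mem_KK.2 ⟨mem_Van.2 ⟨hw.1, fun x hx => mem_singleton.1 hx ▸ hw1⟩, fun x hx =>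
        e1 x (ne_of_mem_erase hx) ▸ hw2 x (ne_of_mem_erase hx)⟩) hw.2
  obtain ⟨τ, ⟨t1, t2⟩, hτ⟩ :=
    (((g1.and g2).filter_mono (nhdsWithin_le_nhds (s := {0}ᶜ))).and self_mem_nhdsWithin).exists
  have hτ' : τ ≠ 0 := hτ
  have hs : τ * Complex.exp (-Complex.log τ) = 1 := by
    rw [Complex.exp_neg, Complex.exp_log hτ', mul_inv_cancel₀ hτ']
  refine ⟨fun g p => θ₁ p.1 g p.2 + ω p.1 * -Complex.log τ, fun g => ⟨fun x => ?_, fun v => ?_⟩,
    fun u hu e => ?_, fun i => ?_⟩
  · have : slice x (fun p : Z × X => θ₁ p.1 g p.2 + ω p.1 * -Complex.log τ) =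
        θ₁ x g + ((ω x : ℂ) * -Complex.log τ) • fun _ => (1 : ℂ) := funext fun v => by simp
    rw [this]
    refine W.add_mem ?_ (W.smul_mem _ h1)
    by_cases hx : x = z
    · rw [hx, e2]
      exact W.smul_mem _ (W.sum_mem fun y _ => W.smul_mem _ (hθ y g))
    · rw [e1 x hx]
      exact hθ x g
  · have e3 : ∑ x, c x * θ₁ x g v = 0 := by
      rw [← add_sum_erase _ _ (mem_univ z), e2,
        sum_congr rfl fun x hx => by rw [e1 x (ne_of_mem_erase hx)]]
      simp only [Pi.smul_apply, Finset.sum_apply, smul_eq_mul]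
      field_simp
      ring
    have e4 : ∑ x, c x * (θ₁ x g v + ω x * -Complex.log τ) =
        ∑ x, c x * θ₁ x g v + (∑ x, c x * (ω x : ℂ)) * -Complex.log τ := by
      rw [sum_mul, ← sum_add_distrib]
      exact sum_congr rfl fun x _ => by ring
    exact e4.trans (by rw [e3, hcω, zero_mul, add_zero])
  · exact (PSTEP.key W c z hz ω h0 θ₁ τ _ hs ⊥ t1 0 (Submodule.zero_mem _) u hu
      fun p => (e p).symm).2
  · refine LinearMap.finrank_le_finrank_of_injective
      (f := (Submodule.projectionOnto _ _ (hK' i)).comp (Submodule.subtype _))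
      ((injective_iff_map_eq_zero _).2 fun w hw => Subtype.ext ?_)
    obtain ⟨u, hu, e⟩ := w.2.2
    have hw' : (w : Z × X → ℂ) ∈ K' i :=
      (Submodule.projectionOnto_apply_eq_zero_iff (hK' i)).1 hw
    exact (PSTEP.key W c z hz ω h0 θ₁ τ _ hs _ (t2 i) w ⟨w.2.1, hw'⟩ u hu e).1

end Pool.Agent.P.MP_85b516_nt
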