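import Pool.Agent.P.MP_85b516_nt.Asm
import Pool.Agent.P.MP_85b516_nt.GEN
import Pool.Agent.P.MP_85b516_nt.SG
import Pool.Agent.P.MP_85b516_nt.CHR
import Pool.Agent.P.MP_85b516_nt.RED
import Pool.Agent.P.MP_85b516_nt.STEP
import Pool.Agent.P.MP_85b516_nt.SEQ
import Pool.Agent.P.MP_85b516_nt.CC
import Pool.Agent.P.MP_85b516_nt.REAL
import Pool.Agent.P.MP_85b516_nt.AI
import Pool.Agent.P.MP_85b516_nt.JEN
import Pool.Agent.P.MP_85b516_nt.ORT
import Pool.Agent.P.MP_85b516_nt.FOUR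
import Pool.Agent.P.MP_85b516_nt.LOW
import Pool.Agent.P.MP_85b516_nt.KAH

/-! Theorem FM. -/

namespace Pool.Agent.P.MP_85b516_nt

theorem yv_all : S_Yv := s_yv s_gen s_sg

theorem ai_all : S_AI :=
  s_ai s_borel (s_key s_jen (s_low s_ort s_hua) (s_two s_sg) (s_four s_ort) yv_all) yv_all

theorem cc_all : S_CC := s_cc (s_ext s_step s_seq) s_primes

theorem tr_all : S_Tr := s_tr s_gen s_sg s_chr

theorem main_all : S_Main :=
  s_main tr_all s_red s_per cc_all (s_mem s_sg) (s_span s_sg) s_rel ai_all s_mat s_kah yv_all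
    s_lin

end Pool.Agent.P.MP_85b516_nt
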