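import Pool.Agent.P.MP_85b516_nt.Defs

/-! Package statements for Theorem FM (MP_85b516_nt). -/

open PowerSeries Finset Module

namespace Pool.Agent.P.MP_85b516_nt

noncomputable section

/-- Logarithmic derivative of the generating function. -/
def S_Gen : Prop := ∀ d : ℕ, 1 ≤ d → pd d 0 = 1 ∧
  ∀ (R : Type) [CommRing R], th (PP R d) = TT R d * PP R d

/-- Arithmetic of `sg`. -/
def S_Sg : Prop := ∀ d : ℕ, 1 ≤ d →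
  (∀ m n : ℕ, Nat.Coprime m n → sg d (m * n) = sg d m * sg d n) ∧
  (∀ p s : ℕ, p.Prime → sg d (p ^ s) = ∑ i ∈ range (s / d + 1), p ^ (d * i)) ∧
  (∀ N : ℕ, 1 ≤ N → 1 ≤ sg d N) ∧
  (∀ N : ℕ, sg d N ≤ N ^ 2) ∧
  (∀ k : ℕ, 1 ≤ k → k ^ d ≤ sg d (k ^ d))

/-- Christol direction. -/
def S_Chr : Prop := ∀ (l : ℕ), l.Prime → ∀ f : (ZMod l)⟦X⟧,
  IsAlgebraic (Polynomial (ZMod l)) f →
    IsAlgebraic (Polynomial (ZMod l)) (th f) ∧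
    ∃ e e' : ℕ, 1 ≤ e ∧ e < e' ∧ ∀ n : ℕ, coeff (l ^ e * n + 1) f = coeff (l ^ e' * n + 1) f

/-- The generating function is transcendental modulo every prime. -/
def S_Tr : Prop := ∀ d l : ℕ, 2 ≤ d → l.Prime →
  ¬ IsAlgebraic (Polynomial (ZMod l)) (PP (ZMod l) d)

/-- Reduction of an algebraic relation modulo a prime. -/
def S_Red : Prop := ∀ (P : ℤ⟦X⟧),
  (∀ l : ℕ, l.Prime →
    ¬ IsAlgebraic (Polynomial (ZMod l)) (PowerSeries.map (Int.castRingHom (ZMod l)) P)) →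
  ∀ (Q : Polynomial ℤ⟦X⟧), Q.eval P = 0 → ∀ i n : ℕ, coeff n (Q.coeff i) ≠ 0 →
  ∀ m : ℕ, (∀ i', Rat m (Q.coeff i')) → (m : ℤ) ∣ coeff n (Q.coeff i)

/-- Periodic sections are rational modulo `m`. -/
def S_Per : Prop := ∀ (p : ℕ → ℕ) (a b m h j M s : ℕ), 1 ≤ a → 1 ≤ h → 1 ≤ j → 1 ≤ M →
  (∀ n, p (a * (n + h) + b) ≡ p (a * n + b) [MOD m]) → Rat m (Hs p a b j M s)

/-- Degeneration step. -/
def S_Step : Prop := ∀ (X Z : Type) [Finite X] [Fintype Z] [DecidableEq Z]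
  (W : Submodule ℂ (X → ℂ)) (c : Z → ℂ) (b : ℕ), (fun _ => (1 : ℂ)) ∈ W → Star c →
  ∀ (z : Z) (θ : Z → Fin b → X → ℂ), (∀ x g, θ x g ∈ W) → (∀ x, Inj W (θ x)) →
  ∀ (ι : Type) [Fintype ι] (S : ι → Submodule ℂ (Z × X → ℂ)), (∀ i, S i ≤ ext W c) →
  ∃ θ' : Fin b → Z × X → ℂ, (∀ g, θ' g ∈ ext W c) ∧ Inj (ext W c) θ' ∧
    ∀ i, finrank ℂ ↥(S i ⊓ Rng (ext W c) θ') ≤
      finrank ℂ ↥(KK W θ (univ.erase z) (Van {z} (S i)))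

/-- Sequential choice on a set of slices. -/
def S_Seq : Prop := ∀ (X Z : Type) [Finite X] [Fintype Z] [DecidableEq Z]
  (W : Submodule ℂ (X → ℂ)) (c : Z → ℂ) (b : ℕ) (lam : ℝ), 0 ≤ lam → (∀ x, c x ≠ 0) →
  Good W b lam → ∀ (A : Finset Z) (ι : Type) [Fintype ι] (S : ι → Submodule ℂ (Z × X → ℂ))
  (p q : ι → ℝ), (∀ i, S i ≤ ext W c) → (∀ i, 0 ≤ p i) → (∀ i, 0 ≤ q i) →
  (∀ i, q i ≠ 0 → ∀ w ∈ S i, ∀ x, x ∉ A → slice x w = 0) →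
  ∃ θ : Z → Fin b → X → ℂ, (∀ x g, θ x g ∈ W) ∧ (∀ x, Inj W (θ x)) ∧
    ∑ i, (p i + q i) * (finrank ℂ ↥(KK W θ A (S i)) : ℝ) ≤
      ∑ i, (p i * (lam * (finrank ℂ ↥(S i) : ℝ) + (1 - lam) * (finrank ℂ ↥(Van A (S i)) : ℝ)) +
        q i * (A.card * lam ^ 2 * (finrank ℂ ↥(S i) : ℝ)))

/-- The two recursions for `Good`. -/
def S_Ext : Prop := ∀ (X Z : Type) [Finite X] [Fintype Z]
  (W : Submodule ℂ (X → ℂ)) (c : Z → ℂ) (b : ℕ) (lam : ℝ), 0 ≤ lam → (fun _ => (1 : ℂ)) ∈ W →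
  Star c → Nonempty Z → Good W b lam →
    Good (ext W c) b (lam * (1 - 1 / (Fintype.card Z : ℝ))) ∧
    Good (ext W c) b ((Fintype.card Z : ℝ) * lam ^ 2)

/-- Supply of primes. -/
def S_Primes : Prop := ∃ q : ℕ → ℕ, (∀ i, (q i).Prime ∧ 2 ^ i < q i ∧ q i ≤ 2 ^ (i + 1)) ∧
  ∀ (F : Finset ℕ) (C : ℝ), ∃ G : Finset ℕ, (∀ p ∈ G, p.Prime ∧ p ∉ F ∧ ∀ i, q i ≠ p) ∧
    C ≤ ∑ p ∈ G, 1 / ((p : ℝ) + 3)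

/-- Generic non-degeneracy. -/
def S_CC : Prop := ∀ a : ℕ, 1 ≤ a →
  ∃ l : List ℕ, l.Nodup ∧ (∀ p ∈ l, p.Prime ∧ ¬ p ∣ a) ∧ Perf (WW l) a

/-- The coefficient vectors lie in `WW l`. -/
def S_Mem : Prop := ∀ (d : ℕ) (l : List ℕ), 1 ≤ d → l.Nodup → (∀ p ∈ l, p.Prime) →
  ∀ N : ℕ, (fun v => Gc d (jv d l v) (zv l v) N) ∈ WW l

/-- The coefficient vectors in a residue class span `WW l`. -/
def S_Span : Prop := ∀ (d : ℕ) (l : List ℕ), 2 ≤ d → l.Nodup → (∀ p ∈ l, p.Prime) →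
  ∀ a s : ℕ, 1 ≤ a → (∀ p ∈ l, ¬ p ∣ a) →
  WW l ≤ Submodule.span ℂ
    {w | ∃ N : ℕ, N ≡ s [MOD a] ∧ w = fun v => Gc d (jv d l v) (zv l v) N}

/-- Integral equations for `WW l` and small facts on the configuration. -/
def S_Rel : Prop := ∀ (d : ℕ) (l : List ℕ), (∀ p ∈ l, p.Prime) →
  (∃ (R : Type) (_ : Fintype R) (ρ : R → Vx l → ℤ),
    ∀ w : Vx l → ℂ, w ∈ WW l ↔ ∀ r, ∑ v, (ρ r v : ℂ) * w v = 0) ∧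
  (fun v => (jv d l v : ℂ)) ∈ WW l ∧
  (∀ v, 1 ≤ jv d l v) ∧
  (∀ a : ℕ, (∀ p ∈ l, ¬ p ∣ a) → ∀ v, Nat.Coprime (jv d l v) a) ∧
  (∀ v, zv l v ^ l.prod = 1) ∧
  (∃ v, jv d l v = 1 ∧ zv l v = 1)

/-- Borel's lemma over the ring of polynomially bounded series. -/
def S_Borel : Prop := ∀ (ι : Type) [Fintype ι] (f T : ι → ℂ⟦X⟧),
  (∀ i, th (f i) = T i * f i) → (∀ i, constantCoeff (f i) = 1) → (∀ i, PB (T i)) →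
  (∀ i i', i ≠ i' → ∀ A B : ℂ⟦X⟧, PB A → PB B → A ≠ 0 → B ≠ 0 →
    A * th B - B * th A ≠ A * B * (T i - T i')) →
  LinearIndependent ℂ f

/-- Jensen bound. -/
def S_Jen : Prop := ∀ A B L : ℂ⟦X⟧, PB A → PB B → PB L → A ≠ 0 → B ≠ 0 →
  A * th B - B * th A = A * B * th L →
  ∃ C : ℝ, ∀ r : ℝ, 1 / 2 ≤ r → r < 1 →
    Real.circleAverage (fun z => |(ev L z).re|) 0 r ≤ C * (1 + Real.log (1 / (1 - r)))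

/-- Orthogonality on circles. -/
def S_Ort : Prop :=
  (∀ (D : ℕ) (c : ℕ → ℂ) (r : ℝ), 0 < r →
    Real.circleAverage (fun z => (∑ N ∈ Icc 1 D, c N * z ^ N).re ^ 2) 0 r =
      (∑ N ∈ Icc 1 D, ‖c N‖ ^ 2 * r ^ (2 * N)) / 2) ∧
  (∀ (d K e : ℕ) (s : Finset ℕ) (β : ℕ → ℂ) (r : ℝ), 1 ≤ e → s ⊆ Icc 1 K → (∀ k, ‖β k‖ ≤ 1) →
    0 < r → r ≤ 1 →
    Real.circleAverage (fun z => ‖∑ k ∈ s, β k * z ^ (e * k ^ d)‖ ^ 4) 0 r ≤ (Nsol d K : ℝ))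

/-- Counting solutions of `k1^d + k2^d = k3^d + k4^d`. -/
def S_Hua : Prop := ∀ d : ℕ, 2 ≤ d → ∀ ε : ℝ, 0 < ε →
  ∃ C : ℝ, 0 < C ∧ ∀ K : ℕ, (Nsol d K : ℝ) ≤ C * (K : ℝ) ^ (2 + ε)

/-- Fourth moment of the truncated logarithm. -/
def S_Four : Prop := ∀ (d : ℕ), 2 ≤ d → ∀ (V : Type) [Fintype V] (j : V → ℕ) (ω e : V → ℂ),
  (∀ v, 1 ≤ j v) → (∀ v, ‖ω v‖ = 1) → ∀ (D K : ℕ) (r : ℝ), D < (K + 1) ^ d → 0 < r → r ≤ 1 →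
    Real.circleAverage (fun z => ‖∑ N ∈ Icc 1 D,
        coeff N (prim (∑ v, e v • Tv d (j v) (ω v))) * z ^ N‖ ^ 4) 0 r ≤
      ((∑ v, ‖e v‖) * (1 + Real.log D)) ^ 4 * (Nsol d K : ℝ)

/-- Many large coefficients. -/
def S_Two : Prop := ∀ (d : ℕ), 2 ≤ d → ∀ (V : Type) [Fintype V] (j : V → ℕ) (ω e : V → ℂ) (M : ℕ),
  (∀ v, 1 ≤ j v) → 1 ≤ M → (∀ v, ω v ^ M = 1) → ∑ v, e v • Tv d (j v) (ω v) ≠ 0 →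
  ∃ (N0 A : ℕ) (c : ℝ), 1 ≤ N0 ∧ 1 ≤ A ∧ 0 < c ∧ ∀ i : ℕ,
    c ≤ ‖coeff (N0 * (1 + A * i) ^ d) (prim (∑ v, e v • Tv d (j v) (ω v)))‖

/-- Lower bound for the mean of the real part. -/
def S_Low : Prop := ∀ (d : ℕ), 2 ≤ d → ∀ (L : ℂ⟦X⟧), PB L → coeff 0 L = 0 →
  (∃ (N0 A : ℕ) (c : ℝ), 1 ≤ N0 ∧ 1 ≤ A ∧ 0 < c ∧ ∀ i : ℕ,
    c ≤ ‖coeff (N0 * (1 + A * i) ^ d) L‖) →
  (∃ E : ℝ, ∀ (D K : ℕ) (r : ℝ), D < (K + 1) ^ d → 0 < r → r ≤ 1 →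
    Real.circleAverage (fun z => ‖∑ N ∈ Icc 1 D, coeff N L * z ^ N‖ ^ 4) 0 r ≤
      (E * (1 + Real.log D)) ^ 4 * (Nsol d K : ℝ)) →
  ¬ ∃ C : ℝ, ∀ r : ℝ, 1 / 2 ≤ r → r < 1 →
    Real.circleAverage (fun z => |(ev L z).re|) 0 r ≤ C * (1 + Real.log (1 / (1 - r)))

/-- No nonzero combination of the `Tv` is a logarithmic derivative of a quotient in `PB`. -/
def S_Key : Prop := ∀ (d : ℕ), 2 ≤ d → ∀ (V : Type) [Fintype V] (j : V → ℕ) (ω e : V → ℂ) (M : ℕ),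
  (∀ v, 1 ≤ j v) → 1 ≤ M → (∀ v, ω v ^ M = 1) → ∑ v, e v • Tv d (j v) (ω v) ≠ 0 →
  ∀ A B : ℂ⟦X⟧, PB A → PB B → A ≠ 0 → B ≠ 0 →
    A * th B - B * th A ≠ A * B * ∑ v, e v • Tv d (j v) (ω v)

/-- Polynomial relations among the `Yv` are inherited by exponentials of functionals. -/
def S_AI : Prop := ∀ (d : ℕ), 2 ≤ d → ∀ (V : Type) [Fintype V] (j : V → ℕ) (ω : V → ℂ) (M : ℕ),
  (∀ v, 1 ≤ j v) → 1 ≤ M → (∀ v, ω v ^ M = 1) →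
  ∀ (φ : ℂ⟦X⟧ →ₗ[ℂ] ℂ) (D : MvPolynomial V ℂ),
    MvPolynomial.aeval (fun v => Yv d (j v) (ω v)) D = 0 →
    MvPolynomial.eval (fun v => Complex.exp (φ (Tv d (j v) (ω v)))) D = 0

/-- Non-degeneracy over the fraction field. -/
def NonDeg {V R E : Type} [Fintype V] (y : V → ℂ⟦X⟧) (ρ : R → V → ℤ) (κ : E → V → ℂ) : Prop :=
  ∀ δ : V → FractionRing ℂ⟦X⟧, (∀ r, ∑ v, (ρ r v : FractionRing ℂ⟦X⟧) * δ v = 0) →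
    (∀ e, ∑ v, algebraMap ℂ⟦X⟧ (FractionRing ℂ⟦X⟧) (κ e v • y v) * δ v = 0) → δ = 0

/-- Transfer of non-degeneracy through a maximal minor. -/
def S_Mat : Prop := ∀ (V R E : Type) [Fintype V] [Fintype R] [Fintype E]
  (y : V → ℂ⟦X⟧) (t : V → ℂ) (ρ : R → V → ℤ) (κ : E → V → ℂ),
  (∀ D : MvPolynomial V ℂ, MvPolynomial.aeval y D = 0 → MvPolynomial.eval t D = 0) →
  (∀ δ : V → ℂ, (∀ r, ∑ v, (ρ r v : ℂ) * δ v = 0) → (∀ e, ∑ v, κ e v * t v * δ v = 0) → δ = 0) →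
  NonDeg y ρ κ

/-- Kaehler differentials: non-degeneracy gives algebraicity. -/
def S_Kah : Prop := ∀ (B : Subring ℤ⟦X⟧) (P : ℤ⟦X⟧) (V R E : Type) [Fintype V]
  (y : V → ℂ⟦X⟧) (ρ : R → V → ℤ) (κ : E → V → ℂ) (M : ℕ), 1 ≤ M →
  (∃ v, y v = PowerSeries.map (Int.castRingHom ℂ) P) → (∀ v, y v ≠ 0) →
  (∀ r, ∏ v, y v ^ (ρ r v).toNat = ∏ v, y v ^ (-ρ r v).toNat) →
  (∀ e v, κ e v = 0 ∨ κ e v ^ M = 1) →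
  (∀ e, ∃ (z : ℂ) (h : ℕ → ℤ⟦X⟧), z ^ M = 1 ∧ (∀ s, h s ∈ B) ∧
    ∑ v, κ e v • y v = ∑ s ∈ range M, z ^ s • PowerSeries.map (Int.castRingHom ℂ) (h s)) →
  NonDeg y ρ κ →
  ∃ Q : Polynomial ℤ⟦X⟧, Q ≠ 0 ∧ (∀ i, Q.coeff i ∈ B) ∧ Q.eval P = 0

/-- Facts on `Yv`, `Tv`. -/
def S_Yv : Prop := ∀ (d j : ℕ) (w : ℂ), 1 ≤ d → 1 ≤ j →
  th (Yv d j w) = Tv d j w * Yv d j w ∧ constantCoeff (Yv d j w) = 1 ∧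
    (‖w‖ = 1 → PB (Tv d j w))

/-- The section relation. -/
def S_Lin : Prop := ∀ (d a b j M : ℕ) (ξ ζ : ℂ), 1 ≤ a → 1 ≤ j → 1 ≤ M → Nat.Coprime j a →
  IsPrimitiveRoot ξ a → ζ ^ M = 1 →
  ∑ g : Fin a, ((ξ ^ (g : ℕ)) ^ (j * ((a - 1) * b))) • Yv d j (ξ ^ (g : ℕ) * ζ) =
    ∑ s ∈ range M, ζ ^ s •
      PowerSeries.map (Int.castRingHom ℂ) ((a : ℤ⟦X⟧) * Hs (pd d) a b j M s)

/-- The final statement. -/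
def S_Main : Prop := ∀ d a : ℕ, 2 ≤ d → 1 ≤ a → ∃ G : ℕ, 1 ≤ G ∧ ∀ m b h : ℕ, 1 ≤ h →
  (∀ n, pd d (a * (n + h) + b) ≡ pd d (a * n + b) [MOD m]) → m ∣ G

end

end Pool.Agent.P.MP_85b516_nt
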